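import Mathlib
import Pool.Agent.H357R2.SI.PairFinal

/-! The second moment of the number of the primes `n² ± a`. -/

set_option autoImplicit false

namespace Pool.Agent.V5helper51.BH

open Finset Filter
open Pool.Agent.H357R2.SI (sg pair_sieve sum_sg_sq)

/-- the values -/
def vv (s : ℤ) (a n : ℕ) : ℕ := ((n : ℤ) ^ 2 + s * a).natAbs

/-- the number of the `n` in `(u, v]` with a prime value -/
def cnt (s : ℤ) (a u v : ℕ) : ℕ := #((Ioc u v).filter (fun n => (vv s a n).Prime))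

lemma sg_nonneg (h : ℕ) : 0 ≤ sg h := by
  unfold sg
  positivity

lemma sg_mul_le (e f : ℕ) : sg (e * f) ≤ sg e * sg f := by
  classical
  unfold sg
  rw [sum_mul_sum, ← sum_product']
  have h1 : ∀ d ∈ (e * f).divisors, ∃ p ∈ e.divisors ×ˢ f.divisors, p.1 * p.2 = d := by
    intro d hd
    have hne := Nat.ne_zero_of_mem_divisors hd
    have hd' := Nat.dvd_of_mem_divisors hd
    obtain ⟨a, b, ha, hb, hab⟩ := exists_dvd_and_dvd_of_dvd_mul hd'
    refine ⟨(a, b), ?_, hab.symm⟩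
    rw [mem_product, Nat.mem_divisors, Nat.mem_divisors]
    exact ⟨⟨ha, left_ne_zero_of_mul hne⟩, ⟨hb, right_ne_zero_of_mul hne⟩⟩
  choose! φ hφ1 hφ2 using h1
  have hinj : Set.InjOn φ ((e * f).divisors : Set ℕ) := by
    intro x hx y hy hxy
    rw [← hφ2 x hx, ← hφ2 y hy, hxy]
  calc ∑ d ∈ (e * f).divisors, 1 / (d : ℝ) = ∑ d ∈ (e * f).divisors, 1 / ((φ d).1 : ℝ) * (1 / ((φ d).2 : ℝ)) := by
        apply sum_congr rfl
        intro d hd
        have := hφ2 d hd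
        rw [← this]
        push_cast
        rw [this]
        field_simp
    _ = ∑ p ∈ (e * f).divisors.image φ, 1 / (p.1 : ℝ) * (1 / (p.2 : ℝ)) := by
        rw [sum_image hinj]
    _ ≤ _ := by
        apply sum_le_sum_of_subset_of_nonneg
        · intro p hp
          rw [mem_image] at hp
          obtain ⟨d, hd, rfl⟩ := hp
          exact hφ1 d hd
        · intro p _ _
          positivity

lemma pair_count {s : ℤ} (hs : s = 1 ∨ s = -1) {A n m : ℕ} (hnm : n < m) (hA : A < n ^ 2) :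
    ∃ b : ℕ, #((Icc 1 A).filter (fun a => (vv s a n).Prime ∧ (vv s a m).Prime)) ≤
      #((Ioc b (b + A)).filter (fun x => x.Prime ∧ (x + (m ^ 2 - n ^ 2)).Prime)) := by
  have hnm2 : n ^ 2 ≤ m ^ 2 := Nat.pow_le_pow_left hnm.le 2
  rcases hs with rfl | rfl
  · refine ⟨n ^ 2, ?_⟩
    have hv : ∀ a k : ℕ, vv 1 a k = k ^ 2 + a := by
      intro a k
      unfold vv
      have : ((k : ℤ) ^ 2 + 1 * a) = ((k ^ 2 + a : ℕ) : ℤ) := by push_cast; ring
      rw [this, Int.natAbs_natCast]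
    apply card_le_card_of_injOn (fun a => n ^ 2 + a)
    · intro a ha
      rw [mem_coe, mem_filter, mem_Icc, hv, hv] at ha
      rw [mem_coe, mem_filter, mem_Ioc]
      change (n ^ 2 < n ^ 2 + a ∧ n ^ 2 + a ≤ n ^ 2 + A) ∧ (n ^ 2 + a).Prime ∧ (n ^ 2 + a + (m ^ 2 - n ^ 2)).Prime
      refine ⟨⟨by omega, by omega⟩, ha.2.1, ?_⟩
      have : n ^ 2 + a + (m ^ 2 - n ^ 2) = m ^ 2 + a := by omega
      rw [this]
      exact ha.2.2
    · intro a _ b _ hab
      simpa using hab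
  · refine ⟨n ^ 2 - A - 1, ?_⟩
    have hv : ∀ a k : ℕ, a ≤ k ^ 2 → vv (-1) a k = k ^ 2 - a := by
      intro a k hak
      unfold vv
      have : ((k : ℤ) ^ 2 + -1 * a) = ((k ^ 2 - a : ℕ) : ℤ) := by
        rw [Nat.cast_sub hak]; push_cast; ring
      rw [this, Int.natAbs_natCast]
    apply card_le_card_of_injOn (fun a => n ^ 2 - a)
    · intro a ha
      rw [mem_coe, mem_filter, mem_Icc] at ha
      obtain ⟨⟨h1, h2⟩, h3, h4⟩ := ha
      rw [hv a n (by omega)] at h3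
      rw [hv a m (by omega)] at h4
      rw [mem_coe, mem_filter, mem_Ioc]
      change (n ^ 2 - A - 1 < n ^ 2 - a ∧ n ^ 2 - a ≤ n ^ 2 - A - 1 + A) ∧ (n ^ 2 - a).Prime ∧
        (n ^ 2 - a + (m ^ 2 - n ^ 2)).Prime
      refine ⟨⟨by omega, by omega⟩, h3, ?_⟩
      have : n ^ 2 - a + (m ^ 2 - n ^ 2) = m ^ 2 - a := by omega
      rw [this]
      exact h4
    · intro a ha b hb hab
      rw [mem_coe, mem_filter, mem_Icc] at ha hb
      simp only at hab
      omega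

/-- the sum of the singular series -/
lemma sum_pairs : ∃ C : ℝ, 1 ≤ C ∧ ∀ N : ℕ,
    ∑ q ∈ ((Icc 1 N) ×ˢ (Icc 1 N)).filter (fun q => q.1 < q.2), sg (q.2 ^ 2 - q.1 ^ 2) ^ 2 ≤ C * (N : ℝ) ^ 2 := by
  obtain ⟨C, hC, h⟩ := sum_sg_sq
  refine ⟨2 * C ^ 2, by nlinarith, fun N => ?_⟩
  calc ∑ q ∈ ((Icc 1 N) ×ˢ (Icc 1 N)).filter (fun q => q.1 < q.2), sg (q.2 ^ 2 - q.1 ^ 2) ^ 2 ≤
        ∑ q ∈ ((Icc 1 N) ×ˢ (Icc 1 N)).filter (fun q => q.1 < q.2), sg (q.2 - q.1) ^ 2 * sg (q.2 + q.1) ^ 2 := by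
        apply sum_le_sum
        intro q hq
        rw [mem_filter] at hq
        have h1 : q.2 ^ 2 - q.1 ^ 2 = (q.2 - q.1) * (q.2 + q.1) := by
          rw [mul_comm]; exact Nat.sq_sub_sq _ _
        rw [h1, ← mul_pow]
        exact pow_le_pow_left₀ (sg_nonneg _) (sg_mul_le _ _) 2
    _ = ∑ r ∈ (((Icc 1 N) ×ˢ (Icc 1 N)).filter (fun q => q.1 < q.2)).image (fun q => (q.2 - q.1, q.2 + q.1)),
        sg r.1 ^ 2 * sg r.2 ^ 2 := by
        rw [sum_image]
        rintro ⟨a, b⟩ hq ⟨c, d⟩ hr hqr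
        rw [mem_coe, mem_filter] at hq hr
        simp only [Prod.mk.injEq] at hqr hq hr ⊢
        omega
    _ ≤ ∑ r ∈ (Icc 1 N) ×ˢ (Icc 1 (2 * N)), sg r.1 ^ 2 * sg r.2 ^ 2 := by
        apply sum_le_sum_of_subset_of_nonneg
        · intro r hr
          rw [mem_image] at hr
          obtain ⟨⟨a, b⟩, hq, rfl⟩ := hr
          rw [mem_filter, mem_product, mem_Icc, mem_Icc] at hq
          simp only at hq
          rw [mem_product, mem_Icc, mem_Icc]
          simp only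
          omega
        · intro r _ _
          positivity
    _ = (∑ e ∈ Icc 1 N, sg e ^ 2) * ∑ f ∈ Icc 1 (2 * N), sg f ^ 2 := by
        rw [sum_mul_sum, ← sum_product']
    _ ≤ (C * N) * (C * ((2 * N : ℕ) : ℝ)) := by
        apply mul_le_mul (h N) (h (2 * N)) (sum_nonneg fun _ _ => by positivity) (by positivity)
    _ = 2 * C ^ 2 * (N : ℝ) ^ 2 := by push_cast; ring

/-- the second moment -/
theorem second : ∃ C : ℝ, 1 ≤ C ∧ ∃ N0 : ℕ, ∀ N A : ℕ, N0 ≤ N → (N : ℝ) ^ (1 / 4 : ℝ) ≤ A → A < (N / 8 + 1) ^ 2 →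
    ∀ s : ℤ, (s = 1 ∨ s = -1) →
      ∑ a ∈ Icc 1 A, (cnt s a (N / 8) N : ℝ) ^ 2 ≤ C * A * (N / Real.log N) ^ 2 := by
  classical
  obtain ⟨C1, hC1, u0, hps⟩ := pair_sieve
  obtain ⟨C2, hC2, hsum⟩ := sum_pairs
  have ev1 : ∀ᶠ x : ℝ in atTop, Real.log x ^ 2 ≤ x := by
    have h1 := (isLittleO_log_rpow_atTop (show (0 : ℝ) < 1 / 2 by positivity)).bound (show (0 : ℝ) < 1 by norm_num)
    filter_upwards [h1, eventually_ge_atTop 1] with x hx hx1
    rw [Real.norm_of_nonneg (Real.log_nonneg hx1), Real.norm_of_nonneg (by positivity), one_mul] at hx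
    have h2 : (x ^ (1 / 2 : ℝ)) ^ 2 = x := by
      rw [← Real.rpow_natCast, ← Real.rpow_mul (by linarith)]; norm_num
    calc Real.log x ^ 2 ≤ (x ^ (1 / 2 : ℝ)) ^ 2 := pow_le_pow_left₀ (Real.log_nonneg hx1) hx 2
      _ = x := h2
  have ev2 : ∀ᶠ x : ℝ in atTop, (u0 : ℝ) + 2 ≤ x ^ (1 / 4 : ℝ) :=
    (tendsto_rpow_atTop (by positivity)).eventually_ge_atTop _
  obtain ⟨X1, hX1⟩ := eventually_atTop.1 (ev1.and ev2)
  refine ⟨1 + 32 * (C1 * C2), by nlinarith, ⌈X1⌉₊ + 100, ?_⟩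
  intro N A hN hA1 hA2 s hs
  have hNr : (100 : ℝ) ≤ N := by exact_mod_cast (by omega : 100 ≤ N)
  have hX1N : X1 ≤ N := (Nat.le_ceil _).trans (by exact_mod_cast (by omega : ⌈X1⌉₊ ≤ N))
  obtain ⟨g1, g2⟩ := hX1 N hX1N
  have hL0 : 0 < Real.log N := Real.log_pos (by linarith)
  have hAu : (u0 : ℝ) + 2 ≤ A := g2.trans hA1
  have hAu' : u0 ≤ A := by
    have : (u0 : ℝ) ≤ A := by linarith
    exact_mod_cast this
  have hA0 : (1 : ℝ) < A := by
    have : (0 : ℝ) ≤ u0 := Nat.cast_nonneg _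
    linarith
  have hlogA : Real.log N / 4 ≤ Real.log A := by
    have h1 : Real.log ((N : ℝ) ^ (1 / 4 : ℝ)) ≤ Real.log A := Real.log_le_log (by positivity) hA1
    rw [Real.log_rpow (by linarith)] at h1
    linarith
  -- expansion
  have hexp : ∑ a ∈ Icc 1 A, (cnt s a (N / 8) N : ℝ) ^ 2 =
      ∑ q ∈ (Ioc (N / 8) N) ×ˢ (Ioc (N / 8) N), (#((Icc 1 A).filter (fun a => (vv s a q.1).Prime ∧ (vv s a q.2).Prime)) : ℝ) := by
    have h1 : ∀ a ∈ Icc 1 A, (cnt s a (N / 8) N : ℝ) ^ 2 =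
        ∑ q ∈ (Ioc (N / 8) N) ×ˢ (Ioc (N / 8) N), (if (vv s a q.1).Prime ∧ (vv s a q.2).Prime then (1 : ℝ) else 0) := by
      intro a _
      unfold cnt
      rw [sum_boole, sq, ← Nat.cast_mul, ← card_product]
      congr 2
      ext q
      simp only [mem_product, mem_filter]
      tauto
    rw [sum_congr rfl h1, sum_comm]
    apply sum_congr rfl
    intro q _
    rw [sum_boole]
  rw [hexp]
  -- each pair
  have hoff : ∀ n m : ℕ, n ∈ Ioc (N / 8) N → m ∈ Ioc (N / 8) N → n < m →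
      (#((Icc 1 A).filter (fun a => (vv s a n).Prime ∧ (vv s a m).Prime)) : ℝ) ≤
        16 * C1 * (A / Real.log N ^ 2) * sg (m ^ 2 - n ^ 2) ^ 2 := by
    intro n m hn hm hnm
    rw [mem_Ioc] at hn hm
    have h1 : A < n ^ 2 := lt_of_lt_of_le hA2 (Nat.pow_le_pow_left (by omega) 2)
    obtain ⟨b, hb⟩ := pair_count hs hnm h1
    have h5 : 0 < m ^ 2 - n ^ 2 := Nat.sub_pos_of_lt (Nat.pow_lt_pow_left hnm (by norm_num))
    have h6 := hps (m ^ 2 - n ^ 2) b A h5 hAu'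
    have h7 : (#((Icc 1 A).filter (fun a => (vv s a n).Prime ∧ (vv s a m).Prime)) : ℝ) ≤
        C1 * sg (m ^ 2 - n ^ 2) ^ 2 * A / Real.log A ^ 2 := le_trans (by exact_mod_cast hb) h6
    refine h7.trans ?_
    have h8 : (Real.log N / 4) ^ 2 ≤ Real.log A ^ 2 := pow_le_pow_left₀ (by positivity) hlogA 2
    have h9 : 0 ≤ C1 * sg (m ^ 2 - n ^ 2) ^ 2 * A := by positivity
    calc C1 * sg (m ^ 2 - n ^ 2) ^ 2 * A / Real.log A ^ 2 ≤ C1 * sg (m ^ 2 - n ^ 2) ^ 2 * A / (Real.log N / 4) ^ 2 :=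
          div_le_div_of_nonneg_left h9 (by positivity) h8
      _ = _ := by field_simp; ring
  set T := (Ioc (N / 8) N) ×ˢ (Ioc (N / 8) N) with hT
  set f : ℕ × ℕ → ℝ := fun q => (#((Icc 1 A).filter (fun a => (vv s a q.1).Prime ∧ (vv s a q.2).Prime)) : ℝ) with hf
  have hsplit : ∑ q ∈ T, f q = ∑ q ∈ T.filter (fun q => q.1 < q.2), f q + ∑ q ∈ T.filter (fun q => q.2 < q.1), f q +
      ∑ q ∈ T.filter (fun q => q.1 = q.2), f q := by
    rw [← sum_filter_add_sum_filter_not T (fun q => q.1 < q.2), add_assoc]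
    congr 1
    rw [← sum_filter_add_sum_filter_not (T.filter (fun q => ¬ q.1 < q.2)) (fun q => q.2 < q.1)]
    congr 1
    · apply sum_congr _ (fun _ _ => rfl)
      ext q
      simp only [mem_filter]
      constructor
      · rintro ⟨⟨h1, h2⟩, h3⟩; exact ⟨h1, h3⟩
      · rintro ⟨h1, h2⟩; exact ⟨⟨h1, by omega⟩, h2⟩
    · apply sum_congr _ (fun _ _ => rfl)
      ext q
      simp only [mem_filter]
      constructor
      · rintro ⟨⟨h1, h2⟩, h3⟩; exact ⟨h1, by omega⟩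
      · rintro ⟨h1, h2⟩; exact ⟨⟨h1, by omega⟩, by omega⟩
  have hIcc : ∀ x, x ∈ Ioc (N / 8) N → x ∈ Icc 1 N := by
    intro x hx
    rw [mem_Ioc] at hx
    rw [mem_Icc]
    omega
  have b1 : ∑ q ∈ T.filter (fun q => q.1 < q.2), f q ≤ 16 * C1 * (A / Real.log N ^ 2) * (C2 * (N : ℝ) ^ 2) := by
    calc _ ≤ ∑ q ∈ T.filter (fun q => q.1 < q.2), 16 * C1 * (A / Real.log N ^ 2) * sg (q.2 ^ 2 - q.1 ^ 2) ^ 2 := by
          apply sum_le_sum
          intro q hq
          rw [mem_filter, hT, mem_product] at hq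
          exact hoff q.1 q.2 hq.1.1 hq.1.2 hq.2
      _ = 16 * C1 * (A / Real.log N ^ 2) * ∑ q ∈ T.filter (fun q => q.1 < q.2), sg (q.2 ^ 2 - q.1 ^ 2) ^ 2 := by rw [mul_sum]
      _ ≤ 16 * C1 * (A / Real.log N ^ 2) * (C2 * (N : ℝ) ^ 2) := by
          apply mul_le_mul_of_nonneg_left _ (by positivity)
          refine le_trans (sum_le_sum_of_subset_of_nonneg ?_ (fun _ _ _ => by positivity)) (hsum N)
          intro q hq
          rw [mem_filter, hT, mem_product] at hq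
          rw [mem_filter, mem_product]
          exact ⟨⟨hIcc _ hq.1.1, hIcc _ hq.1.2⟩, hq.2⟩
  have b2 : ∑ q ∈ T.filter (fun q => q.2 < q.1), f q ≤ 16 * C1 * (A / Real.log N ^ 2) * (C2 * (N : ℝ) ^ 2) := by
    refine le_trans (le_of_eq ?_) b1
    apply sum_nbij' (fun q => (q.2, q.1)) (fun q => (q.2, q.1))
    · intro q hq
      rw [mem_filter, hT, mem_product] at hq ⊢
      exact ⟨⟨hq.1.2, hq.1.1⟩, hq.2⟩
    · intro q hq
      rw [mem_filter, hT, mem_product] at hq ⊢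
      exact ⟨⟨hq.1.2, hq.1.1⟩, hq.2⟩
    · intro q _; rfl
    · intro q _; rfl
    · intro q _
      simp only [hf]
      congr 2
      ext a
      simp only [mem_filter]
      tauto
  have b3 : ∑ q ∈ T.filter (fun q => q.1 = q.2), f q ≤ N * A := by
    calc _ ≤ ∑ q ∈ T.filter (fun q => q.1 = q.2), (A : ℝ) := by
          apply sum_le_sum
          intro q _
          simp only [hf]
          have : #((Icc 1 A).filter (fun a => (vv s a q.1).Prime ∧ (vv s a q.2).Prime)) ≤ A := by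
            refine (card_filter_le _ _).trans ?_
            simp
          exact_mod_cast this
      _ = (#(T.filter (fun q => q.1 = q.2)) : ℝ) * A := by rw [sum_const, nsmul_eq_mul]
      _ ≤ _ := by
          apply mul_le_mul_of_nonneg_right _ (Nat.cast_nonneg _)
          have : #(T.filter (fun q => q.1 = q.2)) ≤ #(Icc 1 N) := by
            apply card_le_card_of_injOn (fun q => q.1)
            · intro q hq
              rw [mem_coe, mem_filter, hT, mem_product] at hq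
              exact hIcc _ hq.1.1
            · rintro ⟨a, b⟩ hq ⟨c, d⟩ hr hqr
              rw [mem_coe, mem_filter] at hq hr
              simp only [Prod.mk.injEq] at hqr hq hr ⊢
              omega
          rw [Nat.card_Icc, Nat.add_sub_cancel] at this
          exact_mod_cast this
  have b4 : (N : ℝ) * A ≤ A * (N / Real.log N) ^ 2 := by
    rw [div_pow]
    have h1 : 1 ≤ (N : ℝ) / Real.log N ^ 2 := by rw [le_div_iff₀ (by positivity)]; linarith
    calc (N : ℝ) * A = A * (N * 1) := by ring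
      _ ≤ A * (N * (N / Real.log N ^ 2)) := by gcongr
      _ = _ := by ring
  have e1 : 16 * C1 * (A / Real.log N ^ 2) * (C2 * (N : ℝ) ^ 2) = 16 * (C1 * C2) * A * (N / Real.log N) ^ 2 := by
    rw [div_pow]; ring
  rw [e1] at b1 b2
  change ∑ q ∈ T, f q ≤ _
  rw [hsplit]
  nlinarith

end Pool.Agent.V5helper51.BH
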