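import Mathlib
import Pool.Agent.N792.T9Q
import Pool.Agent.TH892.SW.S11
import Pool.Agent.V5helper51.BH.Sec

/-! The constants `h_a` are bounded for most `a`. -/

set_option autoImplicit false

namespace Pool.Agent.V5helper51.BH

open Finset Filter Topology

lemma li_low {u v : ℕ} (hu : 2 ≤ u) (huv : u ≤ v) :
    ((v : ℝ) - u) / Real.log v ≤ ∫ t in (u : ℝ)..(v : ℝ), 1 / Real.log t := by
  have hu2 : (2 : ℝ) ≤ u := by exact_mod_cast hu
  have huvr : (u : ℝ) ≤ v := by exact_mod_cast huv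
  have hint : IntervalIntegrable (fun t => 1 / Real.log t) MeasureTheory.volume u v := by
    apply ContinuousOn.intervalIntegrable
    rw [Set.uIcc_of_le huvr]
    apply ContinuousOn.div continuousOn_const
    · apply Real.continuousOn_log.mono
      intro t ht
      simp only [Set.mem_compl_iff, Set.mem_singleton_iff]
      have := ht.1
      linarith
    · intro t ht
      have := ht.1
      exact (Real.log_pos (by linarith)).ne'
  calc ((v : ℝ) - u) / Real.log v = ∫ _t in (u : ℝ)..(v : ℝ), 1 / Real.log v := by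
        rw [intervalIntegral.integral_const, smul_eq_mul, mul_one_div]
    _ ≤ _ := by
        apply intervalIntegral.integral_mono_on huvr intervalIntegrable_const hint
        intro t ht
        have h1 : 0 < Real.log t := Real.log_pos (by linarith [ht.1])
        exact one_div_le_one_div_of_le h1 (Real.log_le_log (by linarith [ht.1]) ht.2)

/-- the product -/
noncomputable def hpr (a : ℤ) (X : ℕ) : ℝ :=
  ∏ w ∈ (range (X + 1)).filter (fun w => Nat.Prime w ∧ w ≠ 2), (1 - (jacobiSym (-a) w : ℝ) / ((w : ℝ) - 1))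

/-- Chebyshev's inequality for the second moment -/
lemma cheb {C X K : ℝ} {A : ℕ} (f : ℕ → ℝ) (hX : 0 < X) (hK : 0 < K) (hf0 : ∀ a, 0 ≤ f a)
    (h : ∑ a ∈ Icc 1 A, f a ^ 2 ≤ C * A * X ^ 2) :
    (#((Icc 1 A).filter (fun a => K * X < f a)) : ℝ) ≤ C * A / K ^ 2 := by
  rw [le_div_iff₀ (by positivity)]
  have h1 : (#((Icc 1 A).filter (fun a => K * X < f a)) : ℝ) * (K * X) ^ 2 ≤ C * A * X ^ 2 := by
    calc _ = ∑ a ∈ (Icc 1 A).filter (fun a => K * X < f a), (K * X) ^ 2 := by rw [sum_const, nsmul_eq_mul]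
      _ ≤ ∑ a ∈ (Icc 1 A).filter (fun a => K * X < f a), f a ^ 2 := by
          apply sum_le_sum
          intro a ha
          rw [mem_filter] at ha
          exact pow_le_pow_left₀ (by positivity) ha.2.le 2
      _ ≤ ∑ a ∈ Icc 1 A, f a ^ 2 :=
          sum_le_sum_of_subset_of_nonneg (filter_subset _ _) (fun _ _ _ => by positivity)
      _ ≤ _ := h
  have h2 : (#((Icc 1 A).filter (fun a => K * X < f a)) : ℝ) * K ^ 2 * X ^ 2 ≤ C * A * X ^ 2 := by
    refine le_trans (le_of_eq ?_) h1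
    ring
  exact le_of_mul_le_mul_right h2 (by positivity)

theorem hup_pos (η : ℝ) (hη : 0 < η) : ∃ K : ℝ, 0 < K ∧ ∃ A0 : ℕ, ∀ A : ℕ, A0 ≤ A →
    ∃ Ex ⊆ Icc 1 A, (#Ex : ℝ) ≤ η * A ∧ ∀ a ∈ Icc 1 A, a ∉ Ex →
      ∃ h : ℝ, 0 < h ∧ h ≤ K ∧ Tendsto (fun X : ℕ => hpr (1 * a) X) atTop (𝓝 h) := by
  classical
  obtain ⟨η1, hη1⟩ : ∃ η1 : ℝ, η1 = min (η / 2) (1 / 16) := ⟨_, rfl⟩
  have hη10 : 0 < η1 := by rw [hη1]; positivity
  have hη12 : η1 ≤ η / 2 := by rw [hη1]; exact min_le_left _ _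
  have hη16 : η1 ≤ 1 / 16 := by rw [hη1]; exact min_le_right _ _
  obtain ⟨C, hC, N1, hsm⟩ := second
  obtain ⟨N2, ht9⟩ := Pool.Agent.N792.t9_int (1 / 10) η1 (by norm_num) hη10
  obtain ⟨N3, hli⟩ := eventually_atTop.1 (Pool.Agent.N792.li_upper2 1 one_pos)
  obtain ⟨K1, hK1⟩ : ∃ K1 : ℝ, K1 = √(2 * C / η) := ⟨_, rfl⟩
  have hK10 : 0 < K1 := by rw [hK1]; positivity
  have hK12 : K1 ^ 2 = 2 * C / η := by rw [hK1]; exact Real.sq_sqrt (by positivity)
  refine ⟨5 * K1, by positivity, N1 + N2 + N3 + 100, ?_⟩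
  intro A hA
  have hAr : (100 : ℝ) ≤ A := by exact_mod_cast (by omega : 100 ≤ A)
  have hL : 0 < Real.log A := Real.log_pos (by linarith)
  have hX0 : 0 < (A : ℝ) / Real.log A := by positivity
  obtain ⟨Ex, hE1, hE2, hE3⟩ := ht9 A (by omega) A (by
    calc (A : ℝ) ^ (7 / 10 + 1 / 10 : ℝ) ≤ (A : ℝ) ^ (1 : ℝ) := Real.rpow_le_rpow_of_exponent_le (by linarith) (by norm_num)
      _ = A := Real.rpow_one _) le_rfl
  have h2 := hsm A A (by omega) (by
    calc (A : ℝ) ^ (1 / 4 : ℝ) ≤ (A : ℝ) ^ (1 : ℝ) := Real.rpow_le_rpow_of_exponent_le (by linarith) (by norm_num)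
      _ = A := Real.rpow_one _) (by
    have h3 : A < 8 * (A / 8 + 1) := by omega
    have h4 : 8 * (A / 8 + 1) ≤ (A / 8 + 1) * (A / 8 + 1) := Nat.mul_le_mul_right _ (by omega)
    rw [sq]
    omega) 1 (Or.inl rfl)
  have h3 := cheb (fun a => (cnt 1 a (A / 8) A : ℝ)) hX0 hK10 (fun a => Nat.cast_nonneg _) h2
  refine ⟨Ex ∪ (Icc 1 A).filter (fun a => K1 * (A / Real.log A) < (cnt 1 a (A / 8) A : ℝ)), ?_, ?_, ?_⟩
  · exact union_subset hE1 (filter_subset _ _)
  · have h4 : (#(Ex ∪ (Icc 1 A).filter (fun a => K1 * (A / Real.log A) < (cnt 1 a (A / 8) A : ℝ))) : ℝ) ≤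
        #Ex + (#((Icc 1 A).filter (fun a => K1 * (A / Real.log A) < (cnt 1 a (A / 8) A : ℝ))) : ℝ) := by
      exact_mod_cast card_union_le _ _
    have h5 : C * A / K1 ^ 2 = η / 2 * A := by rw [hK12]; field_simp
    rw [h5] at h3
    have h6 : η1 * A ≤ η / 2 * A := by gcongr
    linarith
  · intro a ha haE
    rw [mem_union, not_or, mem_filter, not_and] at haE
    obtain ⟨h, hh, hlim, hb⟩ := hE3 a ha haE.1
    have h4 := haE.2 ha
    push Not at h4
    refine ⟨h, hh, ?_, ?_⟩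
    · have hu : 2 ≤ A / 8 := by omega
      have hb1 := hb (A / 8) A hu (Nat.div_le_self _ _) le_rfl
      have hcnt : (#((Ioc (A / 8) A).filter (fun n : ℕ => Nat.Prime ((n : ℤ) ^ 2 + a).natAbs)) : ℝ) = cnt 1 a (A / 8) A := by
        unfold cnt vv
        simp only [one_mul]
      rw [hcnt] at hb1
      have hl1 := li_low hu (Nat.div_le_self A 8)
      have hl2 := hli A (by omega) 2 A le_rfl (by omega) le_rfl
      have hu8 : ((A / 8 : ℕ) : ℝ) ≤ A / 8 := Nat.cast_div_le
      have hl3 : 7 / 8 * (A / Real.log A) ≤ ∫ t in ((A / 8 : ℕ) : ℝ)..(A : ℝ), 1 / Real.log t := by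
        refine le_trans ?_ hl1
        rw [← mul_div_assoc]
        apply div_le_div_of_nonneg_right _ hL.le
        linarith
      have hl4 : ∫ t in (2 : ℝ)..(A : ℝ), 1 / Real.log t ≤ 2 * (A / Real.log A) := by
        push_cast at hl2
        refine hl2.trans ?_
        have : ((A : ℝ) - 2) / Real.log A ≤ A / Real.log A := by
          apply div_le_div_of_nonneg_right _ hL.le
          linarith
        linarith
      obtain ⟨X, hX⟩ : ∃ X : ℝ, X = A / Real.log A := ⟨_, rfl⟩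
      rw [← hX] at hl3 hl4 h4 hX0
      have g1 : 3 / 4 * (1 / 2 * h * (7 / 8 * X)) ≤ 3 / 4 * (1 / 2 * h * ∫ t in ((A / 8 : ℕ) : ℝ)..(A : ℝ), 1 / Real.log t) := by
        gcongr
      have g2 : η1 * (1 / 2 * h * ∫ t in (2 : ℝ)..(A : ℝ), 1 / Real.log t) ≤ 1 / 16 * (1 / 2 * h * (2 * X)) := by
        have hI0 : 0 ≤ ∫ t in (2 : ℝ)..(A : ℝ), 1 / Real.log t := by
          have := li_low (u := 2) (v := A) le_rfl (by omega)
          push_cast at this
          refine le_trans ?_ this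
          apply div_nonneg _ hL.le
          linarith
        gcongr
      have g3 : 1 / 5 * h * X ≤ K1 * X := by nlinarith [mul_pos hh hX0]
      have g4 : 1 / 5 * h ≤ K1 := le_of_mul_le_mul_right g3 hX0
      linarith
    · have : ∀ X : ℕ, hpr (1 * a) X = ∏ w ∈ (range (X + 1)).filter (fun w => Nat.Prime w ∧ w ≠ 2),
          (1 - (jacobiSym (-(a : ℤ)) w : ℝ) / ((w : ℝ) - 1)) := by
        intro X
        unfold hpr
        rw [one_mul]
      simp_rw [this]
      exact hlim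

theorem hup_neg (η : ℝ) (hη : 0 < η) : ∃ K : ℝ, 0 < K ∧ ∃ A0 : ℕ, ∀ A : ℕ, A0 ≤ A →
    ∃ Ex ⊆ Icc 1 A, (#Ex : ℝ) ≤ η * A ∧ ∀ a ∈ Icc 1 A, a ∉ Ex →
      ∃ h : ℝ, 0 < h ∧ h ≤ K ∧ Tendsto (fun X : ℕ => hpr (-1 * a) X) atTop (𝓝 h) := by
  classical
  obtain ⟨C, hC, N1, hsm⟩ := second
  obtain ⟨B, X0, hsw⟩ := Pool.Agent.TH892.SW.both 1 1 (1 / 2) (by norm_num)
  obtain ⟨K1, hK1⟩ : ∃ K1 : ℝ, K1 = √(2 * C / η) := ⟨_, rfl⟩
  have hK10 : 0 < K1 := by rw [hK1]; positivity
  have hK12 : K1 ^ 2 = 2 * C / η := by rw [hK1]; exact Real.sq_sqrt (by positivity)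
  have ev1 : ∀ᶠ x : ℝ in atTop, max 32 (2 / η) ≤ Real.log x := Real.tendsto_log_atTop.eventually_ge_atTop _
  have ev2 : ∀ᶠ x : ℝ in atTop, Real.log x ^ B ≤ √x := by
    have h1 := (isLittleO_log_rpow_rpow_atTop (B : ℝ) (show (0 : ℝ) < 1 / 2 by norm_num)).bound (show (0 : ℝ) < 1 by norm_num)
    filter_upwards [h1, eventually_ge_atTop 1] with x hx hx1
    rw [Real.norm_of_nonneg (Real.rpow_nonneg (Real.log_nonneg hx1) _), Real.norm_of_nonneg (by positivity), one_mul,
      Real.rpow_natCast, ← Real.sqrt_eq_rpow] at hx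
    exact hx
  obtain ⟨X1, hX1⟩ := eventually_atTop.1 (ev1.and ev2)
  refine ⟨20 * K1, by positivity, X0 + N1 ^ 2 + ⌈X1⌉₊ + 2000, ?_⟩
  intro A hA
  have hA2000 : 2000 ≤ A := by omega
  have hAr : (2000 : ℝ) ≤ A := by exact_mod_cast hA2000
  have hX1A : X1 ≤ A := (Nat.le_ceil _).trans (by exact_mod_cast (by omega : ⌈X1⌉₊ ≤ A))
  obtain ⟨g1, g2⟩ := hX1 A hX1A
  have hL32 : 32 ≤ Real.log A := (le_max_left _ _).trans g1
  have hLη : 2 / η ≤ Real.log A := (le_max_right _ _).trans g1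
  have hL : 0 < Real.log A := by linarith
  obtain ⟨r, hr⟩ : ∃ r : ℝ, r = √(A : ℝ) := ⟨_, rfl⟩
  have hrr : r * r = A := by rw [hr]; exact Real.mul_self_sqrt (by linarith)
  have hr0 : 0 ≤ r := by rw [hr]; exact Real.sqrt_nonneg _
  have hr40 : 40 ≤ r := by nlinarith
  obtain ⟨q, hq⟩ : ∃ q : ℕ, q = Nat.sqrt A + 1 := ⟨_, rfl⟩
  have hq1 : A < q ^ 2 := by rw [hq]; exact Nat.lt_succ_sqrt' A
  have hq2 : (q : ℝ) ≤ r + 1 := by
    have h1 : (Nat.sqrt A : ℝ) ≤ r := by rw [hr]; exact Real.nat_sqrt_le_real_sqrt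
    rw [hq]; push_cast; linarith
  have hq3 : r < q := by
    have h1 : (A : ℝ) < (q : ℝ) ^ 2 := by exact_mod_cast hq1
    nlinarith [Nat.cast_nonneg (α := ℝ) q]
  obtain ⟨N', hN'⟩ : ∃ N' : ℕ, N' = 16 * q := ⟨_, rfl⟩
  have hN'8 : N' / 8 = 2 * q := by omega
  have hN'r : (N' : ℝ) = 16 * q := by rw [hN']; push_cast; ring
  obtain ⟨Bad, hB1, hB2, hB3⟩ := hsw A (by omega)
  have hN1 : N1 ≤ N' := by
    have h1 : N1 ^ 2 < q ^ 2 := by omega
    have h2 : N1 < q := lt_of_pow_lt_pow_left₀ 2 (Nat.zero_le _) h1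
    omega
  have hN'0 : (1 : ℝ) < N' := by rw [hN'r]; linarith
  have hN'A : (N' : ℝ) ≤ A := by rw [hN'r]; nlinarith
  have h2 := hsm N' A hN1 (by
    calc (N' : ℝ) ^ (1 / 4 : ℝ) ≤ (N' : ℝ) ^ (1 : ℝ) := Real.rpow_le_rpow_of_exponent_le hN'0.le (by norm_num)
      _ = N' := Real.rpow_one _
      _ ≤ A := hN'A) (by
    rw [hN'8]
    calc A < q ^ 2 := hq1
      _ ≤ (2 * q + 1) ^ 2 := Nat.pow_le_pow_left (by omega) 2) (-1) (Or.inr rfl)
  have hLN' : 0 < Real.log N' := Real.log_pos hN'0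
  have hX0 : 0 < (N' : ℝ) / Real.log N' := by positivity
  have h3 := cheb (fun a => (cnt (-1) a (N' / 8) N' : ℝ)) hX0 hK10 (fun a => Nat.cast_nonneg _) h2
  refine ⟨Bad ∪ (Icc 1 A).filter (fun a => K1 * (N' / Real.log N') < (cnt (-1) a (N' / 8) N' : ℝ)), ?_, ?_, ?_⟩
  · exact union_subset hB1 (filter_subset _ _)
  · have h4 : (#(Bad ∪ (Icc 1 A).filter (fun a => K1 * (N' / Real.log N') < (cnt (-1) a (N' / 8) N' : ℝ))) : ℝ) ≤
        #Bad + (#((Icc 1 A).filter (fun a => K1 * (N' / Real.log N') < (cnt (-1) a (N' / 8) N' : ℝ))) : ℝ) := by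
      exact_mod_cast card_union_le _ _
    have h5 : C * A / K1 ^ 2 = η / 2 * A := by rw [hK12]; field_simp
    rw [h5] at h3
    have h6 : (A : ℝ) / Real.log A ^ 1 ≤ η / 2 * A := by
      rw [pow_one, div_le_iff₀ hL]
      have h7 : 1 ≤ η / 2 * Real.log A := by
        rw [div_le_iff₀ hη] at hLη
        linarith
      nlinarith
    linarith
  · intro a ha haE
    rw [mem_union, not_or, mem_filter, not_and] at haE
    obtain ⟨hvn, h, hh, hlim, hwin⟩ := hB3 a ha haE.1
    have h4 := haE.2 ha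
    push Not at h4
    have ha2 := mem_Icc.1 ha
    have har : (a : ℝ) ≤ A := by exact_mod_cast ha2.2
    refine ⟨h, hh, ?_, ?_⟩
    · have hw := (hwin (N' / 8) N' (by omega) (by
        rw [pow_one, ← hr, hN'r]
        nlinarith) (by
        rw [pow_one, hN'8]
        have hsa : √((a : ℕ) : ℝ) ≤ r := by rw [hr]; exact Real.sqrt_le_sqrt har
        have hsa0 : 0 ≤ √((a : ℕ) : ℝ) := Real.sqrt_nonneg _
        have e1 : (((2 * q : ℕ) : ℝ)) = 2 * q := by push_cast; ring
        rw [e1, hN'r, abs_le]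
        have hq0 : (0 : ℝ) ≤ q := Nat.cast_nonneg _
        constructor <;> nlinarith)).1 (by
        rw [hN'8, hN'r]
        push_cast
        refine g2.trans ?_
        rw [← hr]
        linarith)
      have hcnt : (((Ioc (N' / 8) N').filter (fun i => (Pool.Agent.TH892.SW.vn a i).Prime)).card : ℝ) = cnt (-1) a (N' / 8) N' := by
        unfold cnt vv Pool.Agent.TH892.SW.vn
        simp only [neg_mul, one_mul, ← sub_eq_add_neg]
      rw [hcnt] at hw
      have hM : 7 * r / Real.log A ≤ ∑ i ∈ Ioc (N' / 8) N', Pool.Agent.TH892.SW.wt (Pool.Agent.TH892.SW.vn a i) := by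
        have hterm : ∀ i ∈ Ioc (N' / 8) N', 1 / (2 * Real.log A) ≤ Pool.Agent.TH892.SW.wt (Pool.Agent.TH892.SW.vn a i) := by
          intro i hi
          rw [mem_Ioc] at hi
          unfold Pool.Agent.TH892.SW.wt
          have h5 := hvn i
          have h6 : Pool.Agent.TH892.SW.vn a i ≤ A ^ 2 := by
            have h7 : Pool.Agent.TH892.SW.vn a i ≤ i ^ 2 := by
              have hai : a ≤ i ^ 2 := by
                have : q ^ 2 ≤ i ^ 2 := Nat.pow_le_pow_left (by omega) 2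
                omega
              unfold Pool.Agent.TH892.SW.vn
              have : ((i : ℤ) ^ 2 - (a : ℤ)) = ((i ^ 2 - a : ℕ) : ℤ) := by rw [Nat.cast_sub hai]; push_cast; ring
              rw [this, Int.natAbs_natCast]
              exact Nat.sub_le _ _
            have h8 : i ≤ A := by
              have : N' ≤ A := by exact_mod_cast hN'A
              omega
            exact h7.trans (Nat.pow_le_pow_left h8 2)
          have h7 : Real.log (Pool.Agent.TH892.SW.vn a i : ℝ) ≤ 2 * Real.log A := by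
            have h8 : (2 : ℝ) * Real.log A = Real.log ((A : ℝ) ^ 2) := by rw [Real.log_pow]; norm_num
            rw [h8]
            apply Real.log_le_log
            · have : 0 < Pool.Agent.TH892.SW.vn a i := by omega
              exact_mod_cast this
            · exact_mod_cast h6
          apply one_div_le_one_div_of_le _ h7
          apply Real.log_pos
          have : 1 < Pool.Agent.TH892.SW.vn a i := by omega
          exact_mod_cast this
        calc 7 * r / Real.log A ≤ (14 * q) * (1 / (2 * Real.log A)) := by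
              rw [mul_one_div, div_le_div_iff₀ hL (by positivity)]
              nlinarith
          _ = ∑ i ∈ Ioc (N' / 8) N', 1 / (2 * Real.log A) := by
              rw [sum_const, Nat.card_Ioc, nsmul_eq_mul]
              have : N' - N' / 8 = 14 * q := by omega
              rw [this]
              push_cast
              ring
          _ ≤ _ := sum_le_sum hterm
      obtain ⟨M, hMd⟩ : ∃ M : ℝ, M = ∑ i ∈ Ioc (N' / 8) N', Pool.Agent.TH892.SW.wt (Pool.Agent.TH892.SW.vn a i) := ⟨_, rfl⟩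
      rw [← hMd] at hw hM
      rw [abs_le] at hw
      have hcu : (cnt (-1) a (N' / 8) N' : ℝ) ≤ 66 * K1 * (r / Real.log A) := by
        refine h4.trans ?_
        have h5 : Real.log A / 2 ≤ Real.log N' := by
          have h6 : Real.log A ≤ 2 * Real.log N' := by
            have h8 : (2 : ℝ) * Real.log N' = Real.log ((N' : ℝ) ^ 2) := by rw [Real.log_pow]; norm_num
            rw [h8]
            apply Real.log_le_log (by linarith)
            rw [hN'r]
            nlinarith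
          linarith
        have h6 : (N' : ℝ) / Real.log N' ≤ (33 * r) / (Real.log A / 2) / 2 * 2 := by
          have : (N' : ℝ) ≤ 33 * r := by rw [hN'r]; linarith
          calc (N' : ℝ) / Real.log N' ≤ (33 * r) / Real.log N' := div_le_div_of_nonneg_right this hLN'.le
            _ ≤ (33 * r) / (Real.log A / 2) := div_le_div_of_nonneg_left (by positivity) (by positivity) h5
            _ = _ := by ring
        calc K1 * (N' / Real.log N') ≤ K1 * ((33 * r) / (Real.log A / 2) / 2 * 2) := mul_le_mul_of_nonneg_left h6 hK10.le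
          _ = 66 * K1 * (r / Real.log A) := by field_simp; norm_num
      have h5 : 1 / 2 * h * (7 * (r / Real.log A)) ≤ 66 * K1 * (r / Real.log A) := by
        have h6 : 1 / 2 * h * (7 * r / Real.log A) ≤ 1 / 2 * h * M := by gcongr
        have h7 : 1 / 2 * h * (7 * (r / Real.log A)) = 1 / 2 * h * (7 * r / Real.log A) := by ring
        rw [h7]
        linarith [hw.1]
      have hrL : 0 < r / Real.log A := by positivity
      have h6 : 7 / 2 * h * (r / Real.log A) ≤ 66 * K1 * (r / Real.log A) := by linarith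
      have h7 : 7 / 2 * h ≤ 66 * K1 := le_of_mul_le_mul_right h6 hrL
      linarith
    · have e1 : ∀ X : ℕ, hpr (-1 * a) X = Pool.Agent.TH892.SW.HP a X := by
        intro X
        unfold hpr Pool.Agent.TH892.SW.HP
        simp only [neg_mul, one_mul, neg_neg]
      simp_rw [e1]
      exact hlim

end Pool.Agent.V5helper51.BH
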