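import Mathlib
import Pool.Agent.N792.QA

/-! The spacing of the numbers `h √m`, `H ≤ h < 2 H`, `M < m ≤ 2 M`. -/

set_option autoImplicit false

namespace Pool.Agent.V5helper51.BH

open Finset
open Pool.Agent.N792.QA (card_class_le card_class_le_nat fiber_le SK NN)

/-- the number of pairs of variables for one pair of frequencies -/
theorem NN_le1 {H M T h h1 : ℕ} (hH0 : 0 < H) (hh : H ≤ h) (hh1 : H ≤ h1) :
    (#(NN 1 M 0 T h h1) : ℝ) ≤
      (2 * (T : ℝ) / (Nat.gcd h h1 : ℝ) ^ 2 + 1) *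
        (M * (Nat.gcd h h1 : ℝ) ^ 2 / (H : ℝ) ^ 2 + 1) := by
  have hh0 : 0 < h := by omega
  have hh10 : 0 < h1 := by omega
  set g := Nat.gcd h h1 with hg
  have hg0 : 0 < g := Nat.gcd_pos_of_pos_left _ hh0
  set A := NN 1 M 0 T h h1 with hA
  set f : ℕ × ℕ → ℤ := fun v => (h : ℤ) ^ 2 * (v.1 : ℤ) - (h1 : ℤ) ^ 2 * (v.2 : ℤ) with hf
  have hsub : A ⊆ SK 1 M 0 ×ˢ SK 1 M 0 := filter_subset _ _
  have hval : (#(A.image f) : ℝ) ≤ 2 * (T : ℝ) / (g : ℝ) ^ 2 + 1 := by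
    have := card_class_le (A.image f) (g ^ 2) (by positivity) (2 * (T : ℝ))
      (by positivity) (by
        intro x hx y hy
        rw [mem_image] at hx hy
        obtain ⟨v, hv, rfl⟩ := hx
        obtain ⟨w, hw, rfl⟩ := hy
        constructor
        · obtain ⟨a', ha'⟩ := Nat.gcd_dvd_left h h1
          obtain ⟨b', hb'⟩ := Nat.gcd_dvd_right h h1
          rw [← hg] at ha' hb'
          refine ⟨(a' : ℤ) ^ 2 * ((v.1 : ℤ) - w.1) - (b' : ℤ) ^ 2 * ((v.2 : ℤ) - w.2), ?_⟩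
          have e1 : f v - f w = (h : ℤ) ^ 2 * ((v.1 : ℤ) - w.1) - (h1 : ℤ) ^ 2 * ((v.2 : ℤ) - w.2) := by
            simp only [hf]; ring
          rw [e1, ha', hb']
          push_cast
          ring
        · have h1' := (mem_filter.1 hv).2
          have h2' := (mem_filter.1 hw).2
          rw [abs_le] at h1' h2'
          have h3 : f v - f w ≤ 2 * (T : ℤ) := by
            simp only [hf]
            linarith [h1'.2, h2'.1]
          have h4 : ((f v - f w : ℤ) : ℝ) ≤ ((2 * (T : ℤ) : ℤ) : ℝ) := by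
            exact_mod_cast h3
          refine h4.trans (le_of_eq ?_)
          push_cast
          ring)
    refine this.trans (le_of_eq ?_)
    push_cast
    ring
  have hfib : ∀ D ∈ A.image f, (#(A.filter (fun v => f v = D)) : ℝ) ≤
      M * (g : ℝ) ^ 2 / (H : ℝ) ^ 2 + 1 := by
    intro D _
    have h1' := fiber_le (q := 1) (K := M) (r := 0) (h := h) (h1 := h1) (by norm_num) hh10 hh0 D
      (A.filter (fun v => f v = D)) ((filter_subset _ _).trans hsub)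
      (fun v hv => (mem_filter.1 hv).2)
    refine h1'.trans ?_
    have h2' : (M : ℝ) / ((1 * (h1 / Nat.gcd h h1) ^ 2 : ℕ) : ℝ) ≤
        M * (g : ℝ) ^ 2 / (H : ℝ) ^ 2 := by
      rw [← hg]
      have e1 : ((h1 / g : ℕ) : ℝ) = (h1 : ℝ) / g := by
        rw [Nat.cast_div (Nat.gcd_dvd_right h h1) (by positivity)]
      push_cast
      rw [e1]
      have hh1r : (0 : ℝ) < h1 := by exact_mod_cast hh10
      have hgr : (0 : ℝ) < g := by exact_mod_cast hg0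
      have hHr : (0 : ℝ) < H := by exact_mod_cast hH0
      have e2 : (M : ℝ) / (1 * ((h1 : ℝ) / g) ^ 2) = M * (g : ℝ) ^ 2 / ((h1 : ℝ) ^ 2) := by
        field_simp
      rw [e2]
      apply div_le_div_of_nonneg_left (by positivity) (by positivity)
      have : (H : ℝ) ≤ h1 := by exact_mod_cast hh1
      gcongr
    linarith
  have hsum : (#A : ℝ) = ∑ D ∈ A.image f, (#(A.filter (fun v => f v = D)) : ℝ) := by
    exact_mod_cast Finset.card_eq_sum_card_image f A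
  rw [hsum]
  refine (sum_le_sum hfib).trans ?_
  rw [sum_const, nsmul_eq_mul]
  exact mul_le_mul_of_nonneg_right hval (by positivity)

/-- the multiples of `d` -/
lemma mult_card {H d : ℕ} (hd : 1 ≤ d) (hd2 : d ≤ 2 * H) :
    (#((Ico H (2 * H)).filter (fun h => d ∣ h)) : ℝ) ≤ 3 * H / d := by
  have hd0 : (0 : ℝ) < d := by exact_mod_cast hd
  have h := card_class_le_nat ((Ico H (2 * H)).filter (fun h => d ∣ h)) d hd H (by positivity) (by
    intro x hx y hy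
    rw [mem_filter, mem_Ico] at hx hy
    refine ⟨?_, ?_⟩
    · exact dvd_sub (by exact_mod_cast hx.2) (by exact_mod_cast hy.2)
    · have h1 : (x : ℝ) ≤ 2 * H := by exact_mod_cast hx.1.2.le
      have h2 : (H : ℝ) ≤ y := by exact_mod_cast hy.1.1
      linarith)
  have h2 : (d : ℝ) ≤ 2 * H := by exact_mod_cast hd2
  have h3 : (1 : ℝ) ≤ 2 * H / d := by rw [le_div_iff₀ hd0]; linarith
  have h4 : 3 * (H : ℝ) / d = H / d + 2 * H / d := by ring
  rw [h4]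
  linarith

lemma gcd_sq_sum (H : ℕ) (hH : 1 ≤ H) :
    ∑ h ∈ Ico H (2 * H), ∑ h1 ∈ Ico H (2 * H), ((Nat.gcd h h1 : ℕ) : ℝ) ^ 2 ≤ 18 * (H : ℝ) ^ 3 := by
  have h1 : ∀ h ∈ Ico H (2 * H), ∀ h1 ∈ Ico H (2 * H), ((Nat.gcd h h1 : ℕ) : ℝ) ^ 2 ≤
      ∑ d ∈ Icc 1 (2 * H), (d : ℝ) ^ 2 * ((if d ∣ h then (1 : ℝ) else 0) * (if d ∣ h1 then (1 : ℝ) else 0)) := by
    intro h hh h1 hh1
    rw [mem_Ico] at hh hh1
    have hg : Nat.gcd h h1 ∈ Icc 1 (2 * H) := by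
      rw [mem_Icc]
      refine ⟨Nat.gcd_pos_of_pos_left _ (by omega), ?_⟩
      exact (Nat.gcd_le_left _ (by omega)).trans (by omega)
    refine le_trans (le_of_eq ?_) (single_le_sum (f := fun d : ℕ => (d : ℝ) ^ 2 *
      ((if d ∣ h then (1 : ℝ) else 0) * (if d ∣ h1 then (1 : ℝ) else 0))) ?_ hg)
    · rw [if_pos (Nat.gcd_dvd_left _ _), if_pos (Nat.gcd_dvd_right _ _)]
      ring
    · intro d _
      positivity
  calc ∑ h ∈ Ico H (2 * H), ∑ h1 ∈ Ico H (2 * H), ((Nat.gcd h h1 : ℕ) : ℝ) ^ 2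
      ≤ ∑ h ∈ Ico H (2 * H), ∑ h1 ∈ Ico H (2 * H), ∑ d ∈ Icc 1 (2 * H), (d : ℝ) ^ 2 *
        ((if d ∣ h then (1 : ℝ) else 0) * (if d ∣ h1 then (1 : ℝ) else 0)) :=
        sum_le_sum fun h hh => sum_le_sum fun h1' hh1 => h1 h hh h1' hh1
    _ = ∑ d ∈ Icc 1 (2 * H), (d : ℝ) ^ 2 * (#((Ico H (2 * H)).filter (fun h => d ∣ h)) : ℝ) ^ 2 := by
        have : ∀ h ∈ Ico H (2 * H), ∑ h1 ∈ Ico H (2 * H), ∑ d ∈ Icc 1 (2 * H), (d : ℝ) ^ 2 *
            ((if d ∣ h then (1 : ℝ) else 0) * (if d ∣ h1 then (1 : ℝ) else 0)) =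
            ∑ d ∈ Icc 1 (2 * H), ∑ h1 ∈ Ico H (2 * H), (d : ℝ) ^ 2 *
            ((if d ∣ h then (1 : ℝ) else 0) * (if d ∣ h1 then (1 : ℝ) else 0)) := fun h _ => sum_comm
        rw [sum_congr rfl this, sum_comm]
        apply sum_congr rfl
        intro d _
        simp_rw [← mul_sum]
        rw [← sum_mul, sum_boole]
        ring
    _ ≤ ∑ d ∈ Icc 1 (2 * H), 9 * (H : ℝ) ^ 2 := by
        apply sum_le_sum
        intro d hd
        rw [mem_Icc] at hd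
        have hd0 : (0 : ℝ) < d := by exact_mod_cast hd.1
        have h2 := mult_card (H := H) hd.1 hd.2
        calc (d : ℝ) ^ 2 * (#((Ico H (2 * H)).filter (fun h => d ∣ h)) : ℝ) ^ 2
            ≤ (d : ℝ) ^ 2 * (3 * H / d) ^ 2 := by gcongr
          _ = 9 * (H : ℝ) ^ 2 := by field_simp; ring
    _ = 18 * (H : ℝ) ^ 3 := by
        rw [sum_const, Nat.card_Icc, nsmul_eq_mul]
        push_cast
        ring

/-- the number of the pairs of pairs -/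
theorem count (H M T : ℕ) (hH : 1 ≤ H) :
    (#(((Ico H (2 * H) ×ˢ Ioc M (2 * M)) ×ˢ (Ico H (2 * H) ×ˢ Ioc M (2 * M))).filter
      (fun v : (ℕ × ℕ) × (ℕ × ℕ) =>
        |(v.1.1 : ℤ) ^ 2 * (v.1.2 : ℤ) - (v.2.1 : ℤ) ^ 2 * (v.2.2 : ℤ)| ≤ (T : ℤ))) : ℝ) ≤
      2 * T * M + 2 * T * (H : ℝ) ^ 2 + 18 * H * M + (H : ℝ) ^ 2 := by
  classical
  have hH0 : (0 : ℝ) < H := by exact_mod_cast hH
  set S := (((Ico H (2 * H) ×ˢ Ioc M (2 * M)) ×ˢ (Ico H (2 * H) ×ˢ Ioc M (2 * M))).filter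
      (fun v : (ℕ × ℕ) × (ℕ × ℕ) =>
        |(v.1.1 : ℤ) ^ 2 * (v.1.2 : ℤ) - (v.2.1 : ℤ) ^ 2 * (v.2.2 : ℤ)| ≤ (T : ℤ))) with hS
  have hmaps : ∀ v ∈ S, (v.1.1, v.2.1) ∈ Ico H (2 * H) ×ˢ Ico H (2 * H) := by
    intro v hv
    rw [hS, mem_filter, mem_product, mem_product, mem_product] at hv
    rw [mem_product]
    exact ⟨hv.1.1.1, hv.1.2.1⟩
  have h1 : (#S : ℝ) ≤ ∑ p ∈ Ico H (2 * H) ×ˢ Ico H (2 * H), (#(NN 1 M 0 T p.1 p.2) : ℝ) := by
    rw [card_eq_sum_card_fiberwise hmaps]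
    push_cast
    apply sum_le_sum
    intro p _
    have : #(S.filter (fun v => (v.1.1, v.2.1) = p)) ≤ #(NN 1 M 0 T p.1 p.2) := by
      apply card_le_card_of_injOn (fun v => (v.1.2, v.2.2))
      · intro v hv
        rw [mem_coe, mem_filter, hS, mem_filter, mem_product, mem_product, mem_product] at hv
        obtain ⟨⟨⟨⟨_, h2⟩, ⟨_, h4⟩⟩, h5⟩, h6⟩ := hv
        rw [mem_coe]
        unfold NN SK
        rw [mem_filter, mem_product, mem_filter, mem_filter]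
        subst h6
        exact ⟨⟨⟨h2, Nat.modEq_one⟩, ⟨h4, Nat.modEq_one⟩⟩, h5⟩
      · rintro ⟨⟨a, b⟩, c, d⟩ hv ⟨⟨a', b'⟩, c', d'⟩ hw hvw
        rw [mem_coe, mem_filter] at hv hw
        have e3 := hv.2.trans hw.2.symm
        simp only [Prod.mk.injEq] at hvw e3
        obtain ⟨h7, h8⟩ := hvw
        obtain ⟨h9, h10⟩ := e3
        rw [h7, h8, h9, h10]
    exact_mod_cast this
  refine h1.trans ?_
  rw [sum_product]
  have h2 : ∀ h ∈ Ico H (2 * H), ∀ h1 ∈ Ico H (2 * H), (#(NN 1 M 0 T h h1) : ℝ) ≤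
      2 * T * M / (H : ℝ) ^ 2 + 2 * T + M / (H : ℝ) ^ 2 * ((Nat.gcd h h1 : ℕ) : ℝ) ^ 2 + 1 := by
    intro h hh h1 hh1
    rw [mem_Ico] at hh hh1
    refine (NN_le1 (M := M) (T := T) hH hh.1 hh1.1).trans ?_
    have hg : (1 : ℝ) ≤ (Nat.gcd h h1 : ℝ) := by
      exact_mod_cast Nat.gcd_pos_of_pos_left _ (by omega : 0 < h)
    set g : ℝ := (Nat.gcd h h1 : ℝ) with hgdef
    have hg0 : (0 : ℝ) < g := by linarith
    have e1 : (2 * (T : ℝ) / g ^ 2 + 1) * (M * g ^ 2 / (H : ℝ) ^ 2 + 1) =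
        2 * T * M / (H : ℝ) ^ 2 + 2 * T / g ^ 2 + M / (H : ℝ) ^ 2 * g ^ 2 + 1 := by
      field_simp
      ring
    rw [e1]
    have e2 : 2 * (T : ℝ) / g ^ 2 ≤ 2 * T := by
      rw [div_le_iff₀ (by positivity)]
      have : (1 : ℝ) ≤ g ^ 2 := one_le_pow₀ hg
      nlinarith [Nat.cast_nonneg (α := ℝ) T]
    linarith
  refine (sum_le_sum fun h hh => sum_le_sum fun h1 hh1 => h2 h hh h1 hh1).trans ?_
  simp_rw [sum_add_distrib, ← mul_sum]
  have hc : #(Ico H (2 * H)) = H := by rw [Nat.card_Ico]; omega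
  simp only [sum_const, hc, nsmul_eq_mul]
  have h3 := gcd_sq_sum H hH
  have h4 : (M : ℝ) / (H : ℝ) ^ 2 * ∑ h ∈ Ico H (2 * H), ∑ h1 ∈ Ico H (2 * H), ((Nat.gcd h h1 : ℕ) : ℝ) ^ 2 ≤
      (M : ℝ) / (H : ℝ) ^ 2 * (18 * (H : ℝ) ^ 3) := mul_le_mul_of_nonneg_left h3 (by positivity)
  have h5 : (M : ℝ) / (H : ℝ) ^ 2 * (18 * (H : ℝ) ^ 3) = 18 * H * M := by field_simp
  rw [h5] at h4
  have h6 : (H : ℝ) * ((H : ℝ) * (2 * T * M / (H : ℝ) ^ 2)) = 2 * T * M := by field_simp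
  rw [h6]
  linarith

end Pool.Agent.V5helper51.BH
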