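import Mathlib
import Pool.Agent.N792.QB
import Pool.Agent.V5helper51.BH.Cnt

/-! Bilinear sums over a box and over a range of frequencies by the double large sieve. -/

set_option autoImplicit false

namespace Pool.Agent.V5helper51.BH

open Finset
open Pool.Agent.H469R2.NK (e norm_e e_add e_zero)

/-- bilinear sums over a box, the first variable being the shorter one -/
theorem box {H M K : ℕ} (hH : 1 ≤ H) (hM : 1 ≤ M) (hMK : M ≤ K) (a : ℕ × ℕ → ℂ) (b : ℕ → ℂ) (A B : ℝ)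
    (hA0 : 0 ≤ A) (hB0 : 0 ≤ B) (hA : ∀ r ∈ Ico H (2 * H) ×ˢ Ioc M (2 * M), ‖a r‖ ≤ A)
    (hB : ∀ k ∈ Ioc K (2 * K), ‖b k‖ ≤ B) (R : ℝ) (hR : R = √((M : ℝ) * K)) :
    ‖∑ r ∈ Ico H (2 * H) ×ˢ Ioc M (2 * M), ∑ k ∈ Ioc K (2 * K), a r * b k *
      e ((r.1 : ℝ) * √(r.2 : ℝ) * √(k : ℝ))‖ ^ 2 ≤
      9600 * (A * B) ^ 2 * ((20 * H * R ^ 2 + 2 * (H : ℝ) ^ 3 * R + (H : ℝ) ^ 2 * K) * (H * R + K)) := by
  have hH0 : (1 : ℝ) ≤ H := by exact_mod_cast hH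
  have hM0 : (1 : ℝ) ≤ M := by exact_mod_cast hM
  have hMKr : (M : ℝ) ≤ K := by exact_mod_cast hMK
  have hK1 : (1 : ℝ) ≤ K := hM0.trans hMKr
  have hK0 : (0 : ℝ) < K := by linarith
  obtain ⟨k, hk⟩ : ∃ k : ℝ, k = √(K : ℝ) := ⟨_, rfl⟩
  obtain ⟨w, hw⟩ : ∃ w : ℝ, w = √(2 : ℝ) := ⟨_, rfl⟩
  obtain ⟨m, hm⟩ : ∃ m : ℝ, m = √(M : ℝ) := ⟨_, rfl⟩
  have hk0 : 0 < k := by rw [hk]; exact Real.sqrt_pos.2 hK0
  have hm0 : 0 < m := by rw [hm]; exact Real.sqrt_pos.2 (by linarith)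
  have hw0 : 0 < w := by rw [hw]; positivity
  have hkk : k * k = K := by rw [hk]; exact Real.mul_self_sqrt hK0.le
  have hmm : m * m = M := by rw [hm]; exact Real.mul_self_sqrt (by linarith)
  have hww : w * w = 2 := by rw [hw]; exact Real.mul_self_sqrt (by norm_num)
  have hRe : R = m * k := by rw [hR, hm, hk, Real.sqrt_mul (by linarith)]
  have hmk : m ≤ k := by rw [hm, hk]; exact Real.sqrt_le_sqrt hMKr
  have hm1 : 1 ≤ m := by rw [hm]; exact Real.one_le_sqrt.2 hM0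
  have hR1 : 1 ≤ R := by rw [hRe]; nlinarith
  obtain ⟨Y, hY⟩ : ∃ Y : ℝ, Y = 1 * (w * k) := ⟨_, rfl⟩
  have hY0 : 0 < Y := by rw [hY]; positivity
  obtain ⟨J', hJ'⟩ : ∃ J' : ℕ, J' = ⌊16 * (H * R)⌋₊ + 1 := ⟨_, rfl⟩
  have hJ'1 : 1 ≤ J' := by omega
  have hJ'lt : 16 * (H * R) < J' := by rw [hJ']; push_cast; exact Nat.lt_floor_add_one _
  have hJ'le : (J' : ℝ) ≤ 17 * (H * R) := by
    rw [hJ']; push_cast
    have h1 := Nat.floor_le (show 0 ≤ 16 * ((H : ℝ) * R) by positivity)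
    have h2 : 1 ≤ (H : ℝ) * R := by nlinarith
    linarith
  have hsleM : ∀ s : ℕ, s ≤ 2 * M → √(s : ℝ) ≤ w * m := by
    intro s hs
    rw [hw, hm, ← Real.sqrt_mul (by norm_num)]
    apply Real.sqrt_le_sqrt
    exact_mod_cast hs
  have hsle : ∀ s : ℕ, s ≤ 2 * K → √(s : ℝ) ≤ w * k := by
    intro s hs
    rw [hw, hk, ← Real.sqrt_mul (by norm_num)]
    apply Real.sqrt_le_sqrt
    exact_mod_cast hs
  have hx : ∀ r ∈ Ico H (2 * H) ×ˢ Ioc M (2 * M), 0 ≤ (r.1 : ℝ) * √(r.2 : ℝ) ∧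
      (r.1 : ℝ) * √(r.2 : ℝ) * (4 * Y) < J' := by
    intro r hr
    rw [mem_product, mem_Ico, mem_Ioc] at hr
    obtain ⟨⟨h1, h2⟩, h3, h4⟩ := hr
    refine ⟨by positivity, ?_⟩
    have h5 : (r.1 : ℝ) ≤ 2 * H := by exact_mod_cast h2.le
    calc (r.1 : ℝ) * √(r.2 : ℝ) * (4 * Y) ≤ (2 * H) * (w * m) * (4 * Y) := by
          gcongr
          exact hsleM _ h4
      _ = 8 * H * (w * w) * (m * k) := by rw [hY]; ring
      _ = 16 * (H * R) := by rw [hww, ← hRe]; ring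
      _ < J' := hJ'lt
  have hy : ∀ s ∈ Ioc K (2 * K), 0 ≤ 1 * √(s : ℝ) ∧ 1 * √(s : ℝ) ≤ Y := by
    intro s hs
    rw [mem_Ioc] at hs
    refine ⟨by positivity, ?_⟩
    rw [hY]
    gcongr
    exact hsle s hs.2
  obtain ⟨T, hT⟩ : ∃ T : ℕ, T = ⌊H * (m / k)⌋₊ := ⟨_, rfl⟩
  have hTle : (T : ℝ) ≤ H * (m / k) := by rw [hT]; exact Nat.floor_le (by positivity)
  have hmk1 : m / k ≤ 1 := by rw [div_le_one hk0]; exact hmk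
  have hNx : (#(((Ico H (2 * H) ×ˢ Ioc M (2 * M)) ×ˢ (Ico H (2 * H) ×ˢ Ioc M (2 * M))).filter
      (fun v => |(v.1.1 : ℝ) * √(v.1.2 : ℝ) - (v.2.1 : ℝ) * √(v.2.2 : ℝ)| ≤ 1 / (4 * Y))) : ℝ) ≤
      20 * H * M + 2 * (H : ℝ) ^ 3 * (m / k) + (H : ℝ) ^ 2 := by
    have hc := count H M T hH
    have hsub : ((Ico H (2 * H) ×ˢ Ioc M (2 * M)) ×ˢ (Ico H (2 * H) ×ˢ Ioc M (2 * M))).filter
        (fun v => |(v.1.1 : ℝ) * √(v.1.2 : ℝ) - (v.2.1 : ℝ) * √(v.2.2 : ℝ)| ≤ 1 / (4 * Y)) ⊆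
        ((Ico H (2 * H) ×ˢ Ioc M (2 * M)) ×ˢ (Ico H (2 * H) ×ˢ Ioc M (2 * M))).filter
        (fun v : (ℕ × ℕ) × (ℕ × ℕ) =>
          |(v.1.1 : ℤ) ^ 2 * (v.1.2 : ℤ) - (v.2.1 : ℤ) ^ 2 * (v.2.2 : ℤ)| ≤ (T : ℤ)) := by
      intro v hv
      rw [mem_filter] at hv ⊢
      obtain ⟨h1, h3⟩ := hv
      refine ⟨h1, ?_⟩
      rw [mem_product, mem_product, mem_product, mem_Ico, mem_Ico, mem_Ioc, mem_Ioc] at h1
      obtain ⟨⟨⟨_, g2⟩, _, g4⟩, ⟨_, g2'⟩, _, g4'⟩ := h1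
      have g2r : (v.1.1 : ℝ) ≤ 2 * H := by exact_mod_cast g2.le
      have g2r' : (v.2.1 : ℝ) ≤ 2 * H := by exact_mod_cast g2'.le
      have k1 := hsleM _ g4
      have k2 := hsleM _ g4'
      have s1 := Real.mul_self_sqrt (Nat.cast_nonneg (α := ℝ) v.1.2)
      have s2 := Real.mul_self_sqrt (Nat.cast_nonneg (α := ℝ) v.2.2)
      have h5 : ((v.1.1 : ℝ) ^ 2 * (v.1.2 : ℝ) - (v.2.1 : ℝ) ^ 2 * (v.2.2 : ℝ)) =
          ((v.1.1 : ℝ) * √(v.1.2 : ℝ) - (v.2.1 : ℝ) * √(v.2.2 : ℝ)) *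
          ((v.1.1 : ℝ) * √(v.1.2 : ℝ) + (v.2.1 : ℝ) * √(v.2.2 : ℝ)) := by
        calc _ = (v.1.1 : ℝ) ^ 2 * (√(v.1.2 : ℝ) * √(v.1.2 : ℝ)) - (v.2.1 : ℝ) ^ 2 * (√(v.2.2 : ℝ) * √(v.2.2 : ℝ)) := by
              rw [s1, s2]
          _ = _ := by ring
      have h6 : |((v.1.1 : ℝ) ^ 2 * (v.1.2 : ℝ) - (v.2.1 : ℝ) ^ 2 * (v.2.2 : ℝ))| ≤ H * (m / k) := by
        rw [h5, abs_mul, abs_of_nonneg (by positivity : 0 ≤ (v.1.1 : ℝ) * √(v.1.2 : ℝ) + (v.2.1 : ℝ) * √(v.2.2 : ℝ))]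
        calc _ ≤ 1 / (4 * Y) * ((2 * H) * (w * m) + (2 * H) * (w * m)) := by
              gcongr
          _ = H * (m / k) := by
              rw [hY]
              field_simp
              ring
      have h8 : (((v.1.1 : ℤ) ^ 2 * (v.1.2 : ℤ) - (v.2.1 : ℤ) ^ 2 * (v.2.2 : ℤ)).natAbs : ℝ) ≤ H * (m / k) := by
        rw [Nat.cast_natAbs]
        push_cast
        exact h6
      have h9 : ((v.1.1 : ℤ) ^ 2 * (v.1.2 : ℤ) - (v.2.1 : ℤ) ^ 2 * (v.2.2 : ℤ)).natAbs ≤ T := by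
        rw [hT]; exact Nat.le_floor h8
      rw [Int.abs_eq_natAbs]
      exact_mod_cast h9
    have hc2 := (Nat.cast_le (α := ℝ)).2 (card_le_card hsub)
    refine (hc2.trans hc).trans ?_
    have t1 : 2 * (T : ℝ) * M ≤ 2 * H * M := by
      have : (T : ℝ) ≤ H := hTle.trans (by nlinarith)
      nlinarith
    have t2 : 2 * (T : ℝ) * (H : ℝ) ^ 2 ≤ 2 * (H : ℝ) ^ 3 * (m / k) := by
      have : (H : ℝ) ^ 2 * T ≤ (H : ℝ) ^ 2 * (H * (m / k)) := mul_le_mul_of_nonneg_left hTle (by positivity)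
      nlinarith
    linarith
  have hNy := Pool.Agent.N792.grid_sqrt (q := 1) (J' := J') (S := Ioc K (2 * K)) (θ := 1) (Y := Y) (k := k) (w := w)
    le_rfl (by omega) (by norm_num) hJ'1 hk hw hY
    (fun s hs => mem_Ioc.1 hs) (fun s _ s' _ => Nat.modEq_one)
  have hmain := Pool.Agent.H373R2.T4.dls (Ico H (2 * H) ×ˢ Ioc M (2 * M)) (Ioc K (2 * K))
    (fun p : ℕ × ℕ => (p.1 : ℝ) * √(p.2 : ℝ)) (fun s => 1 * √(s : ℝ)) a b Y hY0 J' hJ'1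
    hx hy A B hA hB hA0 hB0 _ _ hNx hNy
  have heq : ∑ r ∈ Ico H (2 * H) ×ˢ Ioc M (2 * M), ∑ s ∈ Ioc K (2 * K), a r * b s * e ((r.1 : ℝ) * √(r.2 : ℝ) * √(s : ℝ)) =
      ∑ r ∈ Ico H (2 * H) ×ˢ Ioc M (2 * M), ∑ s ∈ Ioc K (2 * K), a r * b s *
        e ((r.1 : ℝ) * √(r.2 : ℝ) * (1 * √(s : ℝ))) := by
    refine Finset.sum_congr rfl fun p _ => Finset.sum_congr rfl fun s _ => ?_
    rw [one_mul]
  rw [heq]
  refine hmain.trans ?_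
  have hcast : ((1 : ℕ) : ℝ) = 1 := Nat.cast_one
  rw [hcast, div_one]
  have hRR : R ^ 2 = M * K := by rw [hRe, ← hmm, ← hkk]; ring
  have e0 : m / k * K = R := by rw [hRe, ← hkk]; field_simp
  have e1 : (20 * H * M + 2 * (H : ℝ) ^ 3 * (m / k) + (H : ℝ) ^ 2) * K =
      20 * H * R ^ 2 + 2 * (H : ℝ) ^ 3 * R + (H : ℝ) ^ 2 * K := by
    calc (20 * H * M + 2 * (H : ℝ) ^ 3 * (m / k) + (H : ℝ) ^ 2) * K =
        20 * H * (M * K) + 2 * (H : ℝ) ^ 3 * (m / k * K) + (H : ℝ) ^ 2 * K := by ring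
      _ = _ := by rw [e0, hRR]
  have h9 : 4 * (J' : ℝ) + 128 * K ≤ 128 * (H * R + K) := by nlinarith
  have hX0 : 0 ≤ 20 * H * (M : ℝ) + 2 * (H : ℝ) ^ 3 * (m / k) + (H : ℝ) ^ 2 := by positivity
  calc 25 * (A ^ 2 * (20 * H * M + 2 * (H : ℝ) ^ 3 * (m / k) + (H : ℝ) ^ 2) * (B ^ 2 * (3 * K * (4 * J' + 128 * K))))
      ≤ 25 * (A ^ 2 * (20 * H * M + 2 * (H : ℝ) ^ 3 * (m / k) + (H : ℝ) ^ 2) * (B ^ 2 * (3 * K * (128 * (H * R + K))))) := by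
        gcongr
    _ = 9600 * (A * B) ^ 2 * (((20 * H * M + 2 * (H : ℝ) ^ 3 * (m / k) + (H : ℝ) ^ 2) * K) * (H * R + K)) := by ring
    _ = _ := by rw [e1]

end Pool.Agent.V5helper51.BH
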