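import Mathlib
import Pool.Agent.N792.Tri
import Pool.Agent.V5helper51.BH.Box

/-! Separation of the variables in the weight, and bilinear sums with the weight. -/

set_option autoImplicit false

namespace Pool.Agent.V5helper51.BH

open Finset
open Pool.Agent.H469R2.NK (e norm_e e_add e_zero)
open Pool.Agent.N792 (tri triC tri_hasSum triC_nonneg)

lemma cos_eq_e (x : ℝ) : ((Real.cos (2 * Real.pi * x) : ℝ) : ℂ) = (e x + e (-x)) / 2 := by
  unfold e
  rw [Complex.ofReal_cos, Complex.cos]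
  congr 2
  · congr 1; push_cast; ring

/-- separation of the variables by the Fourier series of the triangle function -/
theorem sep {ι : Type*} (s : Finset ι) (c : ι → ℂ) (θ : ι → ℝ) (X : ℝ)
    (h : ∀ t : ℝ, ‖∑ i ∈ s, c i * e (t * θ i)‖ ≤ X) :
    ‖∑ i ∈ s, c i * ((tri (1 / 4) (θ i) : ℝ) : ℂ)‖ ≤ X := by
  have hq : (0 : ℝ) < 1 / 4 := by norm_num
  have hq2 : (1 / 4 : ℝ) ≤ 1 / 2 := by norm_num
  have hterm : ∀ i ∈ s, HasSum (fun n : ℕ => c i * ((triC (1 / 4) n * Real.cos (2 * Real.pi * n * θ i) : ℝ) : ℂ))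
      (c i * ((tri (1 / 4) (θ i) - 1 / 4 : ℝ) : ℂ)) := fun i _ =>
    ((Complex.hasSum_ofReal).2 (tri_hasSum hq hq2 (θ i))).mul_left (c i)
  have htot := hasSum_sum hterm
  have hbd : ∀ n : ℕ, ‖∑ i ∈ s, c i * ((triC (1 / 4) n * Real.cos (2 * Real.pi * n * θ i) : ℝ) : ℂ)‖ ≤
      triC (1 / 4) n * X := by
    intro n
    have e1 : ∑ i ∈ s, c i * ((triC (1 / 4) n * Real.cos (2 * Real.pi * n * θ i) : ℝ) : ℂ) =
        ((triC (1 / 4) n : ℝ) : ℂ) * ((∑ i ∈ s, c i * e ((n : ℝ) * θ i) + ∑ i ∈ s, c i * e (-(n : ℝ) * θ i)) / 2) := by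
      rw [← sum_add_distrib, Finset.sum_div, mul_sum]
      apply sum_congr rfl
      intro i _
      have e2 : 2 * Real.pi * n * θ i = 2 * Real.pi * (n * θ i) := by ring
      rw [e2, Complex.ofReal_mul, cos_eq_e, neg_mul]
      ring
    rw [e1, norm_mul, Complex.norm_real, Real.norm_of_nonneg (triC_nonneg hq n)]
    apply mul_le_mul_of_nonneg_left _ (triC_nonneg hq n)
    rw [norm_div]
    have e3 : ‖(2 : ℂ)‖ = 2 := by norm_num
    rw [e3, div_le_iff₀ (by norm_num)]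
    refine (norm_add_le _ _).trans ?_
    linarith [h n, h (-n)]
  have hs : HasSum (fun n : ℕ => triC (1 / 4) n * X) (3 / 4 * X) := by
    have h0 := tri_hasSum hq hq2 0
    have e4 : tri (1 / 4) 0 - 1 / 4 = 3 / 4 := by
      unfold tri
      norm_num
    rw [e4] at h0
    simp only [mul_zero, Real.cos_zero, mul_one] at h0
    exact h0.mul_right X
  have hn := htot.norm_le_of_bounded hs hbd
  have hz := h 0
  simp only [zero_mul, e_zero, mul_one] at hz
  have e5 : ∑ i ∈ s, c i * ((tri (1 / 4) (θ i) : ℝ) : ℂ) =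
      ∑ i ∈ s, c i * ((tri (1 / 4) (θ i) - 1 / 4 : ℝ) : ℂ) + (1 / 4) * ∑ i ∈ s, c i := by
    rw [mul_sum, ← sum_add_distrib]
    apply sum_congr rfl
    intro i _
    push_cast
    ring
  rw [e5]
  refine (norm_add_le _ _).trans ?_
  have e6 : ‖(1 / 4 : ℂ) * ∑ i ∈ s, c i‖ = 1 / 4 * ‖∑ i ∈ s, c i‖ := by
    rw [norm_mul]; norm_num
  rw [e6]
  linarith

/-- the weight -/
noncomputable def W (Z k : ℕ) : ℝ := max 0 (1 - |Real.log k - Real.log Z| / Real.log 2)

lemma W_nonneg (Z k : ℕ) : 0 ≤ W Z k := le_max_left _ _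

lemma W_le_one (Z k : ℕ) : W Z k ≤ 1 := by
  unfold W
  apply max_le (by norm_num)
  have : 0 ≤ |Real.log k - Real.log Z| / Real.log 2 := by
    have := Real.log_pos (by norm_num : (1 : ℝ) < 2)
    positivity
  linarith

lemma W_zero_low {Z k : ℕ} (hk : 1 ≤ k) (h : 2 * k ≤ Z) : W Z k = 0 := by
  unfold W
  apply max_eq_left
  have hl2 := Real.log_pos (by norm_num : (1 : ℝ) < 2)
  have hk0 : (0 : ℝ) < k := by exact_mod_cast hk
  have h1 : Real.log k + Real.log 2 ≤ Real.log Z := by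
    rw [← Real.log_mul hk0.ne' (by norm_num)]
    apply Real.log_le_log (by positivity)
    have : ((2 * k : ℕ) : ℝ) ≤ Z := by exact_mod_cast h
    push_cast at this
    linarith
  rw [sub_nonpos, le_div_iff₀ hl2, one_mul, abs_sub_comm, abs_of_nonneg (by linarith)]
  linarith

lemma W_zero_high {Z k : ℕ} (hZ : 1 ≤ Z) (h : 2 * Z ≤ k) : W Z k = 0 := by
  unfold W
  apply max_eq_left
  have hl2 := Real.log_pos (by norm_num : (1 : ℝ) < 2)
  have hZ0 : (0 : ℝ) < Z := by exact_mod_cast hZ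
  have h1 : Real.log Z + Real.log 2 ≤ Real.log k := by
    rw [← Real.log_mul hZ0.ne' (by norm_num)]
    apply Real.log_le_log (by positivity)
    have : ((2 * Z : ℕ) : ℝ) ≤ k := by exact_mod_cast h
    push_cast at this
    linarith
  rw [sub_nonpos, le_div_iff₀ hl2, one_mul, abs_of_nonneg (by linarith)]
  linarith

lemma tri_quarter {θ : ℝ} (h : |θ| < 3 / 4) : tri (1 / 4) θ = max 0 (1 - 4 * |θ|) := by
  unfold tri
  rcases lt_or_ge |θ| (1 / 2) with h1 | h1
  · have h2 : round θ = 0 := by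
      rw [abs_lt] at h1
      rw [round_eq, Int.floor_eq_iff]
      constructor
      · push_cast; linarith
      · push_cast; linarith
    rw [h2]
    simp only [Int.cast_zero, sub_zero]
    congr 1
    ring
  · have h3 : 1 / 4 ≤ |θ - round θ| := by
      by_contra hc
      push Not at hc
      rw [abs_lt] at hc h
      rcases le_abs.1 h1 with h4 | h4
      · have h5 : (0 : ℝ) < round θ := by linarith
        have h6 : (round θ : ℝ) < 1 := by linarith
        have h7 : 0 < round θ := by exact_mod_cast h5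
        have h8 : round θ < 1 := by exact_mod_cast h6
        omega
      · have h5 : (round θ : ℝ) < 0 := by linarith
        have h6 : (-1 : ℝ) < round θ := by linarith
        have h7 : round θ < 0 := by exact_mod_cast h5
        have h8 : -1 < round θ := by exact_mod_cast h6
        omega
    rw [max_eq_left, max_eq_left]
    · linarith
    · have : 1 ≤ |θ - round θ| / (1 / 4) := by rw [le_div_iff₀ (by norm_num)]; linarith
      linarith

lemma W_eq_tri {Z m l : ℕ} (hZ : 1 ≤ Z) (hm : 1 ≤ m) (hl : 1 ≤ l) (h1 : Z < 8 * (m * l)) (h2 : m * l < 8 * Z) :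
    W Z (m * l) = tri (1 / 4) ((Real.log m + Real.log l - Real.log Z) / (4 * Real.log 2)) := by
  have hl2 := Real.log_pos (by norm_num : (1 : ℝ) < 2)
  have hZ0 : (0 : ℝ) < Z := by exact_mod_cast hZ
  have hm0 : (0 : ℝ) < m := by exact_mod_cast hm
  have hl0 : (0 : ℝ) < l := by exact_mod_cast hl
  have e1 : Real.log ((m * l : ℕ) : ℝ) = Real.log m + Real.log l := by
    push_cast
    exact Real.log_mul hm0.ne' hl0.ne'
  have h8 : Real.log 8 = 3 * Real.log 2 := by
    rw [show (8 : ℝ) = 2 ^ 3 by norm_num, Real.log_pow]; norm_num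
  have h1r : (Z : ℝ) < 8 * (m * l) := by exact_mod_cast h1
  have h2r : (m : ℝ) * l < 8 * Z := by exact_mod_cast h2
  have a1 : Real.log Z < 3 * Real.log 2 + (Real.log m + Real.log l) := by
    have := Real.log_lt_log hZ0 h1r
    rw [Real.log_mul (by norm_num) (by positivity), Real.log_mul hm0.ne' hl0.ne', h8] at this
    exact this
  have a2 : Real.log m + Real.log l < 3 * Real.log 2 + Real.log Z := by
    have := Real.log_lt_log (by positivity) h2r
    rw [Real.log_mul (by norm_num) hZ0.ne', Real.log_mul hm0.ne' hl0.ne', h8] at this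
    exact this
  have h3 : |(Real.log m + Real.log l - Real.log Z) / (4 * Real.log 2)| < 3 / 4 := by
    rw [abs_div, abs_of_pos (show 0 < 4 * Real.log 2 by positivity), div_lt_iff₀ (by positivity), abs_lt]
    constructor <;> linarith
  rw [tri_quarter h3]
  unfold W
  rw [e1, abs_div, abs_of_pos (show 0 < 4 * Real.log 2 by positivity)]
  congr 2
  field_simp

/-- the sum over one box -/
theorem bil_box1 {Z H M K : ℕ} (hZ : 1 ≤ Z) (hH : 1 ≤ H) (hM : 1 ≤ M) (hMK : M ≤ K) (h1 : Z < 8 * (M * K))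
    (h2 : M * K < 2 * Z) (ω a b : ℕ → ℂ) (A B : ℝ) (hA0 : 0 ≤ A) (hB0 : 0 ≤ B) (hω : ∀ h, ‖ω h‖ ≤ 1)
    (hA : ∀ m ∈ Ioc M (2 * M), ‖a m‖ ≤ A) (hB : ∀ k ∈ Ioc K (2 * K), ‖b k‖ ≤ B) (R : ℝ) (hR : R = √((M : ℝ) * K)) :
    ‖∑ h ∈ Ico H (2 * H), ∑ m ∈ Ioc M (2 * M), ∑ l ∈ Ioc K (2 * K), ω h * (a m * b l *
      ((W Z (m * l) : ℂ) * e (h * √((m * l : ℕ) : ℝ))))‖ ^ 2 ≤
      9600 * (A * B) ^ 2 * ((20 * H * R ^ 2 + 2 * (H : ℝ) ^ 3 * R + (H : ℝ) ^ 2 * K) * (H * R + K)) := by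
  set Y : ℝ := 9600 * (A * B) ^ 2 * ((20 * H * R ^ 2 + 2 * (H : ℝ) ^ 3 * R + (H : ℝ) ^ 2 * K) * (H * R + K)) with hY
  have hR0 : 0 ≤ R := by rw [hR]; exact Real.sqrt_nonneg _
  have hY0 : 0 ≤ Y := by positivity
  have key : ‖∑ i ∈ (Ico H (2 * H) ×ˢ Ioc M (2 * M)) ×ˢ Ioc K (2 * K),
      (ω i.1.1 * a i.1.2 * b i.2 * e ((i.1.1 : ℝ) * √(i.1.2 : ℝ) * √(i.2 : ℝ))) *
        ((tri (1 / 4) ((Real.log i.1.2 + Real.log i.2 - Real.log Z) / (4 * Real.log 2)) : ℝ) : ℂ)‖ ≤ √Y := by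
    apply sep
    intro t
    have hb := box hH hM hMK (fun r => ω r.1 * a r.2 * e (t * (Real.log r.2 / (4 * Real.log 2))))
      (fun k => b k * e (t * ((Real.log k - Real.log Z) / (4 * Real.log 2)))) A B hA0 hB0
      (fun r hr => by
        rw [norm_mul, norm_mul, norm_e, mul_one]
        rw [mem_product] at hr
        calc ‖ω r.1‖ * ‖a r.2‖ ≤ 1 * A := mul_le_mul (hω _) (hA _ hr.2) (norm_nonneg _) (by norm_num)
          _ = A := one_mul A)
      (fun k hk => by
        rw [norm_mul, norm_e, mul_one]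
        exact hB k hk) R hR
    rw [← hY] at hb
    refine Real.le_sqrt_of_sq_le ?_
    refine le_trans (le_of_eq ?_) hb
    congr 2
    rw [sum_product]
    apply sum_congr rfl
    intro r _
    apply sum_congr rfl
    intro k _
    have e1 : e (t * ((Real.log r.2 + Real.log k - Real.log Z) / (4 * Real.log 2))) =
        e (t * (Real.log r.2 / (4 * Real.log 2))) * e (t * ((Real.log k - Real.log Z) / (4 * Real.log 2))) := by
      rw [← e_add]
      congr 1
      ring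
    simp only
    rw [e1]
    ring
  have e2 : ∑ h ∈ Ico H (2 * H), ∑ m ∈ Ioc M (2 * M), ∑ l ∈ Ioc K (2 * K), ω h * (a m * b l *
      ((W Z (m * l) : ℂ) * e (h * √((m * l : ℕ) : ℝ)))) =
      ∑ i ∈ (Ico H (2 * H) ×ˢ Ioc M (2 * M)) ×ˢ Ioc K (2 * K),
      (ω i.1.1 * a i.1.2 * b i.2 * e ((i.1.1 : ℝ) * √(i.1.2 : ℝ) * √(i.2 : ℝ))) *
        ((tri (1 / 4) ((Real.log i.1.2 + Real.log i.2 - Real.log Z) / (4 * Real.log 2)) : ℝ) : ℂ) := by
    rw [sum_product, sum_product]
    apply sum_congr rfl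
    intro h _
    apply sum_congr rfl
    intro m hm
    apply sum_congr rfl
    intro l hl
    rw [mem_Ioc] at hm hl
    have hm1 : 1 ≤ m := by omega
    have hl1 : 1 ≤ l := by omega
    have g1 : M * K ≤ m * l := Nat.mul_le_mul hm.1.le hl.1.le
    have g2 : m * l ≤ 4 * (M * K) := by
      calc m * l ≤ (2 * M) * (2 * K) := Nat.mul_le_mul hm.2 hl.2
        _ = _ := by ring
    rw [W_eq_tri hZ hm1 hl1 (by omega) (by omega)]
    have e3 : √((m * l : ℕ) : ℝ) = √(m : ℝ) * √(l : ℝ) := by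
      push_cast
      rw [Real.sqrt_mul (Nat.cast_nonneg _)]
    rw [e3]
    simp only
    have e4 : (h : ℝ) * (√(m : ℝ) * √(l : ℝ)) = h * √(m : ℝ) * √(l : ℝ) := by ring
    rw [e4]
    ring
  rw [e2]
  calc _ ≤ (√Y) ^ 2 := pow_le_pow_left₀ (norm_nonneg _) key 2
    _ = Y := Real.sq_sqrt hY0

end Pool.Agent.V5helper51.BH
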