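import Mathlib
import Pool.Agent.H373R2.T3.Pieces
import Pool.Agent.V5helper51.BH.Sep

/-! Bilinear sums with the weight over all boxes. -/

set_option autoImplicit false

namespace Pool.Agent.V5helper51.BH

open Finset
open Pool.Agent.H469R2.NK (e norm_e e_add e_zero)

lemma box_num {H Z P σ R L : ℝ} (hH : 1 ≤ H) (hσ : 1 ≤ σ) (hHσ : H * σ ≤ P) (hP : P ^ 4 = Z)
    (hR0 : 0 ≤ R) (hR : R ^ 2 ≤ 2 * Z) (hL0 : 0 ≤ L) (hL : L ≤ 4 * P ^ 3) :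
    (20 * H * R ^ 2 + 2 * H ^ 3 * R + H ^ 2 * L) * (H * R + L) ≤ 282 * (Z ^ 2 / σ) := by
  have hσ0 : 0 < σ := by linarith
  have hP0 : 0 < P := lt_of_lt_of_le (by positivity) hHσ
  obtain ⟨u, hu⟩ : ∃ u : ℝ, u = P / σ := ⟨_, rfl⟩
  have hHu : H ≤ u := by rw [hu, le_div_iff₀ hσ0]; exact hHσ
  have huP : u ≤ P := by rw [hu]; exact div_le_self hP0.le hσ
  have hu0 : 0 < u := by linarith
  have hR2 : R ≤ 3 / 2 * P ^ 2 := by
    apply abs_le_of_sq_le_sq' _ (by positivity) |>.2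
    nlinarith [sq_nonneg (P ^ 2)]
  have hZ2 : Z ^ 2 / σ = P ^ 7 * u := by
    rw [hu, ← hP]; ring
  have h1 : 20 * H * R ^ 2 ≤ 40 * (P ^ 4 * u) := by
    calc 20 * H * R ^ 2 ≤ 20 * u * (2 * Z) := by gcongr
      _ = 40 * (P ^ 4 * u) := by rw [← hP]; ring
  have h2 : 2 * H ^ 3 * R ≤ 3 * (P ^ 4 * u) := by
    calc 2 * H ^ 3 * R ≤ 2 * u ^ 3 * (3 / 2 * P ^ 2) := by gcongr
      _ = 3 * (u ^ 2 * P ^ 2 * u) := by ring
      _ ≤ 3 * (P ^ 2 * P ^ 2 * u) := by gcongr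
      _ = _ := by ring
  have h3 : H ^ 2 * L ≤ 4 * (P ^ 4 * u) := by
    calc H ^ 2 * L ≤ u ^ 2 * (4 * P ^ 3) := by gcongr
      _ = 4 * (u * P ^ 3 * u) := by ring
      _ ≤ 4 * (P * P ^ 3 * u) := by gcongr
      _ = _ := by ring
  have h4 : H * R + L ≤ 6 * P ^ 3 := by
    have : H * R ≤ P * (3 / 2 * P ^ 2) := by
      apply mul_le_mul (hHu.trans huP) hR2 hR0 hP0.le
    nlinarith [pow_pos hP0 3]
  calc (20 * H * R ^ 2 + 2 * H ^ 3 * R + H ^ 2 * L) * (H * R + L) ≤ (47 * (P ^ 4 * u)) * (6 * P ^ 3) := by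
        apply mul_le_mul (by linarith) h4 (by positivity) (by positivity)
    _ = 282 * (Z ^ 2 / σ) := by rw [hZ2]; ring

lemma sq_to_le {x Z A B σ : ℝ} (hZ : 0 ≤ Z) (hA : 0 ≤ A) (hB : 0 ≤ B) (hσ : 1 ≤ σ)
    (h : x ^ 2 ≤ 9600 * (A * B) ^ 2 * (282 * (Z ^ 2 / σ))) : x ≤ 1700 * (A * B) * (Z / √σ) := by
  have hσ0 : 0 < σ := by linarith
  have hs : 0 < √σ := Real.sqrt_pos.2 hσ0
  apply abs_le_of_sq_le_sq' _ (by positivity) |>.2
  refine h.trans ?_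
  have e1 : (1700 * (A * B) * (Z / √σ)) ^ 2 = 1700 ^ 2 * ((A * B) ^ 2 * (Z ^ 2 / σ)) := by
    rw [mul_pow, mul_pow, div_pow, Real.sq_sqrt hσ0.le]; ring
  rw [e1]
  have : 0 ≤ (A * B) ^ 2 * (Z ^ 2 / σ) := by positivity
  nlinarith

/-- the sum over one box -/
theorem bil_box {Z H M K : ℕ} {P σ : ℝ} (hZ : 1 ≤ Z) (hH : 1 ≤ H) (hσ : 1 ≤ σ) (hHσ : H * σ ≤ P) (hP : P ^ 4 = Z)
    (hM : P ≤ 2 * M) (hK : P ≤ 2 * K) (ω a b : ℕ → ℂ) (A B : ℝ) (hA0 : 0 ≤ A) (hB0 : 0 ≤ B) (hω : ∀ h, ‖ω h‖ ≤ 1)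
    (hA : ∀ m ∈ Ioc M (2 * M), ‖a m‖ ≤ A) (hB : ∀ k ∈ Ioc K (2 * K), ‖b k‖ ≤ B) :
    ‖∑ h ∈ Ico H (2 * H), ∑ m ∈ Ioc M (2 * M), ∑ l ∈ Ioc K (2 * K), ω h * (a m * b l *
      ((W Z (m * l) : ℂ) * e (h * √((m * l : ℕ) : ℝ))))‖ ≤ 1700 * (A * B) * (Z / √σ) := by
  have hH0 : (1 : ℝ) ≤ H := by exact_mod_cast hH
  have hσ0 : 0 < σ := by linarith
  have hP0 : 0 < P := lt_of_lt_of_le (by positivity) hHσ
  have hM1 : 1 ≤ M := by
    by_contra hc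
    have : M = 0 := by omega
    rw [this] at hM
    norm_num at hM
    linarith
  have hK1 : 1 ≤ K := by
    by_contra hc
    have : K = 0 := by omega
    rw [this] at hK
    norm_num at hK
    linarith
  have hZ0 : (0 : ℝ) < Z := by exact_mod_cast hZ
  have hs : 0 < √σ := Real.sqrt_pos.2 hσ0
  by_cases h1 : Z < 8 * (M * K)
  swap
  · have hz : ∑ h ∈ Ico H (2 * H), ∑ m ∈ Ioc M (2 * M), ∑ l ∈ Ioc K (2 * K), ω h * (a m * b l *
      ((W Z (m * l) : ℂ) * e (h * √((m * l : ℕ) : ℝ)))) = 0 := by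
      apply sum_eq_zero; intro h _
      apply sum_eq_zero; intro m hm
      apply sum_eq_zero; intro l hl
      rw [mem_Ioc] at hm hl
      have g2 : m * l ≤ 4 * (M * K) := by
        calc m * l ≤ (2 * M) * (2 * K) := Nat.mul_le_mul hm.2 hl.2
          _ = _ := by ring
      have g1 : 1 ≤ m * l := Nat.mul_pos (by omega) (by omega)
      rw [W_zero_low g1 (by omega)]
      simp
    rw [hz, norm_zero]
    positivity
  by_cases h2 : M * K < 2 * Z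
  swap
  · have hz : ∑ h ∈ Ico H (2 * H), ∑ m ∈ Ioc M (2 * M), ∑ l ∈ Ioc K (2 * K), ω h * (a m * b l *
      ((W Z (m * l) : ℂ) * e (h * √((m * l : ℕ) : ℝ)))) = 0 := by
      apply sum_eq_zero; intro h _
      apply sum_eq_zero; intro m hm
      apply sum_eq_zero; intro l hl
      rw [mem_Ioc] at hm hl
      have g1 : M * K ≤ m * l := Nat.mul_le_mul hm.1.le hl.1.le
      rw [W_zero_high hZ (by omega)]
      simp
    rw [hz, norm_zero]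
    positivity
  have h2r : (M : ℝ) * K ≤ 2 * Z := by exact_mod_cast h2.le
  have hM0 : (0 : ℝ) < M := by exact_mod_cast hM1
  have hK0 : (0 : ℝ) < K := by exact_mod_cast hK1
  have hR2 : (√((M : ℝ) * K)) ^ 2 ≤ 2 * Z := by
    rw [Real.sq_sqrt (by positivity)]; exact h2r
  have hLK : (K : ℝ) ≤ 4 * P ^ 3 := by
    have : P * K ≤ P * (4 * P ^ 3) := by
      calc P * K ≤ 2 * M * K := by gcongr
        _ = 2 * (M * K) := by ring
        _ ≤ 2 * (2 * Z) := by gcongr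
        _ = P * (4 * P ^ 3) := by rw [← hP]; ring
    exact le_of_mul_le_mul_left this hP0
  have hLM : (M : ℝ) ≤ 4 * P ^ 3 := by
    have : P * M ≤ P * (4 * P ^ 3) := by
      calc P * M ≤ 2 * K * M := by gcongr
        _ = 2 * (M * K) := by ring
        _ ≤ 2 * (2 * Z) := by gcongr
        _ = P * (4 * P ^ 3) := by rw [← hP]; ring
    exact le_of_mul_le_mul_left this hP0
  rcases le_total M K with hMK | hMK
  · have hb := bil_box1 hZ hH hM1 hMK h1 h2 ω a b A B hA0 hB0 hω hA hB _ rfl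
    apply sq_to_le hZ0.le hA0 hB0 hσ
    refine hb.trans ?_
    apply mul_le_mul_of_nonneg_left _ (by positivity)
    exact box_num hH0 hσ hHσ hP (Real.sqrt_nonneg _) hR2 hK0.le hLK
  · have hb := bil_box1 hZ hH hK1 hMK (by rw [mul_comm K M]; exact h1) (by rw [mul_comm K M]; exact h2) ω b a B A
      hB0 hA0 hω hB hA _ rfl
    have heq : ∑ h ∈ Ico H (2 * H), ∑ m ∈ Ioc M (2 * M), ∑ l ∈ Ioc K (2 * K), ω h * (a m * b l *
        ((W Z (m * l) : ℂ) * e (h * √((m * l : ℕ) : ℝ)))) =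
        ∑ h ∈ Ico H (2 * H), ∑ m ∈ Ioc K (2 * K), ∑ l ∈ Ioc M (2 * M), ω h * (b m * a l *
        ((W Z (m * l) : ℂ) * e (h * √((m * l : ℕ) : ℝ)))) := by
      apply sum_congr rfl
      intro h _
      rw [sum_comm]
      apply sum_congr rfl
      intro l _
      apply sum_congr rfl
      intro m _
      rw [mul_comm l m]
      ring
    rw [heq]
    apply sq_to_le hZ0.le hA0 hB0 hσ
    refine hb.trans ?_
    rw [mul_comm B A]
    apply mul_le_mul_of_nonneg_left _ (by positivity)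
    rw [mul_comm (K : ℝ) (M : ℝ)]
    exact box_num hH0 hσ hHσ hP (Real.sqrt_nonneg _) hR2 hM0.le hLM

/-- the bilinear sum -/
theorem bil {Z H D I : ℕ} {P σ : ℝ} (hZ : 1 ≤ Z) (hH : 1 ≤ H) (hσ : 1 ≤ σ) (hHσ : H * σ ≤ P) (hP : P ^ 4 = Z)
    (hD : P ≤ D) (ω a b : ℕ → ℂ) (A B : ℝ) (hA0 : 0 ≤ A) (hB0 : 0 ≤ B) (hω : ∀ h, ‖ω h‖ ≤ 1)
    (ha : ∀ m, m ≤ D → a m = 0) (hb : ∀ l, l ≤ D → b l = 0)
    (hA : ∀ m ∈ Ioc 1 (2 ^ I), ‖a m‖ ≤ A) (hB : ∀ k ∈ Ioc 1 (2 ^ I), ‖b k‖ ≤ B) :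
    ‖∑ h ∈ Ico H (2 * H), ∑ m ∈ Ioc 1 (2 ^ I), ∑ l ∈ Ioc 1 (2 ^ I), ω h * (a m * b l *
      ((W Z (m * l) : ℂ) * e (h * √((m * l : ℕ) : ℝ))))‖ ≤ (I : ℝ) ^ 2 * (1700 * (A * B) * (Z / √σ)) := by
  have hσ0 : 0 < σ := by linarith
  have hs : 0 < √σ := Real.sqrt_pos.2 hσ0
  have hZ0 : (0 : ℝ) < Z := by exact_mod_cast hZ
  have hX0 : 0 ≤ 1700 * (A * B) * (Z / √σ) := by positivity
  set F : ℕ → ℕ → ℕ → ℂ := fun h m l => ω h * (a m * b l *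
      ((W Z (m * l) : ℂ) * e (h * √((m * l : ℕ) : ℝ)))) with hF
  have hsub : ∀ i ∈ range I, Ioc (2 ^ i) (2 * 2 ^ i) ⊆ Ioc 1 (2 ^ I) := by
    intro i hi m hm
    rw [mem_range] at hi
    rw [mem_Ioc] at hm ⊢
    have h1 : 1 ≤ 2 ^ i := Nat.one_le_two_pow
    have h2 : 2 * 2 ^ i ≤ 2 ^ I := by
      rw [← pow_succ']
      exact Nat.pow_le_pow_right (by norm_num) hi
    omega
  have hpiece : ∀ i ∈ range I, ∀ j ∈ range I, ‖∑ h ∈ Ico H (2 * H), ∑ m ∈ Ioc (2 ^ i) (2 * 2 ^ i),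
      ∑ l ∈ Ioc (2 ^ j) (2 * 2 ^ j), F h m l‖ ≤ 1700 * (A * B) * (Z / √σ) := by
    intro i hi j hj
    by_cases h1 : 2 * 2 ^ i ≤ D
    · have hz : ∑ h ∈ Ico H (2 * H), ∑ m ∈ Ioc (2 ^ i) (2 * 2 ^ i), ∑ l ∈ Ioc (2 ^ j) (2 * 2 ^ j), F h m l = 0 := by
        apply sum_eq_zero; intro h _
        apply sum_eq_zero; intro m hm
        apply sum_eq_zero; intro l hl
        rw [mem_Ioc] at hm
        simp only [hF]
        rw [ha m (by omega)]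
        simp
      rw [hz, norm_zero]; exact hX0
    by_cases h2 : 2 * 2 ^ j ≤ D
    · have hz : ∑ h ∈ Ico H (2 * H), ∑ m ∈ Ioc (2 ^ i) (2 * 2 ^ i), ∑ l ∈ Ioc (2 ^ j) (2 * 2 ^ j), F h m l = 0 := by
        apply sum_eq_zero; intro h _
        apply sum_eq_zero; intro m hm
        apply sum_eq_zero; intro l hl
        rw [mem_Ioc] at hl
        simp only [hF]
        rw [hb l (by omega)]
        simp
      rw [hz, norm_zero]; exact hX0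
    have h1r : P ≤ 2 * ((2 ^ i : ℕ) : ℝ) := by
      refine hD.trans ?_
      have : D ≤ 2 * 2 ^ i := by omega
      exact_mod_cast this
    have h2r : P ≤ 2 * ((2 ^ j : ℕ) : ℝ) := by
      refine hD.trans ?_
      have : D ≤ 2 * 2 ^ j := by omega
      exact_mod_cast this
    exact bil_box hZ hH hσ hHσ hP h1r h2r ω a b A B hA0 hB0 hω (fun m hm => hA m (hsub i hi hm))
      (fun k hk => hB k (hsub j hj hk))
  have heq : ∑ h ∈ Ico H (2 * H), ∑ m ∈ Ioc 1 (2 ^ I), ∑ l ∈ Ioc 1 (2 ^ I), F h m l =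
      ∑ i ∈ range I, ∑ j ∈ range I, ∑ h ∈ Ico H (2 * H), ∑ m ∈ Ioc (2 ^ i) (2 * 2 ^ i),
        ∑ l ∈ Ioc (2 ^ j) (2 * 2 ^ j), F h m l := by
    have e1 : ∀ h ∈ Ico H (2 * H), ∑ m ∈ Ioc 1 (2 ^ I), ∑ l ∈ Ioc 1 (2 ^ I), F h m l =
        ∑ i ∈ range I, ∑ j ∈ range I, ∑ m ∈ Ioc (2 ^ i) (2 * 2 ^ i), ∑ l ∈ Ioc (2 ^ j) (2 * 2 ^ j), F h m l := by
      intro h _
      rw [Pool.Agent.H373R2.T3.dyadic_sum]
      apply sum_congr rfl
      intro i _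
      simp_rw [Pool.Agent.H373R2.T3.dyadic_sum _ I]
      rw [sum_comm]
    rw [sum_congr rfl e1, sum_comm]
    apply sum_congr rfl
    intro i _
    rw [sum_comm]
  rw [heq]
  calc _ ≤ ∑ i ∈ range I, ∑ j ∈ range I, 1700 * (A * B) * (Z / √σ) := by
        refine (norm_sum_le _ _).trans (sum_le_sum fun i hi => ?_)
        exact (norm_sum_le _ _).trans (sum_le_sum fun j hj => hpiece i hi j hj)
    _ = _ := by
        rw [sum_const, sum_const, card_range, nsmul_eq_mul, nsmul_eq_mul]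
        ring

end Pool.Agent.V5helper51.BH
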