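import Mathlib
import Pool.Agent.H373R2.T3.TypeI
import Pool.Agent.V5helper51.BH.Bil

/-! Sums with a smooth variable and a small variable. -/

set_option autoImplicit false

namespace Pool.Agent.V5helper51.BH

open Finset
open Pool.Agent.H469R2.NK (e norm_e e_add e_zero)

/-- partial summation with slowly varying weights -/
lemma abel_log (a b : ℕ) (w : ℕ → ℝ) (z : ℕ → ℂ) (B W0 V : ℝ) (hW0 : 0 ≤ W0) (hV : 0 ≤ V)
    (hw : ∀ l ∈ Ioc a b, |w l| ≤ W0)
    (hd : ∀ l, a < l → l < b → |w (l + 1) - w l| ≤ V * (Real.log ((l + 1 : ℕ) : ℝ) - Real.log l))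
    (hB : ∀ b', b' ≤ b → ‖∑ l ∈ Ioc a b', z l‖ ≤ B) :
    ‖∑ l ∈ Ioc a b, (w l : ℂ) * z l‖ ≤ (W0 + V * Real.log b) * B := by
  have hB0 : 0 ≤ B := le_trans (norm_nonneg _) (hB 0 (Nat.zero_le _))
  rcases Nat.lt_or_ge a b with hab | hab
  swap
  · rw [Ioc_eq_empty (by omega), sum_empty, norm_zero]
    have : 0 ≤ Real.log (b : ℝ) := Real.log_natCast_nonneg b
    positivity
  have key : ∀ b', a + 1 ≤ b' → b' ≤ b → ‖∑ l ∈ Ioc a b', (w l : ℂ) * z l - (w b' : ℂ) * ∑ l ∈ Ioc a b', z l‖ ≤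
      V * (Real.log b' - Real.log ((a + 1 : ℕ) : ℝ)) * B := by
    intro b' hb'
    induction b', hb' using Nat.le_induction with
    | base =>
      intro _
      rw [sum_Ioc_succ_top le_rfl, sum_Ioc_succ_top le_rfl]
      simp
    | succ c hc ih =>
      intro hcb
      have h1 := ih (by omega)
      rw [sum_Ioc_succ_top (by omega), sum_Ioc_succ_top (by omega)]
      have h2 : ∑ l ∈ Ioc a c, (w l : ℂ) * z l + (w (c + 1) : ℂ) * z (c + 1) - (w (c + 1) : ℂ) * (∑ l ∈ Ioc a c, z l + z (c + 1)) =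
          (∑ l ∈ Ioc a c, (w l : ℂ) * z l - (w c : ℂ) * ∑ l ∈ Ioc a c, z l) - ((w (c + 1) - w c : ℝ) : ℂ) * ∑ l ∈ Ioc a c, z l := by
        push_cast; ring
      rw [h2]
      refine (norm_sub_le _ _).trans ?_
      rw [norm_mul, Complex.norm_real, Real.norm_eq_abs]
      have h3 := hd c (by omega) (by omega)
      have h4 := hB c (by omega)
      have h5 : |w (c + 1) - w c| * ‖∑ l ∈ Ioc a c, z l‖ ≤
          V * (Real.log ((c + 1 : ℕ) : ℝ) - Real.log c) * B :=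
        mul_le_mul h3 h4 (norm_nonneg _) (le_trans (abs_nonneg _) h3)
      have h6 : V * (Real.log ((c + 1 : ℕ) : ℝ) - Real.log ((a + 1 : ℕ) : ℝ)) * B =
        V * (Real.log c - Real.log ((a + 1 : ℕ) : ℝ)) * B + V * (Real.log ((c + 1 : ℕ) : ℝ) - Real.log c) * B := by ring
      rw [h6]
      linarith
  have h1 := key b (by omega) le_rfl
  have h2 := hB b le_rfl
  have h3 : ‖(w b : ℂ) * ∑ l ∈ Ioc a b, z l‖ ≤ W0 * B := by
    rw [norm_mul, Complex.norm_real, Real.norm_eq_abs]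
    exact mul_le_mul (hw b (by rw [mem_Ioc]; omega)) h2 (norm_nonneg _) hW0
  have h4 : ∑ l ∈ Ioc a b, (w l : ℂ) * z l = (∑ l ∈ Ioc a b, (w l : ℂ) * z l - (w b : ℂ) * ∑ l ∈ Ioc a b, z l) + (w b : ℂ) * ∑ l ∈ Ioc a b, z l := by ring
  rw [h4]
  refine (norm_add_le _ _).trans ?_
  have h5 : 0 ≤ Real.log ((a + 1 : ℕ) : ℝ) := Real.log_natCast_nonneg _
  have h6 : V * (Real.log b - Real.log ((a + 1 : ℕ) : ℝ)) * B ≤ V * Real.log b * B := by
    apply mul_le_mul_of_nonneg_right _ hB0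
    apply mul_le_mul_of_nonneg_left _ hV
    linarith
  linarith

lemma max_diff (x y : ℝ) : |max 0 x - max 0 y| ≤ |x - y| := by
  have := abs_max_sub_max_le_abs x y 0
  rwa [max_comm x 0, max_comm y 0] at this

/-- the weight varies slowly -/
lemma W_diff {Z m l : ℕ} (hm : 1 ≤ m) (hl : 1 ≤ l) :
    |W Z (m * (l + 1)) - W Z (m * l)| ≤ 2 * (Real.log ((l + 1 : ℕ) : ℝ) - Real.log l) := by
  have hl2 : (0.6931471803 : ℝ) < Real.log 2 := Real.log_two_gt_d9
  have hm0 : (0 : ℝ) < m := by exact_mod_cast hm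
  have hl0 : (0 : ℝ) < l := by exact_mod_cast hl
  have h1 : Real.log ((m * (l + 1) : ℕ) : ℝ) = Real.log m + Real.log ((l + 1 : ℕ) : ℝ) := by
    rw [Nat.cast_mul]
    apply Real.log_mul hm0.ne'
    push_cast; linarith
  have h2 : Real.log ((m * l : ℕ) : ℝ) = Real.log m + Real.log l := by
    rw [Nat.cast_mul]
    exact Real.log_mul hm0.ne' hl0.ne'
  have h3 : 0 ≤ Real.log ((l + 1 : ℕ) : ℝ) - Real.log l := by
    rw [sub_nonneg]
    apply Real.log_le_log hl0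
    push_cast; linarith
  unfold W
  refine (max_diff _ _).trans ?_
  rw [h1, h2]
  have h4 : 1 - |Real.log m + Real.log ((l + 1 : ℕ) : ℝ) - Real.log Z| / Real.log 2 -
      (1 - |Real.log m + Real.log l - Real.log Z| / Real.log 2) =
      (|Real.log m + Real.log l - Real.log Z| - |Real.log m + Real.log ((l + 1 : ℕ) : ℝ) - Real.log Z|) / Real.log 2 := by
    ring
  rw [h4, abs_div, abs_of_pos (by linarith : 0 < Real.log 2), div_le_iff₀ (by linarith)]
  refine (abs_abs_sub_abs_le _ _).trans ?_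
  have h5 : Real.log m + Real.log l - Real.log Z - (Real.log m + Real.log ((l + 1 : ℕ) : ℝ) - Real.log Z) =
      -(Real.log ((l + 1 : ℕ) : ℝ) - Real.log l) := by ring
  rw [h5, abs_neg, abs_of_nonneg h3]
  nlinarith

/-- the partial sums without weights -/
lemma part_sum {Y h m : ℕ} (hh : 1 ≤ h) (hm : 1 ≤ m) (hmY : m ≤ Y) (hc : 4 * (h : ℝ) * m ≤ √(Y : ℝ)) (b' : ℕ)
    (hb' : b' ≤ 4 * Y / m) :
    ‖∑ l ∈ Ioc (Y / m) b', e (h * √((m * l : ℕ) : ℝ))‖ ≤ 160 * √((2 * Y : ℕ) : ℝ) := by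
  have hh0 : (1 : ℝ) ≤ h := by exact_mod_cast hh
  have hm0 : (1 : ℝ) ≤ m := by exact_mod_cast hm
  have hY0 : (0 : ℝ) ≤ Y := Nat.cast_nonneg _
  have hsY : √(Y : ℝ) ≤ √((2 * Y : ℕ) : ℝ) := by
    apply Real.sqrt_le_sqrt; push_cast; linarith
  have conv : ∀ a c : ℕ, ∑ l ∈ Ioc a c, e (h * √((m * l : ℕ) : ℝ)) =
      ∑ l ∈ Ioc a c, e ((h : ℝ) * ((m * l : ℕ) : ℝ) ^ (1 / 2 : ℝ)) := by
    intro a c
    apply sum_congr rfl
    intro l _
    rw [Real.sqrt_eq_rpow]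
  have hhalf : (1 : ℝ) - 1 / 2 = 1 / 2 := by norm_num
  have first : ∀ c : ℕ, c ≤ 2 * Y / m → ‖∑ l ∈ Ioc (Y / m) c, e (h * √((m * l : ℕ) : ℝ))‖ ≤ 80 * √((2 * Y : ℕ) : ℝ) := by
    intro c hcle
    have := Pool.Agent.H373R2.T3.inner_I (α := 1 / 2) (by norm_num) (by norm_num) (h : ℝ) (by linarith) Y (2 * Y) m hm hmY
      le_rfl (by rw [hhalf, ← Real.sqrt_eq_rpow]; exact hc) c hcle
    rw [← conv, hhalf, ← Real.sqrt_eq_rpow] at this
    refine this.trans ?_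
    calc 40 / (1 / 2) * (√(Y : ℝ) / h) * (1 / m) ≤ 80 * (√((2 * Y : ℕ) : ℝ) / 1) * (1 / 1) := by
          have e1 : (40 : ℝ) / (1 / 2) = 80 := by norm_num
          rw [e1]
          gcongr
      _ = _ := by ring
  have second : ∀ c : ℕ, c ≤ 4 * Y / m → ‖∑ l ∈ Ioc (2 * Y / m) c, e (h * √((m * l : ℕ) : ℝ))‖ ≤ 80 * √((2 * Y : ℕ) : ℝ) := by
    intro c hcle
    have := Pool.Agent.H373R2.T3.inner_I (α := 1 / 2) (by norm_num) (by norm_num) (h : ℝ) (by linarith) (2 * Y) (4 * Y) m hm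
      (by omega) (by omega) (by rw [hhalf, ← Real.sqrt_eq_rpow]; exact hc.trans hsY) c hcle
    rw [← conv, hhalf, ← Real.sqrt_eq_rpow] at this
    refine this.trans ?_
    calc 40 / (1 / 2) * (√((2 * Y : ℕ) : ℝ) / h) * (1 / m) ≤ 80 * (√((2 * Y : ℕ) : ℝ) / 1) * (1 / 1) := by
          have e1 : (40 : ℝ) / (1 / 2) = 80 := by norm_num
          rw [e1]
          gcongr
      _ = _ := by ring
  have hs0 : 0 ≤ √((2 * Y : ℕ) : ℝ) := Real.sqrt_nonneg _
  rcases Nat.le_total b' (2 * Y / m) with h1 | h1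
  · have := first b' h1
    linarith
  · have hle : Y / m ≤ 2 * Y / m := Nat.div_le_div_right (by omega)
    have hsplit : ∑ l ∈ Ioc (Y / m) b', e (h * √((m * l : ℕ) : ℝ)) =
        ∑ l ∈ Ioc (Y / m) (2 * Y / m), e (h * √((m * l : ℕ) : ℝ)) +
        ∑ l ∈ Ioc (2 * Y / m) b', e (h * √((m * l : ℕ) : ℝ)) := by
      rw [← sum_union (by
        rw [disjoint_left]
        intro x hx hx'
        rw [mem_Ioc] at hx hx'
        omega), Ioc_union_Ioc_eq_Ioc hle h1]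
    rw [hsplit]
    refine (norm_add_le _ _).trans ?_
    have a1 := first _ le_rfl
    have a2 := second b' hb'
    linarith

/-- the sum over the smooth variable, with the weight `1` or `log` -/
lemma smooth_sum {Y h m : ℕ} (hh : 1 ≤ h) (hm : 1 ≤ m) (hmY : m ≤ Y) (hY3 : 1 ≤ Y) (hc : 4 * (h : ℝ) * m ≤ √(Y : ℝ))
    (g : ℕ → ℝ) (hg : (∀ l, g l = 1) ∨ (∀ l, g l = Real.log l)) :
    ‖∑ l ∈ Ioc (Y / m) (4 * Y / m), (g l : ℂ) * ((W (2 * Y) (m * l) : ℂ) * e (h * √((m * l : ℕ) : ℝ)))‖ ≤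
      640 * Real.log (4 * Y) ^ 2 * √((2 * Y : ℕ) : ℝ) := by
  have hYr : (1 : ℝ) ≤ Y := by exact_mod_cast hY3
  set L := Real.log (4 * Y) with hL
  have hL1 : 1 ≤ L := by
    have h1 : Real.log 4 ≤ L := Real.log_le_log (by norm_num) (by linarith)
    have h2 : Real.log 4 = 2 * Real.log 2 := by
      rw [show (4 : ℝ) = 2 ^ 2 by norm_num, Real.log_pow]; norm_num
    have := Real.log_two_gt_d9
    linarith
  have hm0 : 0 < m := hm
  have hlr : ∀ l : ℕ, l ≤ 4 * Y / m → Real.log (l : ℝ) ≤ L := by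
    intro l hl
    rcases Nat.eq_zero_or_pos l with h0 | h0
    · rw [h0]; simp; linarith
    · apply Real.log_le_log (by exact_mod_cast h0)
      have : l ≤ 4 * Y := hl.trans (Nat.div_le_self _ _)
      exact_mod_cast this
  have e1 : ∑ l ∈ Ioc (Y / m) (4 * Y / m), (g l : ℂ) * ((W (2 * Y) (m * l) : ℂ) * e (h * √((m * l : ℕ) : ℝ))) =
      ∑ l ∈ Ioc (Y / m) (4 * Y / m), ((g l * W (2 * Y) (m * l) : ℝ) : ℂ) * e (h * √((m * l : ℕ) : ℝ)) := by
    apply sum_congr rfl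
    intro l _
    push_cast
    ring
  rw [e1]
  have habs := abel_log (Y / m) (4 * Y / m) (fun l => g l * W (2 * Y) (m * l)) (fun l => e (h * √((m * l : ℕ) : ℝ)))
    (160 * √((2 * Y : ℕ) : ℝ)) L (3 * L) (by linarith) (by linarith) ?_ ?_
    (fun b' hb' => part_sum hh hm hmY hc b' hb')
  · refine habs.trans ?_
    have h2 := hlr _ le_rfl
    have hs0 : 0 ≤ √((2 * Y : ℕ) : ℝ) := Real.sqrt_nonneg _
    have h3 : L + 3 * L * Real.log ((4 * Y / m : ℕ) : ℝ) ≤ 4 * L ^ 2 := by nlinarith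
    calc (L + 3 * L * Real.log ((4 * Y / m : ℕ) : ℝ)) * (160 * √((2 * Y : ℕ) : ℝ)) ≤
          (4 * L ^ 2) * (160 * √((2 * Y : ℕ) : ℝ)) := mul_le_mul_of_nonneg_right h3 (by positivity)
      _ = _ := by ring
  · intro l hl
    rw [mem_Ioc] at hl
    rw [abs_mul, abs_of_nonneg (W_nonneg _ _)]
    have hW := W_le_one (2 * Y) (m * l)
    have hW0 := W_nonneg (2 * Y) (m * l)
    have hgl : |g l| ≤ L := by
      rcases hg with hg | hg
      · rw [hg]; simp; exact hL1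
      · rw [hg, abs_of_nonneg (Real.log_natCast_nonneg l)]
        exact hlr l hl.2
    calc |g l| * W (2 * Y) (m * l) ≤ L * 1 := mul_le_mul hgl hW hW0 (by linarith)
      _ = L := mul_one L
  · intro l hl1 hl2
    have hl0 : 1 ≤ l := lt_of_le_of_lt (Nat.zero_le _) hl1
    have hd := W_diff (Z := 2 * Y) hm hl0
    have h3 : 0 ≤ Real.log ((l + 1 : ℕ) : ℝ) - Real.log l := by
      rw [sub_nonneg]
      apply Real.log_le_log (by exact_mod_cast hl0)
      push_cast; linarith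
    have hW := W_le_one (2 * Y) (m * l)
    have hW0 := W_nonneg (2 * Y) (m * l)
    rcases hg with hg | hg
    · rw [hg, hg, one_mul, one_mul]
      refine hd.trans ?_
      nlinarith
    · rw [hg, hg]
      have e2 : Real.log ((l + 1 : ℕ) : ℝ) * W (2 * Y) (m * (l + 1)) - Real.log l * W (2 * Y) (m * l) =
          Real.log ((l + 1 : ℕ) : ℝ) * (W (2 * Y) (m * (l + 1)) - W (2 * Y) (m * l)) +
          (Real.log ((l + 1 : ℕ) : ℝ) - Real.log l) * W (2 * Y) (m * l) := by ring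
      rw [e2]
      refine (abs_add_le _ _).trans ?_
      rw [abs_mul, abs_mul, abs_of_nonneg (Real.log_natCast_nonneg _), abs_of_nonneg h3, abs_of_nonneg hW0]
      have h4 := hlr (l + 1) (by omega)
      have h5 : Real.log ((l + 1 : ℕ) : ℝ) * |W (2 * Y) (m * (l + 1)) - W (2 * Y) (m * l)| ≤
          L * (2 * (Real.log ((l + 1 : ℕ) : ℝ) - Real.log l)) :=
        mul_le_mul h4 hd (abs_nonneg _) (by linarith)
      have h6 : (Real.log ((l + 1 : ℕ) : ℝ) - Real.log l) * W (2 * Y) (m * l) ≤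
          (Real.log ((l + 1 : ℕ) : ℝ) - Real.log l) * 1 := mul_le_mul_of_nonneg_left hW h3
      nlinarith

end Pool.Agent.V5helper51.BH
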