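import Mathlib
import Pool.Agent.V5helper51.BH.Ty1

/-! The sum over the von Mangoldt function. -/

set_option autoImplicit false

namespace Pool.Agent.V5helper51.BH

open Finset
open Pool.Agent.H469R2.NK (e norm_e e_add e_zero)
open Pool.Agent.Helper112 (betaV LamII)
open Pool.Agent.Helper112.TI (mu1 l1 mu1_apply l1_apply)

/-- the weighted exponential -/
noncomputable def EE (Z h n : ℕ) : ℂ := (W Z n : ℂ) * e (h * √(n : ℝ))

lemma EE_zero {Y h n : ℕ} (hY : 1 ≤ Y) (hn : 1 ≤ n) (h1 : n ≤ Y ∨ 4 * Y ≤ n) : EE (2 * Y) h n = 0 := by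
  unfold EE
  rcases h1 with h1 | h1
  · rw [W_zero_low hn (by omega)]; simp
  · rw [W_zero_high (by omega) (by omega)]; simp

lemma conv_sum {Y D I : ℕ} (hY : 1 ≤ Y) (hD : 1 ≤ D) (hI : 4 * Y ≤ 2 ^ I) (a b : ℕ → ℂ)
    (ha : ∀ m, m ≤ D → a m = 0) (hb : ∀ l, l ≤ D → b l = 0) (h : ℕ) :
    ∑ m ∈ Icc 1 (4 * Y), ∑ l ∈ Ioc (Y / m) (4 * Y / m), a m * b l * EE (2 * Y) h (m * l) =
      ∑ m ∈ Ioc 1 (2 ^ I), ∑ l ∈ Ioc 1 (2 ^ I), a m * b l * EE (2 * Y) h (m * l) := by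
  apply sum_congr_of_eq_on_inter
  · intro m hm hm'
    rw [mem_Icc] at hm
    rw [mem_Ioc] at hm'
    rw [ha m (by omega)]
    simp
  · intro m hm hm'
    rw [mem_Ioc] at hm
    rw [mem_Icc] at hm'
    apply sum_eq_zero
    intro l hl
    rw [mem_Ioc] at hl
    have h1 : m * 1 ≤ m * l := Nat.mul_le_mul_left _ (by omega)
    rw [EE_zero hY (by omega) (by omega)]
    simp
  · intro m hm hm'
    rw [mem_Icc] at hm
    have hm0 : 0 < m := hm.1
    apply sum_congr_of_eq_on_inter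
    · intro l hl hl'
      rw [mem_Ioc] at hl hl'
      have h1 : 4 * Y / m ≤ 4 * Y := Nat.div_le_self _ _
      rw [hb l (by omega)]
      simp
    · intro l hl hl'
      rw [mem_Ioc] at hl hl'
      rw [Nat.div_lt_iff_lt_mul hm0, Nat.le_div_iff_mul_le hm0] at hl'
      have h1 : m * 1 ≤ m * l := Nat.mul_le_mul_left _ (by omega)
      rw [mul_comm l m] at hl'
      rw [EE_zero hY (by omega) (by omega)]
      simp
    · intro l _ _
      rfl

lemma betaV_zero {V m : ℕ} (h : m ≤ V) : betaV V m = 0 := by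
  unfold betaV
  apply sum_eq_zero
  intro d hd
  rw [mem_filter] at hd
  exfalso
  have := Nat.divisor_le hd.1
  omega

lemma betaV_abs (V m : ℕ) : |betaV V m| ≤ (m.divisors.card : ℝ) := by
  unfold betaV
  refine (abs_sum_le_sum_abs _ _).trans ?_
  calc ∑ e ∈ m.divisors.filter (fun e => V < e), |((ArithmeticFunction.moebius e : ℤ) : ℝ)| ≤
        ∑ e ∈ m.divisors.filter (fun e => V < e), (1 : ℝ) := by
        apply sum_le_sum
        intro d _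
        exact_mod_cast ArithmeticFunction.abs_moebius_le_one
    _ = (#(m.divisors.filter (fun e => V < e)) : ℝ) := by rw [sum_const, nsmul_eq_mul, mul_one]
    _ ≤ _ := by exact_mod_cast card_filter_le _ _

/-- the sum over one variable and over the frequencies, for the small values of the other one -/
lemma small_part {Y H D : ℕ} {P σ : ℝ} (hY : 1 ≤ Y) (hH : 1 ≤ H) (hσ : 23 ≤ σ) (hHσ : H * σ ≤ P)
    (hP : P ^ 4 = ((2 * Y : ℕ) : ℝ)) (hD : (D : ℝ) ≤ 2 * P) (hDY : D ≤ Y) (ω : ℕ → ℂ) (hω : ∀ h, ‖ω h‖ ≤ 1)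
    (c : ℕ → ℝ) (hc : ∀ m, 1 ≤ m → m ≤ D → |c m| ≤ Real.log (4 * Y)) (hc0 : ∀ m, D < m → c m = 0)
    (g : ℕ → ℝ) (hg : (∀ l, g l = 1) ∨ (∀ l, g l = Real.log l)) :
    ‖∑ h ∈ Ico H (2 * H), ω h * ∑ m ∈ Icc 1 (4 * Y), (c m : ℂ) * ∑ l ∈ Ioc (Y / m) (4 * Y / m),
      (g l : ℂ) * EE (2 * Y) h (m * l)‖ ≤ 1280 * Real.log (4 * Y) ^ 3 * (((2 * Y : ℕ) : ℝ) / σ) := by
  have hσ0 : 0 < σ := by linarith
  have hH0 : (1 : ℝ) ≤ H := by exact_mod_cast hH
  have hP0 : 0 < P := lt_of_lt_of_le (by positivity) hHσ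
  have hHP : (H : ℝ) ≤ P / σ := by rw [le_div_iff₀ hσ0]; exact hHσ
  have hYr : (1 : ℝ) ≤ Y := by exact_mod_cast hY
  set L := Real.log (4 * Y) with hL
  have hL0 : 0 ≤ L := Real.log_nonneg (by linarith)
  have hsq : √((2 * Y : ℕ) : ℝ) = P ^ 2 := by
    rw [← hP, show P ^ 4 = (P ^ 2) ^ 2 by ring, Real.sqrt_sq (by positivity)]
  have hin : ∀ h ∈ Ico H (2 * H), ∀ m ∈ Icc 1 D, ‖∑ l ∈ Ioc (Y / m) (4 * Y / m),
      (g l : ℂ) * EE (2 * Y) h (m * l)‖ ≤ 640 * L ^ 2 * P ^ 2 := by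
    intro h hh m hm
    rw [mem_Ico] at hh
    rw [mem_Icc] at hm
    rw [← hsq]
    apply smooth_sum (by omega) hm.1 (by omega) hY _ g hg
    have h1 : (h : ℝ) ≤ 2 * (P / σ) := by
      have : (h : ℝ) ≤ 2 * H := by exact_mod_cast hh.2.le
      linarith
    have h2 : (m : ℝ) ≤ 2 * P := le_trans (by exact_mod_cast hm.2) hD
    have h3 : 4 * (h : ℝ) * m ≤ 16 / 23 * P ^ 2 := by
      calc 4 * (h : ℝ) * m ≤ 4 * (2 * (P / σ)) * (2 * P) := by gcongr
        _ ≤ 4 * (2 * (P / 23)) * (2 * P) := by gcongr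
        _ = 16 / 23 * P ^ 2 := by ring
    refine h3.trans ?_
    apply Real.le_sqrt_of_sq_le
    have h4 : (Y : ℝ) = P ^ 4 / 2 := by
      rw [hP]; push_cast; ring
    rw [h4]
    have : 0 ≤ P ^ 4 := by positivity
    nlinarith
  have hcut : ∀ h ∈ Ico H (2 * H), ∑ m ∈ Icc 1 (4 * Y), (c m : ℂ) * ∑ l ∈ Ioc (Y / m) (4 * Y / m),
      (g l : ℂ) * EE (2 * Y) h (m * l) = ∑ m ∈ Icc 1 D, (c m : ℂ) * ∑ l ∈ Ioc (Y / m) (4 * Y / m),
      (g l : ℂ) * EE (2 * Y) h (m * l) := by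
    intro h _
    symm
    apply sum_subset
    · intro m hm
      rw [mem_Icc] at hm ⊢
      omega
    · intro m hm hm'
      rw [mem_Icc] at hm hm'
      rw [hc0 m (by omega)]
      simp
  rw [sum_congr rfl (fun h hh => by rw [hcut h hh])]
  calc ‖∑ h ∈ Ico H (2 * H), ω h * ∑ m ∈ Icc 1 D, (c m : ℂ) * ∑ l ∈ Ioc (Y / m) (4 * Y / m),
      (g l : ℂ) * EE (2 * Y) h (m * l)‖ ≤ ∑ h ∈ Ico H (2 * H), 1 * ∑ m ∈ Icc 1 D, L * (640 * L ^ 2 * P ^ 2) := by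
        refine (norm_sum_le _ _).trans (sum_le_sum fun h hh => ?_)
        rw [norm_mul]
        apply mul_le_mul (hω h) _ (norm_nonneg _) (by norm_num)
        refine (norm_sum_le _ _).trans (sum_le_sum fun m hm => ?_)
        rw [norm_mul, Complex.norm_real, Real.norm_eq_abs]
        have hm2 := mem_Icc.1 hm
        exact mul_le_mul (hc m hm2.1 hm2.2) (hin h hh m hm) (norm_nonneg _) hL0
    _ = (H : ℝ) * D * (640 * L ^ 3 * P ^ 2) := by
        rw [sum_const, sum_const, Nat.card_Ico, Nat.card_Icc, nsmul_eq_mul, nsmul_eq_mul,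
          show 2 * H - H = H by omega, show D + 1 - 1 = D by omega]
        ring
    _ ≤ (P / σ) * (2 * P) * (640 * L ^ 3 * P ^ 2) := by gcongr
    _ = 1280 * L ^ 3 * (P ^ 4 / σ) := by ring
    _ = _ := by rw [hP]

/-- the sum over the von Mangoldt function -/
theorem vau {Y H D I : ℕ} {P σ A : ℝ} (hY : 1 ≤ Y) (hH : 1 ≤ H) (hσ : 23 ≤ σ) (hHσ : H * σ ≤ P)
    (hP : P ^ 4 = ((2 * Y : ℕ) : ℝ)) (hPD : P ≤ D) (hD : (D : ℝ) ≤ 2 * P) (hDY : D ^ 3 ≤ Y) (hI : 4 * Y ≤ 2 ^ I)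
    (hA : ∀ m, 1 ≤ m → m ≤ 4 * Y → (m.divisors.card : ℝ) ≤ A) (ω : ℕ → ℂ) (hω : ∀ h, ‖ω h‖ ≤ 1) :
    ‖∑ h ∈ Ico H (2 * H), ω h * ∑ n ∈ Ioc Y (4 * Y), ((ArithmeticFunction.vonMangoldt n : ℝ) : ℂ) * EE (2 * Y) h n‖ ≤
      (I : ℝ) ^ 2 * (1700 * ((A + 1) * Real.log (4 * Y)) * (((2 * Y : ℕ) : ℝ) / √σ)) +
      2 * (1280 * Real.log (4 * Y) ^ 3 * (((2 * Y : ℕ) : ℝ) / σ)) := by
  classical
  have hσ0 : 0 < σ := by linarith
  have hσ1 : 1 ≤ σ := by linarith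
  have hH0 : (1 : ℝ) ≤ H := by exact_mod_cast hH
  have hP0 : 0 < P := lt_of_lt_of_le (by positivity) hHσ
  have hD1 : 1 ≤ D := by
    by_contra hc
    have : D = 0 := by omega
    rw [this] at hPD
    norm_num at hPD
    linarith
  have hDD : D ≤ D ^ 3 := Nat.le_self_pow (by norm_num) D
  have hDY1 : D ≤ Y := hDD.trans hDY
  have hYr : (1 : ℝ) ≤ Y := by exact_mod_cast hY
  have hZ1 : 1 ≤ 2 * Y := by omega
  set L := Real.log (4 * Y) with hL
  have hL1 : 1 ≤ L := by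
    have h1 : Real.log 4 ≤ L := Real.log_le_log (by norm_num) (by linarith)
    have h2 : Real.log 4 = 2 * Real.log 2 := by
      rw [show (4 : ℝ) = 2 ^ 2 by norm_num, Real.log_pow]; norm_num
    have := Real.log_two_gt_d9
    linarith
  have hA0 : 0 ≤ A := le_trans (Nat.cast_nonneg _) (hA 1 le_rfl (by omega))
  have hlogm : ∀ m : ℕ, m ≤ 4 * Y → Real.log (m : ℝ) ≤ L := by
    intro m hm
    rcases Nat.eq_zero_or_pos m with h0 | h0
    · rw [h0]; simp; linarith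
    · apply Real.log_le_log (by exact_mod_cast h0)
      exact_mod_cast hm
  -- Vaughan
  have hv : ∀ h, ∑ n ∈ Ioc Y (4 * Y), ((ArithmeticFunction.vonMangoldt n : ℝ) : ℂ) * EE (2 * Y) h n = _ := fun h =>
    Pool.Agent.H373R2.T3.vaughan_sum D D Y (4 * Y) hDY1 (EE (2 * Y) h)
  set a1 : ℕ → ℂ := fun m => if D < m ∧ m ≤ 4 * Y then ((betaV D m : ℝ) : ℂ) else 0 with ha1
  set b1 : ℕ → ℂ := fun l => if D < l ∧ l ≤ 4 * Y then ((ArithmeticFunction.vonMangoldt l : ℝ) : ℂ) else 0 with hb1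
  set a3 : ℕ → ℂ := fun m => if D < m ∧ m ≤ 4 * Y then (((mu1 D * l1 D) m : ℝ) : ℂ) else 0 with ha3
  set b3 : ℕ → ℂ := fun l => if D < l then 1 else 0 with hb3
  set c3 : ℕ → ℝ := fun m => if m ≤ D then (mu1 D * l1 D) m else 0 with hc3
  -- the three parts
  have p1 : ∀ h, ∑ m ∈ Icc 1 (4 * Y), ∑ l ∈ Ioc (Y / m) (4 * Y / m), ((betaV D m : ℝ) : ℂ) *
      (((if D < l then ArithmeticFunction.vonMangoldt l else 0 : ℝ)) : ℂ) * EE (2 * Y) h (m * l) =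
      ∑ m ∈ Ioc 1 (2 ^ I), ∑ l ∈ Ioc 1 (2 ^ I), a1 m * b1 l * EE (2 * Y) h (m * l) := by
    intro h
    rw [← conv_sum hY hD1 hI a1 b1 (fun m hm => by simp only [ha1]; rw [if_neg (by omega)])
      (fun l hl => by simp only [hb1]; rw [if_neg (by omega)]) h]
    apply sum_congr rfl
    intro m hm
    rw [mem_Icc] at hm
    apply sum_congr rfl
    intro l hl
    rw [mem_Ioc] at hl
    have hl2 : l ≤ 4 * Y := hl.2.trans (Nat.div_le_self _ _)
    simp only [ha1, hb1]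
    by_cases h1 : D < m
    · by_cases h2 : D < l
      · simp [h1, h2, hm.2, hl2]
      · simp [h1, h2]
    · rw [betaV_zero (by omega)]
      simp [h1]
  have p3 : ∀ h, ∑ m ∈ Icc 1 (4 * Y), (((mu1 D * l1 D) m : ℝ) : ℂ) * ∑ l ∈ Ioc (Y / m) (4 * Y / m), EE (2 * Y) h (m * l) =
      ∑ m ∈ Icc 1 (4 * Y), (c3 m : ℂ) * ∑ l ∈ Ioc (Y / m) (4 * Y / m), ((1 : ℝ) : ℂ) * EE (2 * Y) h (m * l) +
      ∑ m ∈ Ioc 1 (2 ^ I), ∑ l ∈ Ioc 1 (2 ^ I), a3 m * b3 l * EE (2 * Y) h (m * l) := by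
    intro h
    rw [← conv_sum hY hD1 hI a3 b3 (fun m hm => by simp only [ha3]; rw [if_neg (by omega)])
      (fun l hl => by simp only [hb3]; rw [if_neg (by omega)]) h, ← sum_add_distrib]
    apply sum_congr rfl
    intro m hm
    rw [mem_Icc] at hm
    have hm0 : 0 < m := hm.1
    by_cases h1 : D < m
    · have e1 : c3 m = 0 := by simp only [hc3]; rw [if_neg (by omega)]
      have e2 : a3 m = (((mu1 D * l1 D) m : ℝ) : ℂ) := by simp only [ha3]; rw [if_pos ⟨h1, hm.2⟩]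
      rw [e1, e2, Complex.ofReal_zero, zero_mul, zero_add, mul_sum]
      apply sum_congr rfl
      intro l hl
      rw [mem_Ioc] at hl
      simp only [hb3]
      by_cases h2 : D < l
      · rw [if_pos h2, mul_one]
      · rw [if_neg h2, mul_zero, zero_mul]
        by_cases h3 : m ≤ D * D
        · have h4 : m * l ≤ Y := by
            calc m * l ≤ (D * D) * D := Nat.mul_le_mul h3 (by omega)
              _ = D ^ 3 := by ring
              _ ≤ Y := hDY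
          have h5 : 1 ≤ m * l := Nat.mul_pos hm0 (lt_of_le_of_lt (Nat.zero_le _) hl.1)
          rw [EE_zero hY h5 (Or.inl h4), mul_zero]
        · rw [Pool.Agent.H373R2.T3.conv_zero D D m (by omega)]
          simp
    · have e1 : c3 m = (mu1 D * l1 D) m := by simp only [hc3]; rw [if_pos (by omega)]
      have e2 : a3 m = 0 := by simp only [ha3]; rw [if_neg (by tauto)]
      rw [e1, e2]
      simp
  -- bounds
  have q1 := bil (I := I) hZ1 hH hσ1 hHσ hP hPD ω a1 b1 A L hA0 (by linarith) hω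
    (fun m hm => by simp only [ha1]; rw [if_neg (by omega)])
    (fun l hl => by simp only [hb1]; rw [if_neg (by omega)])
    (fun m hm => by
      simp only [ha1]
      split_ifs with h1
      · rw [Complex.norm_real, Real.norm_eq_abs]
        exact (betaV_abs D m).trans (hA m (by omega) h1.2)
      · rw [norm_zero]; exact hA0)
    (fun l hl => by
      simp only [hb1]
      split_ifs with h1
      · rw [Complex.norm_real, Real.norm_of_nonneg ArithmeticFunction.vonMangoldt_nonneg]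
        exact ArithmeticFunction.vonMangoldt_le_log.trans (hlogm l h1.2)
      · rw [norm_zero]; linarith)
  have q3 := bil (I := I) hZ1 hH hσ1 hHσ hP hPD ω a3 b3 L 1 (by linarith) (by norm_num) hω
    (fun m hm => by simp only [ha3]; rw [if_neg (by omega)])
    (fun l hl => by simp only [hb3]; rw [if_neg (by omega)])
    (fun m hm => by
      simp only [ha3]
      split_ifs with h1
      · rw [Complex.norm_real, Real.norm_eq_abs]
        exact (Pool.Agent.H373R2.T3.conv_abs_le D D m (by omega)).trans (hlogm m h1.2)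
      · rw [norm_zero]; linarith)
    (fun l hl => by
      simp only [hb3]
      split_ifs with h1
      · rw [norm_one]
      · rw [norm_zero]; norm_num)
  have r2 := small_part hY hH hσ hHσ hP hD hDY1 ω hω (fun m => mu1 D m)
    (fun m hm1 hm2 => by
      rw [mu1_apply, if_pos hm2]
      have : |((ArithmeticFunction.moebius m : ℤ) : ℝ)| ≤ 1 := by exact_mod_cast ArithmeticFunction.abs_moebius_le_one
      linarith)
    (fun m hm => by rw [mu1_apply, if_neg (by omega)]) (fun l => Real.log l) (Or.inr fun _ => rfl)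
  have r3 := small_part hY hH hσ hHσ hP hD hDY1 ω hω c3
    (fun m hm1 hm2 => by
      simp only [hc3]
      rw [if_pos hm2]
      exact (Pool.Agent.H373R2.T3.conv_abs_le D D m hm1).trans (hlogm m (by omega)))
    (fun m hm => by simp only [hc3]; rw [if_neg (by omega)]) (fun _ => (1 : ℝ)) (Or.inl fun _ => rfl)
  have hsplit : ∑ h ∈ Ico H (2 * H), ω h * ∑ n ∈ Ioc Y (4 * Y), ((ArithmeticFunction.vonMangoldt n : ℝ) : ℂ) * EE (2 * Y) h n =
      ∑ h ∈ Ico H (2 * H), ∑ m ∈ Ioc 1 (2 ^ I), ∑ l ∈ Ioc 1 (2 ^ I), ω h * (a1 m * b1 l *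
        ((W (2 * Y) (m * l) : ℂ) * e (h * √((m * l : ℕ) : ℝ)))) +
      ∑ h ∈ Ico H (2 * H), ω h * ∑ m ∈ Icc 1 (4 * Y), ((mu1 D m : ℝ) : ℂ) * ∑ l ∈ Ioc (Y / m) (4 * Y / m),
        ((Real.log l : ℝ) : ℂ) * EE (2 * Y) h (m * l) -
      (∑ h ∈ Ico H (2 * H), ω h * ∑ m ∈ Icc 1 (4 * Y), (c3 m : ℂ) * ∑ l ∈ Ioc (Y / m) (4 * Y / m),
        ((1 : ℝ) : ℂ) * EE (2 * Y) h (m * l) +
      ∑ h ∈ Ico H (2 * H), ∑ m ∈ Ioc 1 (2 ^ I), ∑ l ∈ Ioc 1 (2 ^ I), ω h * (a3 m * b3 l *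
        ((W (2 * Y) (m * l) : ℂ) * e (h * √((m * l : ℕ) : ℝ))))) := by
    rw [← sum_add_distrib, ← sum_add_distrib, ← sum_sub_distrib]
    apply sum_congr rfl
    intro h _
    rw [hv h, p1 h, p3 h]
    have e1 : ∀ a b : ℕ → ℂ, ∑ m ∈ Ioc 1 (2 ^ I), ∑ l ∈ Ioc 1 (2 ^ I), ω h * (a m * b l *
        ((W (2 * Y) (m * l) : ℂ) * e (h * √((m * l : ℕ) : ℝ)))) =
        ω h * ∑ m ∈ Ioc 1 (2 ^ I), ∑ l ∈ Ioc 1 (2 ^ I), a m * b l * EE (2 * Y) h (m * l) := by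
      intro a b
      rw [mul_sum]
      refine sum_congr rfl fun m _ => ?_
      rw [mul_sum]
      refine sum_congr rfl fun l _ => ?_
      rfl
    rw [e1, e1]
    ring
  rw [hsplit]
  refine (norm_sub_le _ _).trans ?_
  have t1 := norm_add_le (∑ h ∈ Ico H (2 * H), ∑ m ∈ Ioc 1 (2 ^ I), ∑ l ∈ Ioc 1 (2 ^ I), ω h * (a1 m * b1 l *
        ((W (2 * Y) (m * l) : ℂ) * e (h * √((m * l : ℕ) : ℝ)))))
      (∑ h ∈ Ico H (2 * H), ω h * ∑ m ∈ Icc 1 (4 * Y), ((mu1 D m : ℝ) : ℂ) * ∑ l ∈ Ioc (Y / m) (4 * Y / m),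
        ((Real.log l : ℝ) : ℂ) * EE (2 * Y) h (m * l))
  have t2 := norm_add_le (∑ h ∈ Ico H (2 * H), ω h * ∑ m ∈ Icc 1 (4 * Y), (c3 m : ℂ) * ∑ l ∈ Ioc (Y / m) (4 * Y / m),
        ((1 : ℝ) : ℂ) * EE (2 * Y) h (m * l))
      (∑ h ∈ Ico H (2 * H), ∑ m ∈ Ioc 1 (2 ^ I), ∑ l ∈ Ioc 1 (2 ^ I), ω h * (a3 m * b3 l *
        ((W (2 * Y) (m * l) : ℂ) * e (h * √((m * l : ℕ) : ℝ)))))
  have e9 : (I : ℝ) ^ 2 * (1700 * ((A + 1) * L) * (((2 * Y : ℕ) : ℝ) / √σ)) =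
      (I : ℝ) ^ 2 * (1700 * (A * L) * (((2 * Y : ℕ) : ℝ) / √σ)) +
      (I : ℝ) ^ 2 * (1700 * (L * 1) * (((2 * Y : ℕ) : ℝ) / √σ)) := by ring
  rw [e9]
  linarith

end Pool.Agent.V5helper51.BH
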