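import Mathlib
import Pool.Agent.H373R2.T4.DivB
import Pool.Agent.V5helper51.BH.Vau

/-! The estimate for the exponential sums over primes on average over the frequencies. -/

set_option autoImplicit false

namespace Pool.Agent.V5helper51.BH

open Finset Filter
open Pool.Agent.H469R2.NK (e norm_e e_add e_zero)

theorem bh (ε : ℝ) (hε : 0 < ε) : ∃ Y0 : ℕ, ∀ Y : ℕ, Y0 ≤ Y → ∀ H : ℕ, 1 ≤ H →
    (H : ℝ) ≤ ((2 * Y : ℕ) : ℝ) ^ (1 / 4 - ε) → ∀ ω : ℕ → ℂ, (∀ h, ‖ω h‖ ≤ 1) →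
    ‖∑ h ∈ Ico H (2 * H), ω h * ∑ n ∈ Ioc Y (4 * Y), ((ArithmeticFunction.vonMangoldt n : ℝ) : ℂ) * EE (2 * Y) h n‖ ≤
      ((2 * Y : ℕ) : ℝ) ^ (1 - ε / 4) := by
  obtain ⟨C, hC1, hC⟩ := Pool.Agent.H373R2.T4.DivB.div_bound (δ := ε / 16) (by positivity)
  obtain ⟨K, hK⟩ : ∃ K : ℝ, K = 1000000 * C := ⟨_, rfl⟩
  have hK0 : 1 ≤ K := by rw [hK]; linarith
  have hC0 : 0 ≤ C := by linarith
  -- eventually
  have ev1 : ∀ᶠ x : ℝ in atTop, Real.log x ≤ x ^ (ε / 96) := by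
    have h1 := (isLittleO_log_rpow_atTop (show 0 < ε / 96 by positivity)).bound (show (0 : ℝ) < 1 by norm_num)
    filter_upwards [h1, eventually_ge_atTop 1] with x hx hx1
    rw [Real.norm_of_nonneg (Real.log_nonneg hx1), Real.norm_of_nonneg (by positivity), one_mul] at hx
    exact hx
  have ev2 : ∀ᶠ x : ℝ in atTop, 8 * K ≤ x ^ (ε / 32) :=
    (tendsto_rpow_atTop (by positivity)).eventually_ge_atTop _
  have ev3 : ∀ᶠ x : ℝ in atTop, 23 ≤ x ^ ε := (tendsto_rpow_atTop hε).eventually_ge_atTop _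
  have ev4 : ∀ᶠ x : ℝ in atTop, (16 : ℝ) ≤ x ^ (1 / 4 : ℝ) := (tendsto_rpow_atTop (by norm_num)).eventually_ge_atTop _
  obtain ⟨X1, hX1⟩ := eventually_atTop.1 (ev1.and (ev2.and (ev3.and ev4)))
  refine ⟨⌈X1⌉₊ + 1, ?_⟩
  intro Y hY H hH hHle ω hω
  have hY1 : 1 ≤ Y := by omega
  have hYr : (1 : ℝ) ≤ Y := by exact_mod_cast hY1
  obtain ⟨Z, hZ⟩ : ∃ Z : ℝ, Z = ((2 * Y : ℕ) : ℝ) := ⟨_, rfl⟩
  have hZ2 : Z = 2 * Y := by rw [hZ]; push_cast; ring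
  have hX1Y : X1 ≤ Y := (Nat.le_ceil _).trans (by exact_mod_cast (by omega : ⌈X1⌉₊ ≤ Y))
  have hX1Z : X1 ≤ Z := by rw [hZ2]; linarith
  have hX1Z2 : X1 ≤ 2 * Z := by rw [hZ2]; linarith
  have hZ1 : 1 ≤ Z := by rw [hZ2]; linarith
  have hZ0 : 0 < Z := by linarith
  have hlog := (hX1 (2 * Z) hX1Z2).1
  have hKZ := (hX1 Z hX1Z).2.1
  have hσ := (hX1 Z hX1Z).2.2.1
  have hP16 := (hX1 Z hX1Z).2.2.2
  rw [← hZ] at hHle ⊢
  obtain ⟨P, hP⟩ : ∃ P : ℝ, P = Z ^ (1 / 4 : ℝ) := ⟨_, rfl⟩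
  obtain ⟨σ, hσd⟩ : ∃ σ : ℝ, σ = Z ^ ε := ⟨_, rfl⟩
  rw [← hP] at hP16
  rw [← hσd] at hσ
  have hP4 : P ^ 4 = Z := by
    rw [hP, ← Real.rpow_natCast, ← Real.rpow_mul hZ0.le]; norm_num
  have hHσ : H * σ ≤ P := by
    calc H * σ ≤ Z ^ (1 / 4 - ε) * Z ^ ε := by rw [hσd]; gcongr
      _ = P := by rw [← Real.rpow_add hZ0, hP]; congr 1; ring
  obtain ⟨D, hD⟩ : ∃ D : ℕ, D = ⌈P⌉₊ := ⟨_, rfl⟩
  have hPD : P ≤ D := by rw [hD]; exact Nat.le_ceil _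
  have hD2 : (D : ℝ) ≤ 2 * P := by
    have := Nat.ceil_lt_add_one (show 0 ≤ P by linarith)
    rw [← hD] at this
    linarith
  have hD3 : D ^ 3 ≤ Y := by
    have h1 : (D : ℝ) ^ 3 ≤ Y := by
      calc (D : ℝ) ^ 3 ≤ (2 * P) ^ 3 := by gcongr
        _ = 8 * P ^ 3 := by ring
        _ ≤ P / 2 * P ^ 3 := by
            have : 0 ≤ P ^ 3 := by positivity
            nlinarith
        _ = P ^ 4 / 2 := by ring
        _ = Y := by rw [hP4, hZ2]; ring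
    exact_mod_cast h1
  obtain ⟨I, hI⟩ : ∃ I : ℕ, I = Nat.log 2 (4 * Y) + 1 := ⟨_, rfl⟩
  have hI2 : 4 * Y ≤ 2 ^ I := by rw [hI]; exact (Nat.lt_pow_succ_log_self (by norm_num) _).le
  set L := Real.log (4 * Y) with hL
  have hL1 : 1 ≤ L := by
    have h1 : Real.log 4 ≤ L := Real.log_le_log (by norm_num) (by linarith)
    have h2 : Real.log 4 = 2 * Real.log 2 := by
      rw [show (4 : ℝ) = 2 ^ 2 by norm_num, Real.log_pow]; norm_num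
    have := Real.log_two_gt_d9
    linarith
  have hIL : (I : ℝ) ≤ 3 * L := by
    have h1 : (Nat.log 2 (4 * Y) : ℝ) * Real.log 2 ≤ L := by
      rw [← Real.log_pow]
      apply Real.log_le_log (by positivity)
      have := Nat.pow_log_le_self 2 (show 4 * Y ≠ 0 by omega)
      exact_mod_cast this
    have h2 := Real.log_two_gt_d9
    have h3 : (Nat.log 2 (4 * Y) : ℝ) ≤ 2 * L := by nlinarith [Nat.cast_nonneg (α := ℝ) (Nat.log 2 (4 * Y))]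
    rw [hI]
    push_cast
    linarith
  have hLe : L ≤ 2 * Z ^ (ε / 96) := by
    have h1 : (4 * (Y : ℝ)) = 2 * Z := by rw [hZ2]; ring
    rw [hL, h1]
    refine hlog.trans ?_
    rw [Real.mul_rpow (by norm_num) hZ0.le]
    apply mul_le_mul_of_nonneg_right _ (by positivity)
    rcases le_total ε 96 with h2 | h2
    · calc (2 : ℝ) ^ (ε / 96) ≤ 2 ^ (1 : ℝ) := Real.rpow_le_rpow_of_exponent_le (by norm_num) (by linarith)
        _ = 2 := Real.rpow_one 2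
    · -- `H ≥ 1` forces `ε ≤ 1/4`
      exfalso
      have h3 : (1 : ℝ) ≤ Z ^ (1 / 4 - ε) := le_trans (by exact_mod_cast hH) hHle
      have h4 : Z ^ (1 / 4 - ε) < 1 := by
        apply Real.rpow_lt_one_of_one_lt_of_neg
        · rw [hZ2]; linarith
        · linarith
      linarith
  have hε4 : ε ≤ 1 / 4 := by
    by_contra hc
    push Not at hc
    have h3 : (1 : ℝ) ≤ Z ^ (1 / 4 - ε) := le_trans (by exact_mod_cast hH) hHle
    have h4 : Z ^ (1 / 4 - ε) < 1 := by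
      apply Real.rpow_lt_one_of_one_lt_of_neg
      · rw [hZ2]; linarith
      · linarith
    linarith
  obtain ⟨A, hA⟩ : ∃ A : ℝ, A = C * (4 * Y : ℝ) ^ (ε / 16) := ⟨_, rfl⟩
  have hA0 : 0 ≤ A := by rw [hA]; positivity
  have hAd : ∀ m, 1 ≤ m → m ≤ 4 * Y → (m.divisors.card : ℝ) ≤ A := by
    intro m hm1 hm2
    refine (hC m (by omega)).trans ?_
    rw [hA]
    apply mul_le_mul_of_nonneg_left _ (by linarith)
    apply Real.rpow_le_rpow (Nat.cast_nonneg _) _ (by positivity)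
    exact_mod_cast hm2
  have hv := vau (D := D) (I := I) hY1 hH hσ hHσ (by rw [hP4, hZ]) hPD hD2 hD3 hI2 hAd ω hω
  rw [← hL, ← hZ] at hv
  refine hv.trans ?_
  have hAZ : A + 1 ≤ 4 * C * Z ^ (ε / 16) := by
    have h1 : (4 * Y : ℝ) = 2 * Z := by rw [hZ2]; ring
    have h2 : (2 : ℝ) ^ (ε / 16) ≤ 2 := by
      calc (2 : ℝ) ^ (ε / 16) ≤ 2 ^ (1 : ℝ) := Real.rpow_le_rpow_of_exponent_le (by norm_num) (by linarith)
        _ = 2 := Real.rpow_one 2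
    have h3 : 1 ≤ Z ^ (ε / 16) := Real.one_le_rpow hZ1 (by positivity)
    rw [hA, h1, Real.mul_rpow (by norm_num) hZ0.le]
    have h4 : C * (2 ^ (ε / 16) * Z ^ (ε / 16)) ≤ C * (2 * Z ^ (ε / 16)) := by gcongr
    nlinarith
  have hsq : √σ = Z ^ (ε / 2) := by
    rw [hσd, Real.sqrt_eq_rpow, ← Real.rpow_mul hZ0.le]
    congr 1; ring
  have hL3 : L ^ 3 ≤ 8 * Z ^ (ε / 32) := by
    calc L ^ 3 ≤ (2 * Z ^ (ε / 96)) ^ 3 := by gcongr
      _ = 8 * (Z ^ (ε / 96)) ^ 3 := by ring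
      _ = 8 * Z ^ (ε / 32) := by
          rw [← Real.rpow_natCast, ← Real.rpow_mul hZ0.le]
          congr 2
          push_cast; ring
  have hq0 : 0 < Z ^ (ε / 16) := by positivity
  have hLn : 0 ≤ L := by linarith
  have hZσ : Z / σ ≤ Z / √σ := by
    apply div_le_div_of_nonneg_left hZ0.le (Real.sqrt_pos.2 (by linarith))
    rw [Real.sqrt_le_left (by linarith)]
    nlinarith
  have hq1 : 1 ≤ Z ^ (ε / 16) := Real.one_le_rpow hZ1 (by positivity)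
  have hbound1 : (I : ℝ) ^ 2 * (1700 * ((A + 1) * L) * (Z / √σ)) ≤ 61200 * C * (L ^ 3 * (Z ^ (ε / 16) * (Z / √σ))) := by
    calc (I : ℝ) ^ 2 * (1700 * ((A + 1) * L) * (Z / √σ)) ≤
          (3 * L) ^ 2 * (1700 * ((4 * C * Z ^ (ε / 16)) * L) * (Z / √σ)) := by gcongr
      _ = _ := by ring
  have hbound2 : 2 * (1280 * L ^ 3 * (Z / σ)) ≤ 2560 * C * (L ^ 3 * (Z ^ (ε / 16) * (Z / √σ))) := by
    calc 2 * (1280 * L ^ 3 * (Z / σ)) ≤ 2 * (1280 * L ^ 3 * (Z / √σ)) := by gcongr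
      _ = 2560 * (1 * (L ^ 3 * (1 * (Z / √σ)))) := by ring
      _ ≤ 2560 * (C * (L ^ 3 * (Z ^ (ε / 16) * (Z / √σ)))) := by gcongr
      _ = _ := by ring
  have hX0 : 0 ≤ L ^ 3 * (Z ^ (ε / 16) * (Z / √σ)) := by positivity
  calc (I : ℝ) ^ 2 * (1700 * ((A + 1) * L) * (Z / √σ)) + 2 * (1280 * L ^ 3 * (Z / σ)) ≤
        61200 * C * (L ^ 3 * (Z ^ (ε / 16) * (Z / √σ))) + 2560 * C * (L ^ 3 * (Z ^ (ε / 16) * (Z / √σ))) :=
        add_le_add hbound1 hbound2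
    _ ≤ K * (L ^ 3 * (Z ^ (ε / 16) * (Z / √σ))) := by rw [hK]; nlinarith
    _ ≤ K * ((8 * Z ^ (ε / 32)) * (Z ^ (ε / 16) * (Z / √σ))) := by gcongr
    _ = (8 * K) * (Z ^ (ε / 32) * (Z ^ (ε / 16) * (Z / √σ))) := by ring
    _ ≤ Z ^ (ε / 32) * (Z ^ (ε / 32) * (Z ^ (ε / 16) * (Z / √σ))) := by gcongr
    _ = Z ^ (1 - 3 * ε / 8) := by
        have h1 : Z / √σ = Z ^ (1 - ε / 2) := by rw [hsq, Real.rpow_sub hZ0, Real.rpow_one]
        rw [h1, ← Real.rpow_add hZ0, ← Real.rpow_add hZ0, ← Real.rpow_add hZ0]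
        congr 1; ring
    _ ≤ Z ^ (1 - ε / 4) := by
        apply Real.rpow_le_rpow_of_exponent_le hZ1
        linarith

end Pool.Agent.V5helper51.BH
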