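import Mathlib
import Pool.Agent.N792.Tri

/-! A trigonometric minorant of a short interval. -/

set_option autoImplicit false

namespace Pool.Agent.V5helper51.BH

open Finset

namespace Mi

/-- autocorrelation -/
noncomputable def rr (p : ℕ → ℝ) (L h : ℕ) : ℝ := ∑ m ∈ range (L - h), p m * p (m + h)

lemma rr_succ (p : ℕ → ℝ) {L h : ℕ} (h1 : h ≤ L) : rr p (L + 1) h = rr p L h + p (L - h) * p L := by
  unfold rr
  have e1 : L + 1 - h = (L - h) + 1 := by omega
  rw [e1, sum_range_succ]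
  congr 2
  congr 1
  omega

lemma auto (p F : ℕ → ℝ) (L : ℕ) :
    ∑ m ∈ range L, ∑ n ∈ range L, p m * p n * F ((m : ℤ) - n).natAbs =
      rr p L 0 * F 0 + 2 * ∑ h ∈ Ico 1 L, rr p L h * F h := by
  induction L with
  | zero => simp [rr]
  | succ L ih =>
    have e1 : ∑ m ∈ range (L + 1), ∑ n ∈ range (L + 1), p m * p n * F ((m : ℤ) - n).natAbs =
        ∑ m ∈ range L, ∑ n ∈ range L, p m * p n * F ((m : ℤ) - n).natAbs +
        2 * ∑ m ∈ range L, p m * p L * F (L - m) + p L * p L * F 0 := by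
      rw [sum_range_succ]
      have a1 : ∑ m ∈ range L, ∑ n ∈ range (L + 1), p m * p n * F ((m : ℤ) - n).natAbs =
          ∑ m ∈ range L, ∑ n ∈ range L, p m * p n * F ((m : ℤ) - n).natAbs + ∑ m ∈ range L, p m * p L * F (L - m) := by
        rw [← sum_add_distrib]
        apply sum_congr rfl
        intro m hm
        rw [mem_range] at hm
        rw [sum_range_succ]
        congr 3
        omega
      have a2 : ∑ n ∈ range (L + 1), p L * p n * F ((L : ℤ) - n).natAbs =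
          ∑ m ∈ range L, p m * p L * F (L - m) + p L * p L * F 0 := by
        rw [sum_range_succ]
        congr 1
        · apply sum_congr rfl
          intro m hm
          rw [mem_range] at hm
          have : ((L : ℤ) - m).natAbs = L - m := by omega
          rw [this]
          ring
        · simp
      rw [a1, a2]
      ring
    rw [e1, ih, rr_succ p (Nat.zero_le L), Nat.sub_zero]
    have e2 : ∑ h ∈ Ico 1 (L + 1), rr p (L + 1) h * F h =
        ∑ h ∈ Ico 1 L, rr p L h * F h + ∑ m ∈ range L, p m * p L * F (L - m) := by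
      have b1 : ∑ h ∈ Ico 1 (L + 1), rr p (L + 1) h * F h =
          ∑ h ∈ Ico 1 (L + 1), (rr p L h * F h + p (L - h) * p L * F h) := by
        apply sum_congr rfl
        intro h hh
        rw [mem_Ico] at hh
        rw [rr_succ p (by omega)]
        ring
      rw [b1, sum_add_distrib]
      congr 1
      · rcases Nat.eq_zero_or_pos L with h0 | h0
        · subst h0; simp
        · rw [sum_Ico_succ_top (by omega)]
          have : rr p L L = 0 := by unfold rr; simp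
          rw [this]
          ring
      · apply sum_nbij' (fun h => L - h) (fun m => L - m)
        · intro h hh
          rw [mem_Ico] at hh
          rw [mem_range]
          omega
        · intro m hm
          rw [mem_range] at hm
          rw [mem_Ico]
          omega
        · intro h hh
          rw [mem_Ico] at hh
          omega
        · intro m hm
          rw [mem_range] at hm
          omega
        · intro h hh
          rw [mem_Ico] at hh
          have : L - (L - h) = h := by omega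
          rw [this]
    rw [e2]
    ring

lemma shift (r : ℕ → ℝ) (α : ℝ) (N : ℕ) :
    ∑ h ∈ Icc 1 N, r h * (Real.cos ((h + 1) * α) + Real.cos ((h - 1) * α)) =
      r 1 + ∑ k ∈ Icc 1 N, (r (k - 1) + r (k + 1)) * Real.cos (k * α) - r 0 * Real.cos α +
        r N * Real.cos ((N + 1) * α) - r (N + 1) * Real.cos (N * α) := by
  induction N with
  | zero => simp
  | succ N ih =>
    rw [sum_Icc_succ_top (by omega), sum_Icc_succ_top (by omega), ih]
    push_cast
    have e1 : ((N : ℝ) + 1 - 1) * α = N * α := by ring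
    rw [e1]
    ring

lemma prod_exp (r : ℕ → ℝ) (α c : ℝ) (Q : ℕ) (h1 : r Q = 0) (h2 : r (Q + 1) = 0) :
    (r 0 + 2 * ∑ h ∈ Icc 1 Q, r h * Real.cos (h * α)) * (Real.cos α - c) =
      (r 1 - c * r 0) + ∑ k ∈ Icc 1 Q, (r (k - 1) + r (k + 1) - 2 * c * r k) * Real.cos (k * α) := by
  have e1 : ∀ h : ℕ, 2 * Real.cos (h * α) * Real.cos α = Real.cos ((h + 1) * α) + Real.cos ((h - 1) * α) := by
    intro h
    rw [show ((h : ℝ) + 1) * α = h * α + α by ring, show ((h : ℝ) - 1) * α = h * α - α by ring, Real.cos_add, Real.cos_sub]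
    ring
  have e2 : 2 * (∑ h ∈ Icc 1 Q, r h * Real.cos (h * α)) * Real.cos α =
      ∑ h ∈ Icc 1 Q, r h * (Real.cos ((h + 1) * α) + Real.cos ((h - 1) * α)) := by
    rw [mul_sum, sum_mul]
    apply sum_congr rfl
    intro h _
    rw [← e1]
    ring
  have e3 := shift r α Q
  rw [h1, h2] at e3
  have e4 : ∑ k ∈ Icc 1 Q, (r (k - 1) + r (k + 1) - 2 * c * r k) * Real.cos (k * α) =
      ∑ k ∈ Icc 1 Q, (r (k - 1) + r (k + 1)) * Real.cos (k * α) - 2 * c * ∑ k ∈ Icc 1 Q, r k * Real.cos (k * α) := by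
    rw [mul_sum, ← sum_sub_distrib]
    apply sum_congr rfl
    intro k _
    ring
  rw [e4]
  have e5 : (r 0 + 2 * ∑ h ∈ Icc 1 Q, r h * Real.cos (h * α)) * (Real.cos α - c) =
      r 0 * Real.cos α + 2 * (∑ h ∈ Icc 1 Q, r h * Real.cos (h * α)) * Real.cos α - c * r 0 -
        2 * c * ∑ h ∈ Icc 1 Q, r h * Real.cos (h * α) := by ring
  rw [e5, e2, e3]
  ring

/-- the coefficients of the polynomial -/
noncomputable def pp (Q m : ℕ) : ℝ := Real.sin (Real.pi * m / Q)

lemma pp_abs (Q m : ℕ) : |pp Q m| ≤ 1 := Real.abs_sin_le_one _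

lemma pp_zero (Q : ℕ) : pp Q 0 = 0 := by unfold pp; simp

lemma pp_self {Q : ℕ} (hQ : 1 ≤ Q) : pp Q Q = 0 := by
  unfold pp
  have : (Q : ℝ) ≠ 0 := by positivity
  rw [mul_div_assoc, div_self this, mul_one, Real.sin_pi]

lemma pp_rec (Q m : ℕ) : pp Q (m + 2) + pp Q m = 2 * Real.cos (Real.pi / Q) * pp Q (m + 1) := by
  unfold pp
  have e1 : Real.pi * ((m + 2 : ℕ) : ℝ) / Q = Real.pi * ((m + 1 : ℕ) : ℝ) / Q + Real.pi / Q := by push_cast; ring
  have e2 : Real.pi * (m : ℝ) / Q = Real.pi * ((m + 1 : ℕ) : ℝ) / Q - Real.pi / Q := by push_cast; ring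
  rw [e1, e2, Real.sin_add, Real.sin_sub]
  ring

lemma rr_rec {Q k : ℕ} (hQ : 1 ≤ Q) (hk1 : 1 ≤ k) (hk : k ≤ Q) :
    rr (pp Q) (Q + 1) (k - 1) + rr (pp Q) (Q + 1) (k + 1) =
      2 * Real.cos (Real.pi / Q) * rr (pp Q) (Q + 1) k + pp Q (Q - k) * pp Q (Q - 1) := by
  obtain ⟨n, hn⟩ : ∃ n, n = Q - k := ⟨_, rfl⟩
  unfold rr
  have e1 : Q + 1 - (k - 1) = n + 2 := by omega
  have e2 : Q + 1 - (k + 1) = n := by omega
  have e3 : Q + 1 - k = n + 1 := by omega
  rw [e1, e2, e3, sum_range_succ, sum_range_succ, sum_range_succ]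
  have e4 : n + 1 + (k - 1) = Q := by omega
  have e5 : n + (k - 1) = Q - 1 := by omega
  have e6 : n + k = Q := by omega
  rw [e4, e5, e6, pp_self hQ, ← hn, mul_zero, mul_zero, add_zero, add_zero]
  have e7 : ∑ m ∈ range n, pp Q m * pp Q (m + (k - 1)) + ∑ m ∈ range n, pp Q m * pp Q (m + (k + 1)) =
      2 * Real.cos (Real.pi / Q) * ∑ m ∈ range n, pp Q m * pp Q (m + k) := by
    rw [mul_sum, ← sum_add_distrib]
    apply sum_congr rfl
    intro m _
    have h1 := pp_rec Q (m + (k - 1))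
    have h2 : m + (k - 1) + 2 = m + (k + 1) := by omega
    have h3 : m + (k - 1) + 1 = m + k := by omega
    rw [h2, h3] at h1
    calc pp Q m * pp Q (m + (k - 1)) + pp Q m * pp Q (m + (k + 1)) =
        pp Q m * (pp Q (m + (k + 1)) + pp Q (m + (k - 1))) := by ring
      _ = _ := by rw [h1]; ring
  linarith

lemma rr_one {Q : ℕ} (hQ : 1 ≤ Q) : rr (pp Q) (Q + 1) 1 = Real.cos (Real.pi / Q) * rr (pp Q) (Q + 1) 0 := by
  have h0 : rr (pp Q) (Q + 1) 0 = ∑ m ∈ range Q, pp Q (m + 1) * pp Q (m + 1) := by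
    unfold rr
    rw [Nat.sub_zero, sum_range_succ']
    simp only [add_zero, pp_zero, mul_zero]
  have h1 : rr (pp Q) (Q + 1) 1 = ∑ m ∈ range Q, pp Q m * pp Q (m + 1) := by
    unfold rr
    rw [Nat.add_sub_cancel]
  have h2 : ∑ m ∈ range Q, pp Q (m + 1) * pp Q (m + 2) = ∑ m ∈ range Q, pp Q m * pp Q (m + 1) := by
    have a1 := sum_range_succ (fun m => pp Q m * pp Q (m + 1)) Q
    have a2 := sum_range_succ' (fun m => pp Q m * pp Q (m + 1)) Q
    rw [a1] at a2
    simp only [pp_zero, pp_self hQ, zero_mul, add_zero] at a2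
    rw [a2]
  have h3 : ∑ m ∈ range Q, pp Q (m + 1) * pp Q (m + 2) + ∑ m ∈ range Q, pp Q m * pp Q (m + 1) =
      2 * Real.cos (Real.pi / Q) * ∑ m ∈ range Q, pp Q (m + 1) * pp Q (m + 1) := by
    rw [mul_sum, ← sum_add_distrib]
    apply sum_congr rfl
    intro m _
    have := pp_rec Q m
    calc pp Q (m + 1) * pp Q (m + 2) + pp Q m * pp Q (m + 1) = pp Q (m + 1) * (pp Q (m + 2) + pp Q m) := by ring
      _ = _ := by rw [this]; ring
  rw [h0, h1]
  linarith

lemma rr_zero_ge (q : ℕ) (hq : 1 ≤ q) : (q : ℝ) ≤ rr (pp (2 * q)) (2 * q + 1) 0 := by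
  have h1 : ∑ m ∈ range (q + q), pp (2 * q) m * pp (2 * q) m ≤ rr (pp (2 * q)) (2 * q + 1) 0 := by
    unfold rr
    rw [Nat.sub_zero, sum_range_succ, ← two_mul]
    simp only [add_zero]
    have : 0 ≤ pp (2 * q) (2 * q) * pp (2 * q) (2 * q) := mul_self_nonneg _
    linarith
  refine le_trans (le_of_eq ?_) h1
  rw [sum_range_add, ← sum_add_distrib]
  have hq0 : (q : ℝ) ≠ 0 := by positivity
  have h2 : ∀ m ∈ range q, pp (2 * q) m * pp (2 * q) m + pp (2 * q) (q + m) * pp (2 * q) (q + m) = 1 := by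
    intro m _
    have e1 : pp (2 * q) (q + m) = Real.cos (Real.pi * m / (2 * q : ℕ)) := by
      unfold pp
      rw [← Real.sin_add_pi_div_two]
      congr 1
      push_cast
      field_simp
      ring
    rw [e1]
    unfold pp
    have := Real.sin_sq_add_cos_sq (Real.pi * m / (2 * q : ℕ))
    nlinarith
  rw [sum_congr rfl h2]
  simp

lemma rr_abs (Q h : ℕ) : |rr (pp Q) (Q + 1) h| ≤ Q + 1 := by
  unfold rr
  refine (abs_sum_le_sum_abs _ _).trans ?_
  calc ∑ m ∈ range (Q + 1 - h), |pp Q m * pp Q (m + h)| ≤ ∑ m ∈ range (Q + 1 - h), (1 : ℝ) := by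
        apply sum_le_sum
        intro m _
        rw [abs_mul]
        exact mul_le_one₀ (pp_abs _ _) (abs_nonneg _) (pp_abs _ _)
    _ = ((Q + 1 - h : ℕ) : ℝ) := by simp
    _ ≤ ((Q + 1 : ℕ) : ℝ) := by exact_mod_cast Nat.sub_le _ _
    _ = _ := by push_cast; ring

lemma square_form (Q : ℕ) (α : ℝ) :
    0 ≤ rr (pp Q) (Q + 1) 0 + 2 * ∑ h ∈ Icc 1 Q, rr (pp Q) (Q + 1) h * Real.cos (h * α) ∧
    rr (pp Q) (Q + 1) 0 + 2 * ∑ h ∈ Icc 1 Q, rr (pp Q) (Q + 1) h * Real.cos (h * α) ≤ ((Q : ℝ) + 1) ^ 2 := by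
  have h1 := auto (pp Q) (fun h => Real.cos (h * α)) (Q + 1)
  have hIco : Ico 1 (Q + 1) = Icc 1 Q := by
    ext x
    rw [mem_Ico, mem_Icc]
    omega
  rw [hIco] at h1
  simp only [Nat.cast_zero, zero_mul, Real.cos_zero, mul_one] at h1
  rw [← h1]
  have hcos : ∀ m n : ℕ, Real.cos ((((m : ℤ) - n).natAbs : ℝ) * α) = Real.cos (m * α) * Real.cos (n * α) + Real.sin (m * α) * Real.sin (n * α) := by
    intro m n
    rw [← Real.cos_sub, ← sub_mul]
    have e1 : (((m : ℤ) - n).natAbs : ℝ) = |(m : ℝ) - n| := by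
      rw [Nat.cast_natAbs]; push_cast; rfl
    rw [e1]
    rcases abs_choice ((m : ℝ) - n) with h | h
    · rw [h]
    · rw [h, neg_mul, Real.cos_neg]
  constructor
  · have e2 : ∑ m ∈ range (Q + 1), ∑ n ∈ range (Q + 1), pp Q m * pp Q n * Real.cos ((((m : ℤ) - n).natAbs : ℝ) * α) =
        (∑ m ∈ range (Q + 1), pp Q m * Real.cos (m * α)) ^ 2 + (∑ m ∈ range (Q + 1), pp Q m * Real.sin (m * α)) ^ 2 := by
      rw [sq, sq, sum_mul_sum, sum_mul_sum, ← sum_add_distrib]
      apply sum_congr rfl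
      intro m _
      rw [← sum_add_distrib]
      apply sum_congr rfl
      intro n _
      rw [hcos]
      ring
    rw [e2]
    positivity
  · calc ∑ m ∈ range (Q + 1), ∑ n ∈ range (Q + 1), pp Q m * pp Q n * Real.cos ((((m : ℤ) - n).natAbs : ℝ) * α) ≤
          ∑ m ∈ range (Q + 1), ∑ n ∈ range (Q + 1), (1 : ℝ) := by
          apply sum_le_sum; intro m _
          apply sum_le_sum; intro n _
          refine (le_abs_self _).trans ?_
          rw [abs_mul, abs_mul]
          apply mul_le_one₀ _ (abs_nonneg _) (Real.abs_cos_le_one _)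
          exact mul_le_one₀ (pp_abs _ _) (abs_nonneg _) (pp_abs _ _)
      _ = _ := by
          simp only [sum_const, card_range, nsmul_eq_mul, mul_one]
          push_cast
          ring

end Mi

open Mi in
/-- the minorant -/
theorem minorant {δ : ℝ} (hδ : 0 < δ) (hδ4 : δ ≤ 1 / 4) : ∃ (Q : ℕ) (g : ℕ → ℝ), (Q : ℝ) ≤ 2 / δ ∧ 3 * δ ≤ g 0 ∧
    (∀ k ∈ Icc 1 Q, |g k| ≤ 90 * δ) ∧
    ∀ θ : ℝ, g 0 + ∑ k ∈ Icc 1 Q, g k * Real.cos (2 * Real.pi * (k * θ)) ≤ if |θ - round θ| < δ then 90 else 0 := by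
  obtain ⟨q, hq⟩ : ∃ q : ℕ, q = ⌈1 / (2 * δ)⌉₊ := ⟨_, rfl⟩
  have hpi := Real.pi_pos
  have hpi3 := Real.pi_gt_three
  have hpi4 : Real.pi < 3.15 := Real.pi_lt_d2
  have hq1 : 1 / (2 * δ) ≤ q := by rw [hq]; exact Nat.le_ceil _
  have hq2 : (q : ℝ) ≤ 1 / (2 * δ) + 1 := by
    rw [hq]; exact (Nat.ceil_lt_add_one (by positivity)).le
  have hd1 : 2 ≤ 1 / (2 * δ) := by rw [le_div_iff₀ (by positivity)]; linarith
  have hq0 : (2 : ℝ) ≤ q := hd1.trans hq1
  have hq0' : 1 ≤ q := by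
    have : (1 : ℝ) ≤ q := by linarith
    exact_mod_cast this
  obtain ⟨Q, hQ⟩ : ∃ Q : ℕ, Q = 2 * q := ⟨_, rfl⟩
  have hQr : (Q : ℝ) = 2 * q := by rw [hQ]; push_cast; ring
  have hQ1 : 1 ≤ Q := by omega
  have hQ0 : (0 : ℝ) < Q := by rw [hQr]; linarith
  have hQδ : 1 ≤ Q * δ := by
    rw [hQr]
    rw [div_le_iff₀ (by positivity)] at hq1
    linarith
  have hQδ2 : ((Q : ℝ) + 1) * δ ≤ 2 := by
    have h1 : (q : ℝ) * δ ≤ 1 / 2 + δ := by
      have := mul_le_mul_of_nonneg_right hq2 hδ.le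
      have e1 : (1 / (2 * δ) + 1) * δ = 1 / 2 + δ := by field_simp
      linarith
    rw [hQr]
    nlinarith
  have hQle : (Q : ℝ) ≤ 2 / δ := by
    rw [le_div_iff₀ hδ]
    nlinarith
  set r : ℕ → ℝ := fun h => rr (pp Q) (Q + 1) h with hr
  set c : ℝ := Real.cos (2 * Real.pi * δ) with hc
  have hrQ : r Q = 0 := by
    simp only [hr]
    unfold rr
    rw [Nat.add_sub_cancel_left, sum_range_one, pp_zero, zero_mul]
  have hrQ1 : r (Q + 1) = 0 := by
    simp only [hr]
    unfold rr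
    rw [Nat.sub_self, sum_range_zero]
  have hc1 : 1 - c ≤ 20 * δ ^ 2 := by
    have h1 := Real.one_sub_sq_div_two_le_cos (x := 2 * Real.pi * δ)
    rw [hc]
    have : (2 * Real.pi * δ) ^ 2 / 2 ≤ 20 * δ ^ 2 := by
      have : Real.pi ^ 2 ≤ 10 := by nlinarith
      nlinarith [sq_nonneg δ]
    linarith
  have hcle : c ≤ 1 := Real.cos_le_one _
  -- cos (π / Q)
  have hcosQ : Real.cos (Real.pi * δ) ≤ Real.cos (Real.pi / Q) := by
    apply Real.cos_le_cos_of_nonneg_of_le_pi (by positivity) (by nlinarith)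
    rw [div_le_iff₀ hQ0]
    nlinarith
  have hcosd : 6 * δ ^ 2 ≤ Real.cos (Real.pi * δ) - c := by
    have e1 : Real.cos (Real.pi * δ) - c = 2 * (Real.sin (3 * Real.pi * δ / 2) * Real.sin (Real.pi * δ / 2)) := by
      rw [hc, Real.cos_sub_cos]
      have a1 : (Real.pi * δ + 2 * Real.pi * δ) / 2 = 3 * Real.pi * δ / 2 := by ring
      have a2 : (Real.pi * δ - 2 * Real.pi * δ) / 2 = -(Real.pi * δ / 2) := by ring
      rw [a1, a2, Real.sin_neg]
      ring
    rw [e1]
    have s1 : 3 * δ ≤ Real.sin (3 * Real.pi * δ / 2) := by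
      have := Real.mul_le_sin (x := 3 * Real.pi * δ / 2) (by positivity) (by nlinarith)
      refine le_trans (le_of_eq ?_) this
      field_simp
    have s2 : δ ≤ Real.sin (Real.pi * δ / 2) := by
      have := Real.mul_le_sin (x := Real.pi * δ / 2) (by positivity) (by nlinarith)
      refine le_trans (le_of_eq ?_) this
      field_simp
    nlinarith [mul_le_mul s1 s2 hδ.le (by linarith [s1] : (0 : ℝ) ≤ Real.sin (3 * Real.pi * δ / 2))]
  have hcosQ1 : Real.cos (Real.pi / Q) ≤ 1 := Real.cos_le_one _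
  set g : ℕ → ℝ := fun k => if k = 0 then r 1 - c * r 0 else r (k - 1) + r (k + 1) - 2 * c * r k with hg
  have hg0 : g 0 = r 1 - c * r 0 := if_pos rfl
  have hgk : ∀ k ∈ Icc 1 Q, g k = r (k - 1) + r (k + 1) - 2 * c * r k := by
    intro k hk
    rw [mem_Icc] at hk
    simp only [hg]
    rw [if_neg (by omega)]
  refine ⟨Q, g, hQle, ?_, ?_, ?_⟩
  · rw [hg0]
    have h1 : r 1 = Real.cos (Real.pi / Q) * r 0 := rr_one hQ1
    have h2 : (q : ℝ) ≤ r 0 := by
      have := rr_zero_ge q hq0'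
      rw [← hQ] at this
      exact this
    rw [h1]
    have h3 : 6 * δ ^ 2 ≤ Real.cos (Real.pi / Q) - c := by linarith
    calc 3 * δ = 6 * δ ^ 2 * (1 / (2 * δ)) := by field_simp; ring
      _ ≤ 6 * δ ^ 2 * q := by gcongr
      _ ≤ (Real.cos (Real.pi / Q) - c) * r 0 := by
          apply mul_le_mul h3 h2 (by linarith) (by nlinarith)
      _ = _ := by ring
  · intro k hk
    rw [hgk k hk]
    rw [mem_Icc] at hk
    have h1 : r (k - 1) + r (k + 1) = 2 * Real.cos (Real.pi / Q) * r k + pp Q (Q - k) * pp Q (Q - 1) :=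
      rr_rec hQ1 hk.1 hk.2
    rw [h1]
    have h2 : 2 * Real.cos (Real.pi / Q) * r k + pp Q (Q - k) * pp Q (Q - 1) - 2 * c * r k =
        2 * (Real.cos (Real.pi / Q) - c) * r k + pp Q (Q - k) * pp Q (Q - 1) := by ring
    rw [h2]
    refine (abs_add_le _ _).trans ?_
    rw [abs_mul (2 * (Real.cos (Real.pi / Q) - c)) (r k), abs_mul (pp Q (Q - k)) (pp Q (Q - 1))]
    have h3 : |2 * (Real.cos (Real.pi / Q) - c)| ≤ 40 * δ ^ 2 := by
      rw [abs_of_nonneg (by nlinarith)]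
      linarith
    have h4 : |r k| ≤ Q + 1 := rr_abs Q k
    have h5 : |pp Q (Q - 1)| ≤ 4 * δ := by
      unfold pp
      have e1 : Real.sin (Real.pi * ((Q - 1 : ℕ) : ℝ) / Q) = Real.sin (Real.pi / Q) := by
        rw [← Real.sin_pi_sub]
        congr 1
        rw [Nat.cast_sub hQ1]
        push_cast
        field_simp
        ring
      rw [e1]
      have h6 : |Real.sin (Real.pi / Q)| ≤ |Real.pi / Q| := Real.abs_sin_le_abs
      refine h6.trans ?_
      rw [abs_of_pos (by positivity), div_le_iff₀ hQ0]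
      nlinarith
    have h6 := pp_abs Q (Q - k)
    have h7 : |2 * (Real.cos (Real.pi / Q) - c)| * |r k| ≤ 40 * δ ^ 2 * (Q + 1) :=
      mul_le_mul h3 h4 (abs_nonneg _) (by positivity)
    have h8 : |pp Q (Q - k)| * |pp Q (Q - 1)| ≤ 1 * (4 * δ) :=
      mul_le_mul h6 h5 (abs_nonneg _) (by norm_num)
    have h9 : 40 * δ ^ 2 * ((Q : ℝ) + 1) ≤ 80 * δ := by
      have : 40 * δ ^ 2 * ((Q : ℝ) + 1) = 40 * δ * (((Q : ℝ) + 1) * δ) := by ring
      rw [this]
      nlinarith
    linarith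
  · intro θ
    have e1 : ∀ k : ℕ, Real.cos (2 * Real.pi * (k * θ)) = Real.cos (k * (2 * Real.pi * θ)) := by
      intro k; congr 1; ring
    have e2 : g 0 + ∑ k ∈ Icc 1 Q, g k * Real.cos (2 * Real.pi * (k * θ)) =
        (r 0 + 2 * ∑ h ∈ Icc 1 Q, r h * Real.cos (h * (2 * Real.pi * θ))) * (Real.cos (2 * Real.pi * θ) - c) := by
      rw [prod_exp r (2 * Real.pi * θ) c Q hrQ hrQ1, hg0]
      congr 1
      apply sum_congr rfl
      intro k hk
      rw [hgk k hk, e1]
    rw [e2]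
    obtain ⟨s1, s2⟩ := square_form Q (2 * Real.pi * θ)
    change 0 ≤ r 0 + 2 * ∑ h ∈ Icc 1 Q, r h * Real.cos (h * (2 * Real.pi * θ)) at s1
    change r 0 + 2 * ∑ h ∈ Icc 1 Q, r h * Real.cos (h * (2 * Real.pi * θ)) ≤ ((Q : ℝ) + 1) ^ 2 at s2
    set T := r 0 + 2 * ∑ h ∈ Icc 1 Q, r h * Real.cos (h * (2 * Real.pi * θ)) with hT
    split_ifs with hθ
    · have h1 : Real.cos (2 * Real.pi * θ) - c ≤ 20 * δ ^ 2 := by
        have := Real.cos_le_one (2 * Real.pi * θ)
        linarith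
      calc T * (Real.cos (2 * Real.pi * θ) - c) ≤ T * (20 * δ ^ 2) := mul_le_mul_of_nonneg_left h1 s1
        _ ≤ ((Q : ℝ) + 1) ^ 2 * (20 * δ ^ 2) := mul_le_mul_of_nonneg_right s2 (by positivity)
        _ = 20 * (((Q : ℝ) + 1) * δ) ^ 2 := by ring
        _ ≤ 20 * 2 ^ 2 := by gcongr
        _ ≤ 90 := by norm_num
    · push Not at hθ
      have h1 : Real.cos (2 * Real.pi * θ) ≤ c := by
        have e3 := Pool.Agent.N792.cos_tri 1 θ
        rw [Nat.cast_one, mul_one] at e3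
        rw [← e3, hc]
        apply Real.cos_le_cos_of_nonneg_of_le_pi (by positivity)
        · have := abs_sub_round θ
          nlinarith
        · gcongr
      nlinarith

end Pool.Agent.V5helper51.BH
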