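import Mathlib
import Pool.Agent.V5helper51.BH.Est
import Pool.Agent.V5helper51.BH.Min

/-! The number of the primes with small fractional part of the square root. -/

set_option autoImplicit false

namespace Pool.Agent.V5helper51.BH

open Finset Filter
open Pool.Agent.H469R2.NK (e norm_e e_add e_zero)

lemma W_ge {Y n : ℕ} (hY : 1 ≤ Y) (h1 : 5 * Y ≤ 4 * n) (h2 : n ≤ 3 * Y) : 1 / 4 ≤ W (2 * Y) n := by
  have hl2 := Real.log_pos (by norm_num : (1 : ℝ) < 2)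
  have hY0 : (0 : ℝ) < Y := by exact_mod_cast hY
  have hn1 : 1 ≤ n := by omega
  have hn0 : (0 : ℝ) < n := by exact_mod_cast hn1
  have h1r : 5 * (Y : ℝ) ≤ 4 * n := by exact_mod_cast h1
  have h2r : (n : ℝ) ≤ 3 * Y := by exact_mod_cast h2
  have e1 : ((2 * Y : ℕ) : ℝ) = 2 * Y := by push_cast; ring
  have a1 : Real.log (2 * Y) - Real.log n ≤ 3 / 4 * Real.log 2 := by
    have h3 : 4 * (Real.log (2 * Y) - Real.log n) ≤ 3 * Real.log 2 := by
      rw [← Real.log_div (by positivity) hn0.ne']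
      have h4 : (4 : ℝ) * Real.log (2 * Y / n) = Real.log ((2 * Y / n) ^ 4) := by rw [Real.log_pow]; norm_num
      have h5 : (3 : ℝ) * Real.log 2 = Real.log (2 ^ 3) := by rw [Real.log_pow]; norm_num
      rw [h4, h5]
      apply Real.log_le_log (by positivity)
      have h6 : 2 * (Y : ℝ) / n ≤ 8 / 5 := by rw [div_le_div_iff₀ hn0 (by norm_num)]; linarith
      calc (2 * (Y : ℝ) / n) ^ 4 ≤ (8 / 5) ^ 4 := by gcongr
        _ ≤ 2 ^ 3 := by norm_num
    linarith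
  have a2 : Real.log n - Real.log (2 * Y) ≤ 3 / 4 * Real.log 2 := by
    have h3 : 4 * (Real.log n - Real.log (2 * Y)) ≤ 3 * Real.log 2 := by
      rw [← Real.log_div hn0.ne' (by positivity)]
      have h4 : (4 : ℝ) * Real.log (n / (2 * Y)) = Real.log ((n / (2 * Y)) ^ 4) := by rw [Real.log_pow]; norm_num
      have h5 : (3 : ℝ) * Real.log 2 = Real.log (2 ^ 3) := by rw [Real.log_pow]; norm_num
      rw [h4, h5]
      apply Real.log_le_log (by positivity)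
      have h6 : (n : ℝ) / (2 * Y) ≤ 3 / 2 := by rw [div_le_div_iff₀ (by positivity) (by norm_num)]; linarith
      calc ((n : ℝ) / (2 * Y)) ^ 4 ≤ (3 / 2) ^ 4 := by gcongr
        _ ≤ 2 ^ 3 := by norm_num
    linarith
  unfold W
  apply le_max_of_le_right
  rw [e1]
  have h7 : |Real.log n - Real.log (2 * Y)| ≤ 3 / 4 * Real.log 2 := by
    rw [abs_le]; constructor <;> linarith
  have h8 : |Real.log n - Real.log (2 * Y)| / Real.log 2 ≤ 3 / 4 := by
    rw [div_le_iff₀ hl2]; exact h7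
  linarith

lemma psi_nat (a : ℕ) : Chebyshev.psi (a : ℝ) = ∑ n ∈ Ioc 0 a, ArithmeticFunction.vonMangoldt n := by
  unfold Chebyshev.psi
  rw [Nat.floor_natCast]

/-- the main term -/
lemma main_term : ∃ Y0 : ℕ, ∀ Y : ℕ, Y0 ≤ Y →
    (Y : ℝ) / 20 ≤ ∑ n ∈ Ioc Y (4 * Y), ArithmeticFunction.vonMangoldt n * W (2 * Y) n := by
  have ev1 : ∀ᶠ x : ℝ in atTop, Real.log x ≤ x ^ (1 / 4 : ℝ) := by
    have h1 := (isLittleO_log_rpow_atTop (show (0 : ℝ) < 1 / 4 by positivity)).bound (show (0 : ℝ) < 1 by norm_num)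
    filter_upwards [h1, eventually_ge_atTop 1] with x hx hx1
    rw [Real.norm_of_nonneg (Real.log_nonneg hx1), Real.norm_of_nonneg (by positivity), one_mul] at hx
    exact hx
  have ev2 : ∀ᶠ x : ℝ in atTop, 1000 ≤ x ^ (1 / 4 : ℝ) :=
    (tendsto_rpow_atTop (by positivity)).eventually_ge_atTop _
  obtain ⟨X1, hX1⟩ := eventually_atTop.1 (ev1.and ev2)
  refine ⟨⌈X1⌉₊ + 1, ?_⟩
  intro Y hY
  have hY1 : 1 ≤ Y := by omega
  have hYr : (1 : ℝ) ≤ Y := by exact_mod_cast hY1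
  have hX1Y : X1 ≤ 4 * Y := by
    have : X1 ≤ Y := (Nat.le_ceil _).trans (by exact_mod_cast (by omega : ⌈X1⌉₊ ≤ Y))
    linarith
  obtain ⟨hlog, ht3⟩ := hX1 _ hX1Y
  obtain ⟨t, ht⟩ : ∃ t : ℝ, t = (4 * Y : ℝ) ^ (1 / 4 : ℝ) := ⟨_, rfl⟩
  rw [← ht] at hlog ht3
  have ht4 : t ^ 4 = 4 * Y := by
    rw [ht, ← Real.rpow_natCast, ← Real.rpow_mul (by positivity)]; norm_num
  have hsq : √(4 * Y : ℝ) = t ^ 2 := by
    rw [← ht4, show t ^ 4 = (t ^ 2) ^ 2 by ring, Real.sqrt_sq (by positivity)]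
  set a := 5 * Y / 4 with ha
  have hsub : Ioc a (3 * Y) ⊆ Ioc Y (4 * Y) := by
    intro n hn
    rw [mem_Ioc] at hn ⊢
    omega
  have h1 : 1 / 4 * ∑ n ∈ Ioc a (3 * Y), ArithmeticFunction.vonMangoldt n ≤
      ∑ n ∈ Ioc Y (4 * Y), ArithmeticFunction.vonMangoldt n * W (2 * Y) n := by
    rw [mul_sum]
    refine le_trans (sum_le_sum ?_) (sum_le_sum_of_subset_of_nonneg hsub ?_)
    · intro n hn
      rw [mem_Ioc] at hn
      have h2 := W_ge hY1 (show 5 * Y ≤ 4 * n by omega) hn.2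
      have h3 : 0 ≤ ArithmeticFunction.vonMangoldt n := ArithmeticFunction.vonMangoldt_nonneg
      nlinarith
    · intro n _ _
      exact mul_nonneg ArithmeticFunction.vonMangoldt_nonneg (W_nonneg _ _)
  have h2 : ∑ n ∈ Ioc a (3 * Y), ArithmeticFunction.vonMangoldt n = Chebyshev.psi ((3 * Y : ℕ) : ℝ) - Chebyshev.psi (a : ℝ) := by
    rw [psi_nat, psi_nat, eq_sub_iff_add_eq, add_comm, ← sum_union, Ioc_union_Ioc_eq_Ioc (by omega) (by omega)]
    rw [disjoint_left]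
    intro x hx hx'
    rw [mem_Ioc] at hx hx'
    omega
  have h3 := Chebyshev.psi_ge (3 * Y)
  have ha1 : (1 : ℝ) ≤ a := by exact_mod_cast (by omega : 1 ≤ a)
  have h4 := Chebyshev.psi_le ha1
  have ha2 : (a : ℝ) ≤ 5 / 4 * Y := by
    have : 4 * a ≤ 5 * Y := by omega
    have : 4 * (a : ℝ) ≤ 5 * Y := by exact_mod_cast this
    linarith
  have ha4 : (a : ℝ) ≤ 4 * Y := by linarith
  have h5 : √(a : ℝ) ≤ t ^ 2 := by rw [← hsq]; exact Real.sqrt_le_sqrt ha4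
  have h6 : Real.log a ≤ t := (Real.log_le_log (by linarith) ha4).trans hlog
  have h7 : 2 * √(a : ℝ) * Real.log a ≤ 2 * t ^ 2 * t := by
    have : 0 ≤ Real.log (a : ℝ) := Real.log_natCast_nonneg a
    gcongr
  have h8 : Real.log (((3 * Y : ℕ) : ℝ) + 1) ≤ t := by
    refine (Real.log_le_log (by positivity) ?_).trans hlog
    push_cast; linarith
  have h9 : 2 * t ^ 2 * t ≤ 1 / 500 * t ^ 4 := by
    have : 0 ≤ t ^ 3 := by positivity
    nlinarith
  have h10 : t ≤ 1 / 500 * t ^ 4 := by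
    have : 1 ≤ t ^ 2 := by nlinarith
    nlinarith
  have hl4 : Real.log 4 = 2 * Real.log 2 := by
    rw [show (4 : ℝ) = 2 ^ 2 by norm_num, Real.log_pow]; norm_num
  have hl2 := Real.log_two_gt_d9
  rw [hl4] at h4
  rw [h2] at h1
  push_cast at h3 h8 h1
  refine le_trans ?_ h1
  have h11 : 2 * Real.log 2 * (a : ℝ) ≤ 2 * Real.log 2 * (5 / 4 * Y) := by gcongr
  nlinarith

lemma e_re (x : ℝ) : (e x).re = Real.cos (2 * Real.pi * x) := by
  unfold e
  rw [Complex.exp_ofReal_mul_I_re]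

/-- **Primes with small fractional part of the square root.** -/
theorem first (ε : ℝ) (hε : 0 < ε) : ∃ Y0 : ℕ, ∀ Y : ℕ, Y0 ≤ Y → ∀ δ β : ℝ, 0 < δ → δ ≤ 1 / 4 →
    2 / δ ≤ ((2 * Y : ℕ) : ℝ) ^ (1 / 4 - ε) →
    δ * Y / (1000 * Real.log (4 * Y)) ≤
      (#((Ioc Y (4 * Y)).filter (fun p : ℕ => p.Prime ∧ |(√(p : ℝ) - β) - round (√(p : ℝ) - β)| < δ)) : ℝ) := by
  classical
  obtain ⟨Y1, hY1⟩ := bh ε hε
  obtain ⟨Y2, hY2⟩ := main_term
  have ev1 : ∀ᶠ x : ℝ in atTop, Real.log x ≤ x ^ (min (ε / 8) (1 / 16) : ℝ) := by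
    have h1 := (isLittleO_log_rpow_atTop (show (0 : ℝ) < min (ε / 8) (1 / 16) by positivity)).bound (show (0 : ℝ) < 1 by norm_num)
    filter_upwards [h1, eventually_ge_atTop 1] with x hx hx1
    rw [Real.norm_of_nonneg (Real.log_nonneg hx1), Real.norm_of_nonneg (by positivity), one_mul] at hx
    exact hx
  have ev2 : ∀ᶠ x : ℝ in atTop, 1000000 ≤ x ^ (ε / 8 : ℝ) :=
    (tendsto_rpow_atTop (by positivity)).eventually_ge_atTop _
  have ev3 : ∀ᶠ x : ℝ in atTop, 1000000 ≤ x ^ (1 / 16 : ℝ) :=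
    (tendsto_rpow_atTop (by positivity)).eventually_ge_atTop _
  obtain ⟨X1, hX1⟩ := eventually_atTop.1 (ev1.and (ev2.and ev3))
  refine ⟨max (max Y1 Y2) (⌈X1⌉₊ + 1), ?_⟩
  intro Y hY δ β hδ hδ4 hδε
  have hYY1 : Y1 ≤ Y := (le_max_left _ _).trans ((le_max_left _ _).trans hY)
  have hYY2 : Y2 ≤ Y := (le_max_right _ _).trans ((le_max_left _ _).trans hY)
  have hYX : ⌈X1⌉₊ + 1 ≤ Y := (le_max_right _ _).trans hY
  have hYn : 1 ≤ Y := by omega
  have hYr : (1 : ℝ) ≤ Y := by exact_mod_cast hYn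
  obtain ⟨Z, hZ⟩ : ∃ Z : ℝ, Z = ((2 * Y : ℕ) : ℝ) := ⟨_, rfl⟩
  have hZ2 : Z = 2 * Y := by rw [hZ]; push_cast; ring
  have hX1Y : X1 ≤ Y := (Nat.le_ceil _).trans (by exact_mod_cast (by omega : ⌈X1⌉₊ ≤ Y))
  have hX1Z : X1 ≤ Z := by rw [hZ2]; linarith
  have hX1Z2 : X1 ≤ 2 * Z := by rw [hZ2]; linarith
  have hZ1 : 1 < Z := by rw [hZ2]; linarith
  have hZ0 : 0 < Z := by linarith
  have hlog := (hX1 (2 * Z) hX1Z2).1
  have hZε := (hX1 Z hX1Z).2.1
  have hZ16 := (hX1 Z hX1Z).2.2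
  have h4Y : (4 * Y : ℝ) = 2 * Z := by rw [hZ2]; ring
  have hbh := hY1 Y hYY1
  have hmt := hY2 Y hYY2
  rw [← hZ] at hδε hbh
  obtain ⟨L, hL⟩ : ∃ L : ℝ, L = Real.log (4 * Y) := ⟨_, rfl⟩
  rw [← hL]
  have hL1 : 1 ≤ L := by
    have h1 : Real.log 4 ≤ L := by rw [hL]; exact Real.log_le_log (by norm_num) (by linarith)
    have h2 : Real.log 4 = 2 * Real.log 2 := by
      rw [show (4 : ℝ) = 2 ^ 2 by norm_num, Real.log_pow]; norm_num
    have := Real.log_two_gt_d9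
    linarith
  have hε4 : ε < 1 / 4 := by
    by_contra hc
    push Not at hc
    have h3 : (1 : ℝ) < 2 / δ := by rw [lt_div_iff₀ hδ]; linarith
    have h4 : Z ^ (1 / 4 - ε) ≤ 1 := Real.rpow_le_one_of_one_le_of_nonpos hZ1.le (by linarith)
    linarith
  have hLε : L ≤ 2 * Z ^ (ε / 8) := by
    rw [hL, h4Y]
    refine hlog.trans ?_
    rw [Real.mul_rpow (by norm_num) hZ0.le]
    apply mul_le_mul
    · calc (2 : ℝ) ^ (min (ε / 8) (1 / 16) : ℝ) ≤ 2 ^ (1 : ℝ) :=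
            Real.rpow_le_rpow_of_exponent_le (by norm_num) ((min_le_right _ _).trans (by norm_num))
        _ = 2 := Real.rpow_one 2
    · exact Real.rpow_le_rpow_of_exponent_le hZ1.le (min_le_left _ _)
    · positivity
    · norm_num
  have hL16 : L ≤ 2 * Z ^ (1 / 16 : ℝ) := by
    rw [hL, h4Y]
    refine hlog.trans ?_
    rw [Real.mul_rpow (by norm_num) hZ0.le]
    apply mul_le_mul
    · calc (2 : ℝ) ^ (min (ε / 8) (1 / 16) : ℝ) ≤ 2 ^ (1 : ℝ) :=
            Real.rpow_le_rpow_of_exponent_le (by norm_num) ((min_le_right _ _).trans (by norm_num))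
        _ = 2 := Real.rpow_one 2
    · exact Real.rpow_le_rpow_of_exponent_le hZ1.le (min_le_right _ _)
    · positivity
    · norm_num
  obtain ⟨Q, g, hQ, hg0, hg, hmin⟩ := minorant hδ hδ4
  set w : ℕ → ℝ := fun n => ArithmeticFunction.vonMangoldt n * W (2 * Y) n with hw
  have hw0 : ∀ n, 0 ≤ w n := fun n => mul_nonneg ArithmeticFunction.vonMangoldt_nonneg (W_nonneg _ _)
  have hwΛ : ∀ n, w n ≤ ArithmeticFunction.vonMangoldt n := fun n =>
    mul_le_of_le_one_right ArithmeticFunction.vonMangoldt_nonneg (W_le_one _ _)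
  set S : ℕ → ℂ := fun k => ∑ n ∈ Ioc Y (4 * Y), ((ArithmeticFunction.vonMangoldt n : ℝ) : ℂ) * EE (2 * Y) k n with hS
  have hSw : ∀ k, S k = ∑ n ∈ Ioc Y (4 * Y), ((w n : ℝ) : ℂ) * e (k * √(n : ℝ)) := by
    intro k
    simp only [hS, hw]
    apply sum_congr rfl
    intro n _
    unfold EE
    push_cast
    ring
  -- one frequency
  have hcosk : ∀ k : ℕ, |∑ n ∈ Ioc Y (4 * Y), w n * Real.cos (2 * Real.pi * (k * (√(n : ℝ) - β)))| ≤ ‖S k‖ := by
    intro k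
    have e1 : ∑ n ∈ Ioc Y (4 * Y), w n * Real.cos (2 * Real.pi * (k * (√(n : ℝ) - β))) =
        (e (-(k * β)) * S k).re := by
      rw [hSw, mul_sum, Complex.re_sum]
      apply sum_congr rfl
      intro n _
      have e2 : e (-(k * β)) * (((w n : ℝ) : ℂ) * e (k * √(n : ℝ))) = ((w n : ℝ) : ℂ) * e (k * (√(n : ℝ) - β)) := by
        have : (k : ℝ) * (√(n : ℝ) - β) = -(k * β) + k * √(n : ℝ) := by ring
        rw [this, e_add]
        ring
      rw [e2, Complex.re_ofReal_mul, e_re]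
    rw [e1]
    refine (Complex.abs_re_le_norm _).trans ?_
    rw [norm_mul, norm_e, one_mul]
  -- blocks
  have hblock : ∀ i : ℕ, 2 ^ i ≤ Q → ∑ k ∈ Ico (2 ^ i) (2 * 2 ^ i), ‖S k‖ ≤ Z ^ (1 - ε / 4) := by
    intro i hi
    have hH : ((2 ^ i : ℕ) : ℝ) ≤ Z ^ (1 / 4 - ε) :=
      le_trans (by exact_mod_cast hi) (hQ.trans hδε)
    have hb := hbh (2 ^ i) Nat.one_le_two_pow hH (fun k => (starRingEnd ℂ) (S k) / (‖S k‖ : ℂ)) (by
      intro k
      rw [norm_div, RCLike.norm_conj, Complex.norm_real, norm_norm]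
      exact div_self_le_one _)
    refine le_trans (le_of_eq ?_) hb
    have e1 : ∑ h ∈ Ico (2 ^ i) (2 * 2 ^ i), (starRingEnd ℂ) (S h) / (‖S h‖ : ℂ) * S h =
        ((∑ k ∈ Ico (2 ^ i) (2 * 2 ^ i), ‖S k‖ : ℝ) : ℂ) := by
      push_cast
      apply sum_congr rfl
      intro k _
      by_cases h0 : S k = 0
      · rw [h0]; simp
      · have h1 : (‖S k‖ : ℂ) ≠ 0 := by
          exact_mod_cast (norm_ne_zero_iff.2 h0)
        rw [div_mul_eq_mul_div, mul_comm, Complex.mul_conj']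
        field_simp
    change _ = ‖∑ h ∈ Ico (2 ^ i) (2 * 2 ^ i), (starRingEnd ℂ) (S h) / (‖S h‖ : ℂ) * S h‖
    rw [e1, Complex.norm_real, Real.norm_of_nonneg (sum_nonneg fun _ _ => norm_nonneg _)]
  have hall : ∑ k ∈ Icc 1 Q, ‖S k‖ ≤ (Nat.log 2 Q + 1 : ℕ) * Z ^ (1 - ε / 4) := by
    have hmaps : ∀ k ∈ Icc 1 Q, Nat.log 2 k ∈ range (Nat.log 2 Q + 1) := by
      intro k hk
      rw [mem_Icc] at hk
      rw [mem_range]
      have := Nat.log_mono_right (b := 2) hk.2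
      omega
    rw [← sum_fiberwise_of_maps_to hmaps]
    calc ∑ i ∈ range (Nat.log 2 Q + 1), ∑ k ∈ (Icc 1 Q).filter (fun k => Nat.log 2 k = i), ‖S k‖ ≤
          ∑ i ∈ range (Nat.log 2 Q + 1), Z ^ (1 - ε / 4) := by
          apply sum_le_sum
          intro i hi
          rw [mem_range] at hi
          by_cases hQ0 : Q = 0
          · rw [hQ0]
            simp
            positivity
          · have h1 : 2 ^ i ≤ Q := by
              calc 2 ^ i ≤ 2 ^ (Nat.log 2 Q) := Nat.pow_le_pow_right (by norm_num) (by omega)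
                _ ≤ Q := Nat.pow_log_le_self 2 hQ0
            refine le_trans (sum_le_sum_of_subset_of_nonneg ?_ (fun _ _ _ => norm_nonneg _)) (hblock i h1)
            intro k hk
            rw [mem_filter, mem_Icc] at hk
            rw [mem_Ico]
            obtain ⟨⟨hk1, _⟩, hk3⟩ := hk
            rw [← hk3]
            refine ⟨Nat.pow_log_le_self 2 (by omega), ?_⟩
            rw [← pow_succ']
            exact Nat.lt_pow_succ_log_self (by norm_num) k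
      _ = _ := by rw [sum_const, card_range, nsmul_eq_mul]
  have hJ : ((Nat.log 2 Q + 1 : ℕ) : ℝ) ≤ 3 * L := by
    have hQY : Q ≤ 4 * Y := by
      have h1 : (Q : ℝ) ≤ Z ^ (1 / 4 - ε) := hQ.trans hδε
      have h2 : Z ^ (1 / 4 - ε) ≤ Z ^ (1 : ℝ) := Real.rpow_le_rpow_of_exponent_le hZ1.le (by linarith)
      rw [Real.rpow_one] at h2
      have h3 : (Q : ℝ) ≤ ((4 * Y : ℕ) : ℝ) := by push_cast; linarith
      exact_mod_cast h3
    have h1 : (Nat.log 2 (4 * Y) : ℝ) * Real.log 2 ≤ L := by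
      rw [← Real.log_pow, hL]
      apply Real.log_le_log (by positivity)
      have := Nat.pow_log_le_self 2 (show 4 * Y ≠ 0 by omega)
      exact_mod_cast this
    have h2 := Real.log_two_gt_d9
    have h3 : (Nat.log 2 (4 * Y) : ℝ) ≤ 2 * L := by nlinarith [Nat.cast_nonneg (α := ℝ) (Nat.log 2 (4 * Y))]
    have h4 : (Nat.log 2 Q : ℝ) ≤ Nat.log 2 (4 * Y) := by exact_mod_cast Nat.log_mono_right hQY
    push_cast
    linarith
  have hsumS : ∑ k ∈ Icc 1 Q, ‖S k‖ ≤ 3 * L * Z ^ (1 - ε / 4) := by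
    refine hall.trans ?_
    gcongr
  -- lower bound
  have hlow : 3 * δ * (Y / 20) - 90 * δ * (3 * L * Z ^ (1 - ε / 4)) ≤
      ∑ n ∈ Ioc Y (4 * Y), w n * (g 0 + ∑ k ∈ Icc 1 Q, g k * Real.cos (2 * Real.pi * (k * (√(n : ℝ) - β)))) := by
    have e1 : ∑ n ∈ Ioc Y (4 * Y), w n * (g 0 + ∑ k ∈ Icc 1 Q, g k * Real.cos (2 * Real.pi * (k * (√(n : ℝ) - β)))) =
        g 0 * ∑ n ∈ Ioc Y (4 * Y), w n + ∑ k ∈ Icc 1 Q, g k * ∑ n ∈ Ioc Y (4 * Y), w n * Real.cos (2 * Real.pi * (k * (√(n : ℝ) - β))) := by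
      simp_rw [mul_add, sum_add_distrib, mul_sum]
      rw [sum_comm (s := Ioc Y (4 * Y))]
      congr 1
      · apply sum_congr rfl; intro n _; ring
      · apply sum_congr rfl; intro k _
        apply sum_congr rfl; intro n _
        ring
    rw [e1]
    have e2 : 3 * δ * (Y / 20) ≤ g 0 * ∑ n ∈ Ioc Y (4 * Y), w n :=
      mul_le_mul hg0 hmt (by positivity) (by linarith)
    have e3 : |∑ k ∈ Icc 1 Q, g k * ∑ n ∈ Ioc Y (4 * Y), w n * Real.cos (2 * Real.pi * (k * (√(n : ℝ) - β)))| ≤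
        90 * δ * (3 * L * Z ^ (1 - ε / 4)) := by
      refine (abs_sum_le_sum_abs _ _).trans ?_
      calc _ ≤ ∑ k ∈ Icc 1 Q, 90 * δ * ‖S k‖ := by
            apply sum_le_sum
            intro k hk
            rw [abs_mul]
            exact mul_le_mul (hg k hk) (hcosk k) (abs_nonneg _) (by positivity)
        _ = 90 * δ * ∑ k ∈ Icc 1 Q, ‖S k‖ := by rw [mul_sum]
        _ ≤ _ := by gcongr
    have := abs_le.1 e3
    linarith
  -- upper bound
  set F := (Ioc Y (4 * Y)).filter (fun n : ℕ => |(√(n : ℝ) - β) - round (√(n : ℝ) - β)| < δ) with hF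
  have hup : ∑ n ∈ Ioc Y (4 * Y), w n * (g 0 + ∑ k ∈ Icc 1 Q, g k * Real.cos (2 * Real.pi * (k * (√(n : ℝ) - β)))) ≤
      90 * ∑ n ∈ F, ArithmeticFunction.vonMangoldt n := by
    calc _ ≤ ∑ n ∈ Ioc Y (4 * Y), (if |(√(n : ℝ) - β) - round (√(n : ℝ) - β)| < δ then 90 * ArithmeticFunction.vonMangoldt n else 0) := by
          apply sum_le_sum
          intro n _
          have h1 := mul_le_mul_of_nonneg_left (hmin (√(n : ℝ) - β)) (hw0 n)
          refine h1.trans ?_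
          split_ifs
          · have := hwΛ n
            linarith
          · rw [mul_zero]
      _ = _ := by
          rw [← sum_filter, mul_sum]
  -- the prime powers
  have hpp : ∑ n ∈ F, ArithmeticFunction.vonMangoldt n ≤
      L * (#((Ioc Y (4 * Y)).filter (fun p : ℕ => p.Prime ∧ |(√(p : ℝ) - β) - round (√(p : ℝ) - β)| < δ)) : ℝ) +
        2 * √(4 * Y : ℝ) * L := by
    have h1 : ∑ n ∈ F, ArithmeticFunction.vonMangoldt n = ∑ n ∈ F.filter Nat.Prime, ArithmeticFunction.vonMangoldt n +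
        ∑ n ∈ F.filter (fun n => ¬ n.Prime), ArithmeticFunction.vonMangoldt n := (sum_filter_add_sum_filter_not _ _ _).symm
    rw [h1]
    apply add_le_add
    · have h2 : F.filter Nat.Prime = (Ioc Y (4 * Y)).filter (fun p : ℕ => p.Prime ∧ |(√(p : ℝ) - β) - round (√(p : ℝ) - β)| < δ) := by
        ext n
        simp only [hF, mem_filter]
        tauto
      rw [h2]
      calc _ ≤ ∑ n ∈ (Ioc Y (4 * Y)).filter (fun p : ℕ => p.Prime ∧ |(√(p : ℝ) - β) - round (√(p : ℝ) - β)| < δ), L := by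
            apply sum_le_sum
            intro n hn
            rw [mem_filter, mem_Ioc] at hn
            refine ArithmeticFunction.vonMangoldt_le_log.trans ?_
            rw [hL]
            apply Real.log_le_log (by exact_mod_cast (by omega : 0 < n))
            exact_mod_cast hn.1.2
        _ = _ := by rw [sum_const, nsmul_eq_mul, mul_comm]
    · have h3 := Chebyshev.psi_sub_theta_le (x := ((4 * Y : ℕ) : ℝ)) (by push_cast; linarith)
      rw [Chebyshev.psi_sub_theta_eq_sum_not_prime, Nat.floor_natCast] at h3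
      have h4 : ((4 * Y : ℕ) : ℝ) = 4 * Y := by push_cast; ring
      rw [h4, ← hL] at h3
      refine le_trans (sum_le_sum_of_subset_of_nonneg ?_ (fun _ _ _ => ArithmeticFunction.vonMangoldt_nonneg)) h3
      intro n hn
      simp only [hF, mem_filter, mem_Ioc] at hn ⊢
      exact ⟨⟨by omega, hn.1.1.2⟩, hn.2⟩
  -- numerics
  obtain ⟨N, hN⟩ : ∃ N : ℝ, N = (#((Ioc Y (4 * Y)).filter (fun p : ℕ => p.Prime ∧ |(√(p : ℝ) - β) - round (√(p : ℝ) - β)| < δ)) : ℝ) := ⟨_, rfl⟩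
  rw [← hN] at hpp ⊢
  have hE : 270 * L * Z ^ (1 - ε / 4) ≤ Y / 100 := by
    have h1 : 270 * L * Z ^ (1 - ε / 4) ≤ 540 * (Z ^ (ε / 8) * Z ^ (1 - ε / 4)) := by
      have : 0 ≤ Z ^ (1 - ε / 4) := by positivity
      nlinarith
    have h2 : Z ^ (ε / 8) * Z ^ (1 - ε / 4) * Z ^ (ε / 8) = Z := by
      rw [← Real.rpow_add hZ0, ← Real.rpow_add hZ0]
      have : ε / 8 + (1 - ε / 4) + ε / 8 = 1 := by ring
      rw [this, Real.rpow_one]
    have h3 : (Z ^ (ε / 8) * Z ^ (1 - ε / 4)) * 1000000 ≤ Z := by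
      calc _ ≤ Z ^ (ε / 8) * Z ^ (1 - ε / 4) * Z ^ (ε / 8) := by gcongr
        _ = Z := h2
    linarith
  have hδY : Z ^ (3 / 4 : ℝ) ≤ δ * Y := by
    have h1 : 2 / δ ≤ Z ^ (1 / 4 : ℝ) := hδε.trans (Real.rpow_le_rpow_of_exponent_le hZ1.le (by linarith))
    rw [div_le_iff₀ hδ] at h1
    have h2 : Z ^ (3 / 4 : ℝ) * Z ^ (1 / 4 : ℝ) = Z := by
      rw [← Real.rpow_add hZ0]; norm_num
    have h3 : Z ^ (3 / 4 : ℝ) * 2 ≤ Z ^ (3 / 4 : ℝ) * (Z ^ (1 / 4 : ℝ) * δ) := by gcongr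
    rw [← mul_assoc, h2] at h3
    rw [hZ2] at h3 ⊢
    linarith
  have hsq : 2 * √(4 * Y : ℝ) * L ≤ 1 / 10000 * (δ * Y) := by
    have h1 : √(4 * Y : ℝ) ≤ 2 * Z ^ (1 / 2 : ℝ) := by
      rw [h4Y, Real.sqrt_eq_rpow, Real.mul_rpow (by norm_num) hZ0.le]
      gcongr
      calc (2 : ℝ) ^ (1 / 2 : ℝ) ≤ 2 ^ (1 : ℝ) := Real.rpow_le_rpow_of_exponent_le (by norm_num) (by norm_num)
        _ = 2 := Real.rpow_one 2
    have h2 : 2 * √(4 * Y : ℝ) * L ≤ 2 * (2 * Z ^ (1 / 2 : ℝ)) * (2 * Z ^ (1 / 16 : ℝ)) := by gcongr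
    have h3 : Z ^ (1 / 2 : ℝ) * Z ^ (1 / 16 : ℝ) * 1000000 ≤ Z ^ (3 / 4 : ℝ) := by
      have h4 : Z ^ (1 / 2 : ℝ) * Z ^ (1 / 16 : ℝ) * Z ^ (1 / 16 : ℝ) ≤ Z ^ (3 / 4 : ℝ) := by
        rw [← Real.rpow_add hZ0, ← Real.rpow_add hZ0]
        exact Real.rpow_le_rpow_of_exponent_le hZ1.le (by norm_num)
      refine le_trans ?_ h4
      gcongr
    nlinarith
  have hfin : 3 * δ * (Y / 20) - 90 * δ * (3 * L * Z ^ (1 - ε / 4)) ≤ 90 * (L * N + 2 * √(4 * Y : ℝ) * L) := by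
    calc _ ≤ _ := hlow
      _ ≤ _ := hup
      _ ≤ _ := by gcongr
  have hfin2 : 90 * δ * (3 * L * Z ^ (1 - ε / 4)) ≤ δ * (Y / 100) := by
    have := mul_le_mul_of_nonneg_left hE hδ.le
    linarith
  have hδY0 : 0 ≤ δ * Y := by positivity
  rw [div_le_iff₀ (by positivity)]
  nlinarith

end Pool.Agent.V5helper51.BH
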