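import Mathlib
import Pool.Agent.V5helper51.BH.First
import Pool.Agent.V5helper51.BH.Sec

/-! The first moment of the number of the primes `n² ± a`, `a ≤ A`, and Cauchy's inequality. -/

set_option autoImplicit false

namespace Pool.Agent.V5helper51.BH

open Finset Filter

/-- the first moment -/
theorem first_moment : ∃ c : ℝ, 0 < c ∧ ∀ ε : ℝ, 0 < ε → ∃ N0 : ℕ, ∀ N A : ℕ, N0 ≤ N →
    (N : ℝ) ^ (1 / 2 + ε) ≤ A → A ≤ N → ∀ s : ℤ, (s = 1 ∨ s = -1) →
      c * A * (N / Real.log N) ≤ ∑ a ∈ Icc 1 A, (cnt s a (N / 8) N : ℝ) := by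
  classical
  refine ⟨1 / 100000, by norm_num, ?_⟩
  intro ε hε
  obtain ⟨ε1, hε1⟩ : ∃ ε1, ε1 = min ε (1 / 4) := ⟨_, rfl⟩
  have hε10 : 0 < ε1 := by rw [hε1]; positivity
  have hε1ε : ε1 ≤ ε := by rw [hε1]; exact min_le_left _ _
  have hε14 : ε1 ≤ 1 / 4 := by rw [hε1]; exact min_le_right _ _
  obtain ⟨Y0, hY0⟩ := first (ε1 / 4) (by positivity)
  have ev1 : ∀ᶠ x : ℝ in atTop, (32 : ℝ) ≤ x ^ (ε1 / 2) := (tendsto_rpow_atTop (by positivity)).eventually_ge_atTop _
  obtain ⟨X1, hX1⟩ := eventually_atTop.1 ev1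
  refine ⟨⌈X1⌉₊ + 4 * Y0 + 100, ?_⟩
  intro N A hN hA1 hA2 s hs
  have hN100 : 100 ≤ N := by omega
  have hNr : (100 : ℝ) ≤ N := by exact_mod_cast hN100
  have hN0 : (0 : ℝ) < N := by linarith
  have hX1N : X1 ≤ N := (Nat.le_ceil _).trans (by exact_mod_cast (by omega : ⌈X1⌉₊ ≤ N))
  have h32 := hX1 N hX1N
  obtain ⟨Y, hY⟩ : ∃ Y : ℕ, Y = N ^ 2 / 4 := ⟨_, rfl⟩
  have hY4 : 4 * Y ≤ N ^ 2 := by rw [hY]; exact Nat.mul_div_le _ _
  have hY5 : N ^ 2 < 4 * Y + 4 := by rw [hY]; omega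
  have hNN : 100 * N ≤ N ^ 2 := by rw [sq]; exact Nat.mul_le_mul_right _ hN100
  have hYY0 : Y0 ≤ Y := by omega
  have hYn : 1 ≤ Y := by omega
  have hYr1 : 4 * (Y : ℝ) ≤ (N : ℝ) ^ 2 := by exact_mod_cast hY4
  have hYr2 : (N : ℝ) ^ 2 < 4 * Y + 4 := by exact_mod_cast hY5
  have hA0 : (1 : ℝ) ≤ A := by
    refine le_trans ?_ hA1
    exact Real.one_le_rpow (by linarith) (by linarith)
  have hAN : (A : ℝ) ≤ N := by exact_mod_cast hA2
  obtain ⟨δ, hδ⟩ : ∃ δ : ℝ, δ = A / (8 * N) := ⟨_, rfl⟩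
  have hδ0 : 0 < δ := by rw [hδ]; positivity
  have hδ8 : δ ≤ 1 / 8 := by rw [hδ, div_le_div_iff₀ (by positivity) (by norm_num)]; linarith
  have hδN : 8 * δ * N = A := by rw [hδ]; field_simp
  have hcond : 2 / δ ≤ ((2 * Y : ℕ) : ℝ) ^ (1 / 4 - ε1 / 4) := by
    have h1 : 2 / δ = 16 * (N / A) := by rw [hδ]; field_simp; norm_num
    have h2 : (N : ℝ) / A ≤ (N : ℝ) ^ (1 / 2 - ε1) := by
      rw [div_le_iff₀ (by linarith)]
      calc (N : ℝ) = (N : ℝ) ^ (1 / 2 - ε1) * (N : ℝ) ^ (1 / 2 + ε1) := by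
            rw [← Real.rpow_add hN0]
            have : (1 / 2 - ε1 + (1 / 2 + ε1) : ℝ) = 1 := by ring
            rw [this, Real.rpow_one]
        _ ≤ (N : ℝ) ^ (1 / 2 - ε1) * A := by
            apply mul_le_mul_of_nonneg_left _ (by positivity)
            refine le_trans ?_ hA1
            exact Real.rpow_le_rpow_of_exponent_le (by linarith) (by linarith)
    have h3 : ((N : ℝ) / 2) ^ 2 ≤ ((2 * Y : ℕ) : ℝ) := by
      push_cast
      nlinarith
    have h4 : ((N : ℝ) / 2) ^ (1 / 2 - ε1 / 2) ≤ ((2 * Y : ℕ) : ℝ) ^ (1 / 4 - ε1 / 4) := by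
      have h5 : ((N : ℝ) / 2) ^ (1 / 2 - ε1 / 2) = (((N : ℝ) / 2) ^ 2) ^ (1 / 4 - ε1 / 4) := by
        rw [← Real.rpow_natCast, ← Real.rpow_mul (by positivity)]
        congr 1
        push_cast
        ring
      rw [h5]
      apply Real.rpow_le_rpow (by positivity) h3 (by linarith)
    have h6 : (N : ℝ) ^ (1 / 2 - ε1 / 2) / 2 ≤ ((N : ℝ) / 2) ^ (1 / 2 - ε1 / 2) := by
      rw [Real.div_rpow hN0.le (by norm_num)]
      apply div_le_div_of_nonneg_left (by positivity) (by positivity)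
      calc (2 : ℝ) ^ (1 / 2 - ε1 / 2) ≤ 2 ^ (1 : ℝ) := Real.rpow_le_rpow_of_exponent_le (by norm_num) (by linarith)
        _ = 2 := Real.rpow_one 2
    have h7 : (N : ℝ) ^ (1 / 2 - ε1 / 2) = (N : ℝ) ^ (1 / 2 - ε1) * (N : ℝ) ^ (ε1 / 2) := by
      rw [← Real.rpow_add hN0]; congr 1; ring
    rw [h1]
    have h8 : 0 < (N : ℝ) ^ (1 / 2 - ε1) := by positivity
    nlinarith
  obtain ⟨β, hβ⟩ : ∃ β : ℝ, β = s * δ := ⟨_, rfl⟩
  have hf := hY0 Y hYY0 δ β hδ0 (by linarith) hcond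
  -- lower bound for the expression
  have hL : Real.log (4 * Y) ≤ 2 * Real.log N := by
    have h1 : (2 : ℝ) * Real.log N = Real.log ((N : ℝ) ^ 2) := by rw [Real.log_pow]; norm_num
    rw [h1]
    apply Real.log_le_log (by positivity) hYr1
  have hLN : 0 < Real.log N := Real.log_pos (by linarith)
  have hL0 : 0 < Real.log (4 * Y) := Real.log_pos (by
    have : (1 : ℝ) ≤ Y := by exact_mod_cast hYn
    linarith)
  have hlow : 1 / 100000 * A * (N / Real.log N) ≤ δ * Y / (1000 * Real.log (4 * Y)) := by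
    have h1 : δ * Y / (1000 * (2 * Real.log N)) ≤ δ * Y / (1000 * Real.log (4 * Y)) := by
      apply div_le_div_of_nonneg_left (by positivity) (by positivity)
      linarith
    refine le_trans ?_ h1
    have h2 : (N : ℝ) ^ 2 / 5 ≤ Y := by nlinarith
    have h3 : δ * ((N : ℝ) ^ 2 / 5) ≤ δ * Y := mul_le_mul_of_nonneg_left h2 hδ0.le
    have h4 : δ * ((N : ℝ) ^ 2 / 5) = A * N / 40 := by rw [← hδN]; ring
    rw [h4] at h3
    rw [le_div_iff₀ (by positivity)]
    have h5 : 1 / 100000 * A * (N / Real.log N) * (1000 * (2 * Real.log N)) = A * N / 50 := by field_simp; norm_num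
    rw [h5]
    have : 0 ≤ (A : ℝ) * N := by positivity
    linarith
  refine hlow.trans (hf.trans ?_)
  -- the injection
  have hsum : ∑ a ∈ Icc 1 A, (cnt s a (N / 8) N : ℝ) =
      (#(((Icc 1 A) ×ˢ (Ioc (N / 8) N)).filter (fun q => (vv s q.1 q.2).Prime)) : ℝ) := by
    rw [← Nat.cast_sum]
    congr 1
    unfold cnt
    rw [card_filter, sum_product]
    apply sum_congr rfl
    intro a _
    rw [card_filter]
  rw [hsum]
  have hcard : #((Ioc Y (4 * Y)).filter (fun p : ℕ => p.Prime ∧ |(√(p : ℝ) - β) - round (√(p : ℝ) - β)| < δ)) ≤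
      #(((Icc 1 A) ×ˢ (Ioc (N / 8) N)).filter (fun q => (vv s q.1 q.2).Prime)) := by
    apply card_le_card_of_injOn (fun p : ℕ => (((p : ℤ) - (round (√(p : ℝ) - β)) ^ 2).natAbs, (round (√(p : ℝ) - β)).toNat))
    · intro p hp
      rw [mem_coe, mem_filter, mem_Ioc] at hp
      obtain ⟨⟨hp1, hp2⟩, hpp, hpr⟩ := hp
      obtain ⟨k, hk⟩ : ∃ k : ℤ, k = round (√(p : ℝ) - β) := ⟨_, rfl⟩
      rw [← hk] at hpr
      obtain ⟨x, hx⟩ : ∃ x : ℝ, x = √(p : ℝ) := ⟨_, rfl⟩
      rw [← hx] at hpr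
      have hxx : x * x = p := by rw [hx]; exact Real.mul_self_sqrt (Nat.cast_nonneg _)
      have hx0 : 0 ≤ x := by rw [hx]; exact Real.sqrt_nonneg _
      have hpN : p < N ^ 2 := by
        rcases lt_or_eq_of_le (hp2.trans hY4) with h | h
        · exact h
        · exfalso
          rw [h] at hpp
          exact Nat.Prime.not_prime_pow (le_refl 2) hpp
      have hpNr : (p : ℝ) < (N : ℝ) ^ 2 := by exact_mod_cast hpN
      have hxN : x < N := by nlinarith
      have hpY : (Y : ℝ) < p := by exact_mod_cast hp1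
      have hxN3 : (N : ℝ) / 3 < x := by nlinarith
      rw [abs_lt] at hpr
      have hβδ : |β| ≤ δ := by
        rw [hβ]
        rcases hs with rfl | rfl
        · push_cast; rw [one_mul, abs_of_pos hδ0]
        · push_cast; rw [neg_one_mul, abs_neg, abs_of_pos hδ0]
      have hβδ' := abs_le.1 hβδ
      have hk0 : (N : ℝ) / 8 < k := by linarith
      have hkN : (k : ℝ) < N + 1 := by linarith
      have hk0' : 0 < k := by
        have : (0 : ℝ) < k := lt_trans (by positivity) hk0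
        exact_mod_cast this
      obtain ⟨m, rfl⟩ : ∃ m : ℕ, k = (m : ℤ) := ⟨k.toNat, by omega⟩
      rw [mem_coe, mem_filter, mem_product, mem_Icc, mem_Ioc]
      simp only
      rw [← hk]
      have hm1 : N / 8 < m := by
        rw [Nat.div_lt_iff_lt_mul (by norm_num)]
        push_cast at hk0
        have : (N : ℝ) < m * 8 := by linarith
        exact_mod_cast this
      have hm2 : m ≤ N := by
        push_cast at hkN
        have : (m : ℝ) < ((N + 1 : ℕ) : ℝ) := by push_cast; exact hkN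
        have : m < N + 1 := by exact_mod_cast this
        omega
      have hmr : (m : ℝ) ≤ N := by exact_mod_cast hm2
      push_cast at hpr
      have htoNat : ((m : ℤ)).toNat = m := Int.toNat_natCast m
      rw [htoNat]
      have hpne : (p : ℤ) ≠ (m : ℤ) ^ 2 := by
        intro h
        have h1 : p = m ^ 2 := by exact_mod_cast h
        rw [h1] at hpp
        exact Nat.Prime.not_prime_pow (le_refl 2) hpp
      rcases hs with rfl | rfl
      · -- plus
        have hβ1 : β = δ := by rw [hβ]; push_cast; ring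
        rw [hβ1] at hpr
        have g1 : (m : ℝ) < x := by linarith
        have g2 : x < m + 2 * δ := by linarith
        have g3 : (m : ℝ) ^ 2 < p := by nlinarith
        have g3' : m ^ 2 < p := by exact_mod_cast g3
        have g4 : (p : ℝ) - (m : ℝ) ^ 2 ≤ A := by nlinarith
        have g5 : ((p : ℤ) - (m : ℤ) ^ 2).natAbs = p - m ^ 2 := by
          have : ((p : ℤ) - (m : ℤ) ^ 2) = ((p - m ^ 2 : ℕ) : ℤ) := by
            rw [Nat.cast_sub g3'.le]; push_cast; ring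
          rw [this, Int.natAbs_natCast]
        rw [g5]
        have g6 : p - m ^ 2 ≤ A := by
          have : ((p - m ^ 2 : ℕ) : ℝ) ≤ A := by rw [Nat.cast_sub g3'.le]; push_cast; exact g4
          exact_mod_cast this
        refine ⟨⟨⟨by omega, g6⟩, hm1, hm2⟩, ?_⟩
        unfold vv
        have g7 : (m : ℤ) ^ 2 + 1 * ((p - m ^ 2 : ℕ) : ℤ) = (p : ℤ) := by
          rw [Nat.cast_sub g3'.le]; push_cast; ring
        rw [g7, Int.natAbs_natCast]
        exact hpp
      · -- minus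
        have hβ1 : β = -δ := by rw [hβ]; push_cast; ring
        rw [hβ1] at hpr
        have g1 : x < m := by linarith
        have g2 : (m : ℝ) - 2 * δ < x := by linarith
        have g3 : (p : ℝ) < (m : ℝ) ^ 2 := by nlinarith
        have g3' : p < m ^ 2 := by exact_mod_cast g3
        have g4 : (m : ℝ) ^ 2 - (p : ℝ) ≤ A := by nlinarith
        have g5 : ((p : ℤ) - (m : ℤ) ^ 2).natAbs = m ^ 2 - p := by
          have : ((p : ℤ) - (m : ℤ) ^ 2) = -((m ^ 2 - p : ℕ) : ℤ) := by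
            rw [Nat.cast_sub g3'.le]; push_cast; ring
          rw [this, Int.natAbs_neg, Int.natAbs_natCast]
        rw [g5]
        have g6 : m ^ 2 - p ≤ A := by
          have : ((m ^ 2 - p : ℕ) : ℝ) ≤ A := by rw [Nat.cast_sub g3'.le]; push_cast; exact g4
          exact_mod_cast this
        refine ⟨⟨⟨by omega, g6⟩, hm1, hm2⟩, ?_⟩
        unfold vv
        have g7 : (m : ℤ) ^ 2 + -1 * ((m ^ 2 - p : ℕ) : ℤ) = (p : ℤ) := by
          rw [Nat.cast_sub g3'.le]; push_cast; ring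
        rw [g7, Int.natAbs_natCast]
        exact hpp
    · -- injectivity
      intro p hp p' hp' hpq
      rw [mem_coe, mem_filter, mem_Ioc] at hp hp'
      simp only [Prod.mk.injEq] at hpq
      obtain ⟨h1, h2⟩ := hpq
      have key : ∀ q : ℕ, q ∈ ((Ioc Y (4 * Y)).filter (fun p : ℕ => p.Prime ∧ |(√(p : ℝ) - β) - round (√(p : ℝ) - β)| < δ)) →
          0 < round (√(q : ℝ) - β) ∧ 0 < s * ((q : ℤ) - (round (√(q : ℝ) - β)) ^ 2) := by
        intro q hq
        rw [mem_filter, mem_Ioc] at hq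
        obtain ⟨⟨hq1, hq2⟩, hqp, hqr⟩ := hq
        obtain ⟨k, hk⟩ : ∃ k : ℤ, k = round (√(q : ℝ) - β) := ⟨_, rfl⟩
        rw [← hk] at hqr ⊢
        obtain ⟨x, hx⟩ : ∃ x : ℝ, x = √(q : ℝ) := ⟨_, rfl⟩
        rw [← hx] at hqr
        have hxx : x * x = q := by rw [hx]; exact Real.mul_self_sqrt (Nat.cast_nonneg _)
        have hx0 : 0 ≤ x := by rw [hx]; exact Real.sqrt_nonneg _
        have hqY : (Y : ℝ) < q := by exact_mod_cast hq1
        have hxN3 : (N : ℝ) / 3 < x := by nlinarith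
        rw [abs_lt] at hqr
        rcases hs with rfl | rfl
        · have hβ1 : β = δ := by rw [hβ]; push_cast; ring
          rw [hβ1] at hqr
          have g0 : (0 : ℝ) < k := by linarith
          have g1 : (k : ℝ) < x := by linarith
          have g3 : (k : ℝ) ^ 2 < q := by nlinarith
          have g3' : k ^ 2 < (q : ℤ) := by exact_mod_cast g3
          refine ⟨by exact_mod_cast g0, by linarith⟩
        · have hβ1 : β = -δ := by rw [hβ]; push_cast; ring
          rw [hβ1] at hqr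
          have g0 : (0 : ℝ) < k := by linarith
          have g1 : x < k := by linarith
          have g3 : (q : ℝ) < (k : ℝ) ^ 2 := by nlinarith
          have g3' : (q : ℤ) < k ^ 2 := by exact_mod_cast g3
          refine ⟨by exact_mod_cast g0, by linarith⟩
      have k1 := key p (by rw [mem_filter, mem_Ioc]; exact hp)
      have k2 := key p' (by rw [mem_filter, mem_Ioc]; exact hp')
      have h3 : round (√(p : ℝ) - β) = round (√(p' : ℝ) - β) := by omega
      rw [h3] at h1 k1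
      rcases hs with rfl | rfl <;> omega
  exact_mod_cast hcard

/-- a positive proportion of the `a ≤ A` -/
theorem prop_lower : ∃ c : ℝ, 0 < c ∧ ∀ ε : ℝ, 0 < ε → ∃ N0 : ℕ, ∀ N A : ℕ, N0 ≤ N →
    (N : ℝ) ^ (1 / 2 + ε) ≤ A → A ≤ N → ∀ s : ℤ, (s = 1 ∨ s = -1) →
      c * A ≤ (#((Icc 1 A).filter (fun a => c * (N / Real.log N) ≤ (cnt s a (N / 8) N : ℝ))) : ℝ) := by
  classical
  obtain ⟨c1, hc1, hfm⟩ := first_moment
  obtain ⟨C, hC, N1, hsm⟩ := second
  obtain ⟨c, hc⟩ : ∃ c, c = min (c1 / 2) (c1 ^ 2 / (4 * C)) := ⟨_, rfl⟩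
  have hc0 : 0 < c := by rw [hc]; positivity
  have hcc1 : c ≤ c1 / 2 := by rw [hc]; exact min_le_left _ _
  have hcc2 : c ≤ c1 ^ 2 / (4 * C) := by rw [hc]; exact min_le_right _ _
  refine ⟨c, hc0, ?_⟩
  intro ε hε
  obtain ⟨N2, hN2⟩ := hfm ε hε
  refine ⟨N1 + N2 + 100, ?_⟩
  intro N A hN hA1 hA2 s hs
  have hNr : (100 : ℝ) ≤ N := by exact_mod_cast (by omega : 100 ≤ N)
  have hL : 0 < Real.log N := Real.log_pos (by linarith)
  have h1 := hN2 N A (by omega) hA1 hA2 s hs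
  have h2 := hsm N A (by omega) (le_trans (Real.rpow_le_rpow_of_exponent_le (by linarith) (by linarith)) hA1) (by
    have h3 : N < 8 * (N / 8 + 1) := by omega
    have h4 : 8 * (N / 8 + 1) ≤ (N / 8 + 1) * (N / 8 + 1) := Nat.mul_le_mul_right _ (by omega)
    rw [sq]
    omega) s hs
  obtain ⟨X, hX⟩ : ∃ X : ℝ, X = N / Real.log N := ⟨_, rfl⟩
  have hX0 : 0 < X := by rw [hX]; positivity
  rw [← hX] at h1 h2 ⊢
  have hA0 : (1 : ℝ) ≤ A := by
    refine le_trans ?_ hA1
    exact Real.one_le_rpow (by linarith) (by linarith)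
  set G := (Icc 1 A).filter (fun a => c * X ≤ (cnt s a (N / 8) N : ℝ)) with hG
  have h3 : ∑ a ∈ Icc 1 A, (cnt s a (N / 8) N : ℝ) = ∑ a ∈ G, (cnt s a (N / 8) N : ℝ) +
      ∑ a ∈ (Icc 1 A).filter (fun a => ¬ c * X ≤ (cnt s a (N / 8) N : ℝ)), (cnt s a (N / 8) N : ℝ) :=
    (sum_filter_add_sum_filter_not _ _ _).symm
  have h4 : ∑ a ∈ (Icc 1 A).filter (fun a => ¬ c * X ≤ (cnt s a (N / 8) N : ℝ)), (cnt s a (N / 8) N : ℝ) ≤ A * (c * X) := by
    calc _ ≤ ∑ a ∈ (Icc 1 A).filter (fun a => ¬ c * X ≤ (cnt s a (N / 8) N : ℝ)), c * X := by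
          apply sum_le_sum
          intro a ha
          rw [mem_filter] at ha
          push Not at ha
          exact ha.2.le
      _ = (#((Icc 1 A).filter (fun a => ¬ c * X ≤ (cnt s a (N / 8) N : ℝ))) : ℝ) * (c * X) := by
          rw [sum_const, nsmul_eq_mul]
      _ ≤ A * (c * X) := by
          apply mul_le_mul_of_nonneg_right _ (by positivity)
          have := card_filter_le (Icc 1 A) (fun a => ¬ c * X ≤ (cnt s a (N / 8) N : ℝ))
          rw [Nat.card_Icc, Nat.add_sub_cancel] at this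
          exact_mod_cast this
  have h5 : (∑ a ∈ G, (cnt s a (N / 8) N : ℝ)) ^ 2 ≤ (#G : ℝ) * (C * A * X ^ 2) := by
    calc (∑ a ∈ G, (cnt s a (N / 8) N : ℝ)) ^ 2 ≤ (#G : ℝ) * ∑ a ∈ G, (cnt s a (N / 8) N : ℝ) ^ 2 := sq_sum_le_card_mul_sum_sq
      _ ≤ (#G : ℝ) * (C * A * X ^ 2) := by
          apply mul_le_mul_of_nonneg_left _ (Nat.cast_nonneg _)
          refine le_trans (sum_le_sum_of_subset_of_nonneg (filter_subset _ _) (fun _ _ _ => by positivity)) h2
  have h6 : c1 / 2 * (A * X) ≤ ∑ a ∈ G, (cnt s a (N / 8) N : ℝ) := by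
    have : A * (c * X) ≤ c1 / 2 * (A * X) := by
      have : 0 ≤ (A : ℝ) * X := by positivity
      nlinarith
    nlinarith
  have h7 : (c1 / 2 * (A * X)) ^ 2 ≤ (#G : ℝ) * (C * A * X ^ 2) :=
    (pow_le_pow_left₀ (by positivity) h6 2).trans h5
  have h8 : c1 ^ 2 / (4 * C) * A * (C * A * X ^ 2) ≤ (#G : ℝ) * (C * A * X ^ 2) := by
    refine le_trans (le_of_eq ?_) h7
    field_simp
    norm_num
  have h9 : c1 ^ 2 / (4 * C) * A ≤ (#G : ℝ) := le_of_mul_le_mul_right h8 (by positivity)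
  refine le_trans ?_ h9
  gcongr

end Pool.Agent.V5helper51.BH
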