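import Mathlib
import Pool.Agent.V5helper51.BH.Mom
import Pool.Agent.V5helper51.BH.Hup

/-! The lower bound of the order of Hardy and Littlewood for a positive proportion of the `a ≤ A`. -/

set_option autoImplicit false

namespace Pool.Agent.V5helper51.BH

open Finset Filter Topology

/-- both signs: `h_a` is bounded for most `a` -/
theorem hup (s : ℤ) (hs : s = 1 ∨ s = -1) (η : ℝ) (hη : 0 < η) :
    ∃ K : ℝ, 0 < K ∧ ∃ A0 : ℕ, ∀ A : ℕ, A0 ≤ A →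
    ∃ Ex ⊆ Icc 1 A, (#Ex : ℝ) ≤ η * A ∧ ∀ a ∈ Icc 1 A, a ∉ Ex →
      ∃ h : ℝ, 0 < h ∧ h ≤ K ∧ Tendsto (fun X : ℕ => hpr (s * a) X) atTop (𝓝 h) := by
  rcases hs with rfl | rfl
  · obtain ⟨K, hK, A0, h⟩ := hup_pos η hη
    refine ⟨K, hK, A0, fun A hA => ?_⟩
    obtain ⟨Ex, h1, h2, h3⟩ := h A hA
    refine ⟨Ex, h1, h2, fun a ha haE => ?_⟩
    obtain ⟨S, q1, q2, q3⟩ := h3 a ha haE
    refine ⟨S, q1, q2, ?_⟩
    simpa using q3
  · exact hup_neg η hη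

theorem fin_main : ∃ c : ℝ, 0 < c ∧ ∀ ε : ℝ, 0 < ε → ∃ N0 : ℕ, ∀ N A : ℕ, N0 ≤ N →
    (N : ℝ) ^ (1 / 2 + ε) ≤ A → A ≤ N → ∀ s : ℤ, (s = 1 ∨ s = -1) →
      ∃ G ⊆ Icc 1 A, c * A ≤ (#G : ℝ) ∧ ∀ a ∈ G, ∃ h : ℝ, 0 < h ∧
        Tendsto (fun X : ℕ => hpr (s * a) X) atTop (𝓝 h) ∧
        c * (N / Real.log N) ≤ (cnt s a (N / 8) N : ℝ) ∧
        c * (1 / 2 * h * ∫ t in (2 : ℝ)..(N : ℝ), 1 / Real.log t) ≤ (cnt s a (N / 8) N : ℝ) := by
  classical
  obtain ⟨c1, hc1, hlow⟩ := prop_lower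
  obtain ⟨K1, hK1, A1, hu1⟩ := hup 1 (Or.inl rfl) (c1 / 2) (by positivity)
  obtain ⟨K2, hK2, A2, hu2⟩ := hup (-1) (Or.inr rfl) (c1 / 2) (by positivity)
  obtain ⟨K, hKe⟩ : ∃ K, K = max K1 K2 := ⟨_, rfl⟩
  have hK : 0 < K := by rw [hKe]; positivity
  have hKK1 : K1 ≤ K := by rw [hKe]; exact le_max_left _ _
  have hKK2 : K2 ≤ K := by rw [hKe]; exact le_max_right _ _
  obtain ⟨N3, hN3⟩ := eventually_atTop.1 (Pool.Agent.N792.li_upper2 1 one_pos)
  obtain ⟨c, hc⟩ : ∃ c, c = min (c1 / 2) (c1 / K) := ⟨_, rfl⟩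
  have hc0 : 0 < c := by rw [hc]; positivity
  have hcc1 : c ≤ c1 / 2 := by rw [hc]; exact min_le_left _ _
  have hcc2 : c ≤ c1 / K := by rw [hc]; exact min_le_right _ _
  refine ⟨c, hc0, fun ε hε => ?_⟩
  obtain ⟨N0, hN0⟩ := hlow ε hε
  obtain ⟨N4, hN4⟩ := eventually_atTop.1
    (((tendsto_rpow_atTop (show (0 : ℝ) < 1 / 2 + ε by positivity)).comp
      tendsto_natCast_atTop_atTop).eventually_ge_atTop ((max A1 A2 : ℕ) : ℝ))
  refine ⟨max (max N0 N3) (max N4 3), fun N A hN hA1 hA2 s hs => ?_⟩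
  have hN0' : N0 ≤ N := le_trans (le_trans (le_max_left _ _) (le_max_left _ _)) hN
  have hN3' : N3 ≤ N := le_trans (le_trans (le_max_right _ _) (le_max_left _ _)) hN
  have hN4' : N4 ≤ N := le_trans (le_trans (le_max_left _ _) (le_max_right _ _)) hN
  have hN3'' : 3 ≤ N := le_trans (le_trans (le_max_right _ _) (le_max_right _ _)) hN
  have hAbig : max A1 A2 ≤ A := by
    have h1 : ((max A1 A2 : ℕ) : ℝ) ≤ (N : ℝ) ^ (1 / 2 + ε) := hN4 N hN4'
    exact_mod_cast h1.trans hA1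
  have hlowN := hN0 N A hN0' hA1 hA2 s hs
  have hex : ∃ Ex ⊆ Icc 1 A, (#Ex : ℝ) ≤ c1 / 2 * A ∧ ∀ a ∈ Icc 1 A, a ∉ Ex →
      ∃ h : ℝ, 0 < h ∧ h ≤ K ∧ Tendsto (fun X : ℕ => hpr (s * a) X) atTop (𝓝 h) := by
    rcases hs with rfl | rfl
    · obtain ⟨Ex, h1, h2, h3⟩ := hu1 A (le_trans (le_max_left _ _) hAbig)
      refine ⟨Ex, h1, h2, fun a ha haE => ?_⟩
      obtain ⟨S, q1, q2, q3⟩ := h3 a ha haE
      exact ⟨S, q1, q2.trans hKK1, q3⟩
    · obtain ⟨Ex, h1, h2, h3⟩ := hu2 A (le_trans (le_max_right _ _) hAbig)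
      refine ⟨Ex, h1, h2, fun a ha haE => ?_⟩
      obtain ⟨S, q1, q2, q3⟩ := h3 a ha haE
      exact ⟨S, q1, q2.trans hKK2, q3⟩
  obtain ⟨Ex, hE1, hE2, hE3⟩ := hex
  have hlogN : 0 < Real.log N := Real.log_pos (by exact_mod_cast (by omega : 1 < N))
  have hNr : (0 : ℝ) < N := by exact_mod_cast (by omega : 0 < N)
  obtain ⟨F, hF⟩ : ∃ F, F = (Icc 1 A).filter (fun a => c1 * (N / Real.log N) ≤ (cnt s a (N / 8) N : ℝ)) := ⟨_, rfl⟩
  rw [← hF] at hlowN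
  refine ⟨F \ Ex, ?_, ?_, ?_⟩
  · intro a ha
    rw [Finset.mem_sdiff, hF, mem_filter] at ha
    exact ha.1.1
  · have h1 : (#F : ℝ) ≤ #(F \ Ex) + #Ex := by
      have h2 : F ⊆ (F \ Ex) ∪ Ex := by
        intro x hx
        rw [mem_union, Finset.mem_sdiff]
        by_cases hxE : x ∈ Ex
        · exact Or.inr hxE
        · exact Or.inl ⟨hx, hxE⟩
      have h3 := (card_le_card h2).trans (card_union_le _ _)
      exact_mod_cast h3
    have hA0 : (0 : ℝ) ≤ A := Nat.cast_nonneg _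
    have h4 : c * A ≤ c1 / 2 * A := mul_le_mul_of_nonneg_right hcc1 hA0
    linarith
  · intro a ha
    rw [Finset.mem_sdiff, hF, mem_filter] at ha
    obtain ⟨⟨haI, hac⟩, haE⟩ := ha
    obtain ⟨S, q1, q2, q3⟩ := hE3 a haI haE
    refine ⟨S, q1, q3, ?_, ?_⟩
    · refine le_trans ?_ hac
      apply mul_le_mul_of_nonneg_right _ (by positivity)
      linarith
    · refine le_trans ?_ hac
      have hli := hN3 N hN3' 2 N le_rfl (by omega) le_rfl
      have hli' : ∫ t in (2 : ℝ)..(N : ℝ), 1 / Real.log t ≤ 2 * (N / Real.log N) := by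
        have h5 : ((N : ℝ) - (2 : ℕ)) / Real.log N ≤ N / Real.log N := by
          apply div_le_div_of_nonneg_right _ hlogN.le
          push_cast
          linarith
        have h6 : ∫ t in ((2 : ℕ) : ℝ)..(N : ℝ), 1 / Real.log t = ∫ t in (2 : ℝ)..(N : ℝ), 1 / Real.log t := by
          norm_num
        rw [h6] at hli
        linarith
      calc c * (1 / 2 * S * ∫ t in (2 : ℝ)..(N : ℝ), 1 / Real.log t)
          ≤ c * (1 / 2 * S * (2 * (N / Real.log N))) := by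
            apply mul_le_mul_of_nonneg_left _ hc0.le
            apply mul_le_mul_of_nonneg_left hli' (by positivity)
        _ = (c * S) * (N / Real.log N) := by ring
        _ ≤ c1 * (N / Real.log N) := by
            apply mul_le_mul_of_nonneg_right _ (by positivity)
            calc c * S ≤ c1 / K * K := mul_le_mul hcc2 q2 q1.le (by positivity)
              _ = c1 := div_mul_cancel₀ _ hK.ne'

end Pool.Agent.V5helper51.BH
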